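import Pool.Agent.Lib.MP_ef6aaf_al.EF.QStm

/-!
PIECE `a0` of project EF (helper97): strict positivity when there are no cross arcs.

Partition used here (simpler than the docstring): `k = prod |e i|`; for every index `i` the copies `l < k / |e i|` of both
signs go into two big blocks (positive u-arcs with negative v-arcs, and the other way around; both have
charge `k * #{kd = 0}` on one side and `- k * #{kd = 1}` on the other), the other copies (none if `|e i| = 1`) form
pairs `{(i, true, l), (i, false, l)}`.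
-/

set_option autoImplicit false

namespace Pool.MP_ef6aaf_al.EF

open Finset Sq

section Alg

variable {A : Type} [DecidableEq A]

theorem a0_mul_pos {x y : Sq A} (hx : 0 ≤ x) (hy : 0 ≤ y) {S S' : Finset A} (hd : Disjoint S S')
    (h1 : 0 < x.co S) (h2 : 0 < y.co S') : 0 < (x * y).co (S ∪ S') := by
  rw [co_mul]
  refine Finset.sum_pos' (fun T _ => mul_nonneg (hx T) (hy _)) ⟨S, ?_, ?_⟩
  · exact Finset.mem_powerset.2 Finset.subset_union_left
  · rw [Finset.union_sdiff_cancel_left hd]
    exact mul_pos h1 h2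

theorem a0_ex_iff [Fintype A] {x : Sq A} (hx : 0 ≤ x) (h0 : x.co ∅ = 0) (S : Finset A) :
    0 < (ex x).co S ↔ ∃ k : ℕ, 0 < (x ^ k).co S := by
  constructor
  · intro h
    by_contra hc
    push Not at hc
    have : (ex x).co S ≤ 0 := by
      rw [ex, co_sum]
      refine Finset.sum_nonpos fun k _ => ?_
      rw [co_smul]
      exact mul_nonpos_of_nonneg_of_nonpos (by positivity) (hc k)
    linarith
  · rintro ⟨k, hk⟩
    have hk' : k < Fintype.card A + 1 := by
      by_contra hc
      push Not at hc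
      have : x ^ k = 0 := by
        obtain ⟨m, rfl⟩ := Nat.exists_eq_add_of_le hc
        rw [pow_add, pow_card_eq_zero h0, zero_mul]
      rw [this] at hk
      simp at hk
    rw [ex, co_sum]
    refine Finset.sum_pos' (fun j _ => ?_) ⟨k, Finset.mem_range.2 hk', ?_⟩
    · exact smul_nn (by positivity) (pow_nn hx j) S
    · rw [co_smul]
      have : (0 : ℚ) < ((k.factorial : ℚ))⁻¹ := by positivity
      exact mul_pos this hk

theorem a0_union [Fintype A] {x : Sq A} (hx : 0 ≤ x) (h0 : x.co ∅ = 0) {S S' : Finset A}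
    (hd : Disjoint S S') (h1 : 0 < (ex x).co S) (h2 : 0 < (ex x).co S') :
    0 < (ex x).co (S ∪ S') := by
  obtain ⟨k, hk⟩ := (a0_ex_iff hx h0 S).1 h1
  obtain ⟨l, hl⟩ := (a0_ex_iff hx h0 S').1 h2
  refine (a0_ex_iff hx h0 _).2 ⟨k + l, ?_⟩
  rw [pow_add]
  exact a0_mul_pos (pow_nn hx k) (pow_nn hx l) hd hk hl

theorem a0_biUnion [Fintype A] {x : Sq A} (hx : 0 ≤ x) (h0 : x.co ∅ = 0) {ι : Type}
    [DecidableEq ι] (s : Finset ι) (B : ι → Finset A) (hd : ∀ i j, i ≠ j → Disjoint (B i) (B j))
    (h : ∀ i ∈ s, 0 < (ex x).co (B i)) : 0 < (ex x).co (s.biUnion B) := by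
  induction s using Finset.induction_on with
  | empty => simp [ex_co_empty h0]
  | insert a s ha ih =>
    rw [Finset.biUnion_insert]
    refine a0_union hx h0 ?_ (h a (by simp)) (ih fun i hi => h i (by simp [hi]))
    rw [Finset.disjoint_biUnion_right]
    intro i hi
    exact hd a i (fun e => ha (e ▸ hi))

theorem a0_pow_pos {x : Sq A} (hx : 0 ≤ x) (S : Finset A) (h : ∀ a ∈ S, 0 < x.co {a}) :
    0 < (x ^ S.card).co S := by
  induction S using Finset.induction_on with
  | empty => simp
  | insert a S ha ih =>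
    rw [Finset.card_insert_of_notMem ha, pow_succ, Finset.insert_eq, Finset.union_comm]
    exact a0_mul_pos (pow_nn hx _) hx (by simpa using ha) (ih fun b hb => h b (by simp [hb]))
      (h a (by simp))

theorem a0_iv_pos [Fintype A] {x : Sq A} (hx : 0 ≤ x) (S : Finset A)
    (h : ∀ a ∈ S, 0 < x.co {a}) : 0 < (iv (1 - x)).co S := by
  rw [iv, co_sum, sub_sub_cancel]
  refine Finset.sum_pos' (fun j _ => pow_nn hx j S) ⟨S.card, ?_, a0_pow_pos hx S h⟩
  rw [Finset.mem_range]
  exact Nat.lt_succ_of_le (Finset.card_le_univ S)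

theorem a0_lg [Fintype A] {x : Sq A} (h0 : x.co ∅ = 0) (S : Finset A) :
    (lg (iv (1 - x))).co S = ((S.card : ℚ))⁻¹ * (iv (1 - x) * dg univ x).co S := by
  have h1 : (1 - x).co ∅ = 1 := by simp [h0]
  have h2 : iv (iv (1 - x)) * dg univ (iv (1 - x)) = iv (1 - x) * dg univ x := by
    rw [iv_iv h1, dg_iv _ h1, dg_sub, dg_one, zero_sub]
    calc (1 - x) * -(iv (1 - x) * iv (1 - x) * -dg univ x)
        = ((1 - x) * iv (1 - x)) * (iv (1 - x) * dg univ x) := by ring
      _ = _ := by rw [mul_iv h1, one_mul]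
  show ((S.card : ℚ))⁻¹ * (iv (iv (1 - x)) * dg univ (iv (1 - x))).co S = _
  rw [h2]

theorem a0_dg_nn (Y : Finset A) {x : Sq A} (hx : 0 ≤ x) : 0 ≤ dg Y x := fun S => by
  simp only [dg, co_zero]
  exact mul_nonneg (by positivity) (hx S)

theorem a0_lg_nn [Fintype A] {x : Sq A} (hx : 0 ≤ x) (h0 : x.co ∅ = 0) :
    0 ≤ lg (iv (1 - x)) := fun S => by
  rw [a0_lg h0]
  exact mul_nonneg (by positivity) (mul_nn (iv_one_sub_nn hx) (a0_dg_nn _ hx) S)

theorem a0_lg_pos [Fintype A] {x : Sq A} (hx : 0 ≤ x) (h0 : x.co ∅ = 0) {R : Finset A}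
    (hR : R.Nonempty) (h : ∀ a ∈ R, 0 < x.co {a}) : 0 < (lg (iv (1 - x))).co R := by
  rw [a0_lg h0]
  obtain ⟨r, hr⟩ := hR
  have hc : (0 : ℚ) < ((R.card : ℚ))⁻¹ := by
    have : 0 < R.card := Finset.card_pos.2 ⟨r, hr⟩
    positivity
  refine mul_pos hc ?_
  have e : R = R.erase r ∪ {r} := by
    ext a
    simp only [mem_union, mem_erase, mem_singleton]
    constructor
    · intro ha
      by_cases hh : a = r
      · exact Or.inr hh
      · exact Or.inl ⟨hh, ha⟩
    · rintro (⟨_, ha⟩ | rfl)
      · exact ha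
      · exact hr
  have h1 : 0 < (dg univ x).co {r} := by
    simp only [dg]
    have := h r hr
    simpa using this
  have := a0_mul_pos (iv_one_sub_nn hx) (a0_dg_nn univ hx) (S := R.erase r) (S' := {r})
    (by simp) (a0_iv_pos hx _ fun a ha => h a (Finset.mem_of_mem_erase ha)) h1
  rwa [← e] at this

theorem a0_ch_union (c : A → ℤ) {R R' : Finset A} (hd : Disjoint R R') :
    ch c (R ∪ R') = ch c R + ch c R' := by
  unfold ch
  exact Finset.sum_union hd

theorem a0_pr_nn {x y : Sq A} (c : A → ℤ) (hx : 0 ≤ x) (hy : 0 ≤ y) : 0 ≤ pr c x y :=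
  fun S => by
  simp only [pr, co_zero]
  split_ifs
  · refine Finset.sum_nonneg fun T _ => mul_nonneg (mul_nonneg ?_ (hx T)) (hy _)
    exact_mod_cast le_max_right _ _
  · exact le_refl _

theorem a0_pr_pos {x y : Sq A} (c : A → ℤ) (hx : 0 ≤ x) (hy : 0 ≤ y) {R R' : Finset A}
    (hd : Disjoint R R') (h1 : 0 < x.co R) (h2 : 0 < y.co R') (h3 : 0 < ch c R)
    (h4 : ch c R + ch c R' = 0) : 0 < (pr c x y).co (R ∪ R') := by
  simp only [pr]
  rw [if_pos (by rw [a0_ch_union c hd, h4])]
  refine Finset.sum_pos' (fun T _ => mul_nonneg (mul_nonneg ?_ (hx T)) (hy _)) ⟨R, ?_, ?_⟩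
  · exact_mod_cast le_max_right _ _
  · exact Finset.mem_powerset.2 Finset.subset_union_left
  · rw [Finset.union_sdiff_cancel_left hd, max_eq_left h3.le]
    have : (0 : ℚ) < (ch c R : ℚ) := by exact_mod_cast h3
    positivity

theorem a0_pr_empty {x y : Sq A} (c : A → ℤ) : (pr c x y).co ∅ = 0 := by
  simp [pr, ch]

theorem a0_pq_pos {x y : Sq A} (c : A → ℤ) (hx : 0 ≤ x) (hy : 0 ≤ y) {R R' : Finset A}
    (hd : Disjoint R R') (h1 : 0 < x.co R) (h2 : 0 < y.co R') (h3 : 2 ≤ ch c R)
    (h4 : ch c R + ch c R' = 0) : 0 < (pq c x y).co (R ∪ R') := by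
  simp only [pq]
  rw [if_pos (by rw [a0_ch_union c hd, h4])]
  refine Finset.sum_pos' (fun T _ => mul_nonneg (mul_nonneg ?_ (hx T)) (hy _)) ⟨R, ?_, ?_⟩
  · exact_mod_cast le_max_right _ _
  · exact Finset.mem_powerset.2 Finset.subset_union_left
  · rw [Finset.union_sdiff_cancel_left hd, max_eq_left (by omega)]
    have : (0 : ℚ) < ((ch c R - 1 : ℤ) : ℚ) := by
      have : 0 < ch c R - 1 := by omega
      exact_mod_cast this
    positivity

omit [DecidableEq A] in
theorem a0_pp_pp (c : A → ℤ) (x : Sq A) : pp c (pp c x) = pp c x := by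
  ext S; simp only [pp]; split_ifs <;> rfl

omit [DecidableEq A] in
theorem a0_nn_nn (c : A → ℤ) (x : Sq A) : nn c (nn c x) = nn c x := by
  ext S; simp only [nn]; split_ifs <;> rfl

/-- everything about the factors of `T` -/
theorem a0_T [Fintype A] (hh : HatS) (hk : KjS) (c : A → ℤ) (T : Sq A) (h0 : T.co ∅ = 0)
    (hT : 0 ≤ T) :
    (0 ≤ fh c T ∧ (fh c T).co ∅ = 0 ∧ ∀ a, 0 < T.co {a} → 0 < c a → 0 < (fh c T).co {a}) ∧
    (0 ≤ gh c T ∧ (gh c T).co ∅ = 0 ∧ ∀ a, 0 < T.co {a} → c a < 0 → 0 < (gh c T).co {a}) ∧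
    (∃ W : Sq A, 0 ≤ W ∧ W.co ∅ = 0 ∧ Jh c T = ex W ∧ pq c (fh c T) (gh c T) ≤ W) := by
  obtain ⟨⟨e1, e2⟩, _, hn, _⟩ := hh A c T h0
  obtain ⟨hf, hg⟩ := hn hT
  have hP : 0 ≤ T + fh c T * gh c T := add_nn hT (mul_nn hf hg)
  refine ⟨⟨hf, ?_, ?_⟩, ⟨hg, ?_, ?_⟩, ?_⟩
  · rw [e1]; simp [pp, ch]
  · intro a h1 h2
    rw [e1]
    have hc : 0 < ch c {a} := by simpa [ch] using h2
    simp only [pp, if_pos hc, co_add]
    have := mul_nn hf hg {a}
    simp only [co_zero] at this
    linarith
  · rw [e2]; simp [nn, ch]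
  · intro a h1 h2
    rw [e2]
    have hc : ch c {a} < 0 := by simpa [ch] using h2
    simp only [nn, if_pos hc, co_add]
    have := mul_nn hf hg {a}
    simp only [co_zero] at this
    linarith
  · obtain ⟨W, w1, w2, w3, w4⟩ := hk A c (fh c T) (gh c T) hf hg
      (by rw [e1, a0_pp_pp]) (by rw [e2, a0_nn_nn])
    exact ⟨W, w1, w2, w3, w4⟩

theorem a0_lh [Fintype A] (hh : HatS) (hk : KjS) (c : A → ℤ) (T : Sq A) (h0 : T.co ∅ = 0)
    (hT : 0 ≤ T) :
    0 ≤ lh c T ∧ ∀ R : Finset A, R.Nonempty → (∀ a ∈ R, 0 < T.co {a}) →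
      ((∀ a ∈ R, 0 < c a) ∨ (∀ a ∈ R, c a < 0)) → 0 < (lh c T).co R := by
  obtain ⟨⟨f1, f2, f3⟩, ⟨g1, g2, g3⟩, _⟩ := a0_T hh hk c T h0 hT
  have n1 : 0 ≤ lg (Fh c T) := a0_lg_nn f1 f2
  have n2 : 0 ≤ lg (Gh c T) := a0_lg_nn g1 g2
  refine ⟨add_nn n1 n2, ?_⟩
  intro R hR hRT hs
  have m1 := n1 R
  have m2 := n2 R
  simp only [co_zero] at m1 m2
  show 0 < (lg (Fh c T) + lg (Gh c T)).co R
  rw [co_add]
  rcases hs with hs | hs
  · have : 0 < (lg (Fh c T)).co R := a0_lg_pos f1 f2 hR fun a ha => f3 a (hRT a ha) (hs a ha)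
    linarith
  · have : 0 < (lg (Gh c T)).co R := a0_lg_pos g1 g2 hR fun a ha => g3 a (hRT a ha) (hs a ha)
    linarith

theorem a0_va_nn (P : Finset A) : 0 ≤ va P := fun S => by
  simp only [va, co_zero]; split_ifs <;> norm_num

theorem a0_va_empty (P : Finset A) : (va P).co ∅ = 0 := by simp [va]

theorem a0_va_pos {P : Finset A} {a : A} (ha : a ∈ P) : 0 < (va P).co {a} := by
  simp only [va]
  rw [if_pos ⟨a, ha, rfl⟩]
  norm_num

/-- the structure of `XX` without cross arcs -/
theorem a0_XX [Fintype A] (hh : HatS) (hk : KjS) (c : A → ℤ) (U V Q : Finset A) :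
    ∃ X : Sq A, 0 ≤ X ∧ X.co ∅ = 0 ∧ XX c U V ∅ Q = ex X ∧
      (∀ R R' : Finset A, R.Nonempty → R'.Nonempty → R ⊆ U → R' ⊆ V → Disjoint R R' →
        ((∀ a ∈ R, 0 < c a) ∧ (∀ a ∈ R', c a < 0) ∨ (∀ a ∈ R, c a < 0) ∧ (∀ a ∈ R', 0 < c a)) →
        ch c R + ch c R' = 0 → 0 < (ex X).co (R ∪ R')) ∧
      (∀ a a' : A, ((a ∈ U ∧ a' ∈ U) ∨ (a ∈ V ∧ a' ∈ V)) → 2 ≤ c a → c a + c a' = 0 →
        0 < (ex X).co {a, a'}) := by
  have hT : Tht c U V ∅ Q = va U := by
    have h0 : va (∅ : Finset A) = 0 := by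
      ext S; simp [va]
    unfold Tht
    rw [h0, zero_mul, zero_mul, add_zero]
  obtain ⟨⟨fu1, _, fu3⟩, ⟨gu1, _, gu3⟩, WU, wu1, wu2, wu3, wu4⟩ :=
    a0_T hh hk c (va U) (a0_va_empty U) (a0_va_nn U)
  obtain ⟨⟨fv1, _, fv3⟩, ⟨gv1, _, gv3⟩, WV, wv1, wv2, wv3, wv4⟩ :=
    a0_T hh hk c (va V) (a0_va_empty V) (a0_va_nn V)
  obtain ⟨lu1, lu2⟩ := a0_lh hh hk c (va U) (a0_va_empty U) (a0_va_nn U)
  obtain ⟨lv1, lv2⟩ := a0_lh hh hk c (va V) (a0_va_empty V) (a0_va_nn V)
  set E := pr c (lh c (va V)) (lh c (va U)) + pr c (lh c (va U)) (lh c (va V)) with hE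
  have p1 := a0_pr_nn c lv1 lu1
  have p2 := a0_pr_nn c lu1 lv1
  have hEn : 0 ≤ E := add_nn p1 p2
  have hE0 : E.co ∅ = 0 := by rw [hE, co_add, a0_pr_empty, a0_pr_empty, add_zero]
  have hX : 0 ≤ WV + WU + E := add_nn (add_nn wv1 wu1) hEn
  have hX0 : (WV + WU + E).co ∅ = 0 := by simp [wv2, wu2, hE0]
  have key : ∀ S : Finset A, S.Nonempty → 0 < (WV + WU + E).co S →
      0 < (ex (WV + WU + E)).co S := by
    intro S _ hp
    refine (a0_ex_iff hX hX0 S).2 ⟨1, ?_⟩
    rwa [pow_one]
  refine ⟨WV + WU + E, hX, hX0, ?_, ?_, ?_⟩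
  · unfold XX
    rw [hT, wu3, wv3, ← hE, ex_add (by simp [wv2, wu2]) hE0, ex_add wv2 wu2]
  · intro R R' hR hR' hU hV hd hs hc
    refine key _ (hR.mono Finset.subset_union_left) ?_
    have q1 := wv1 (R ∪ R')
    have q2 := wu1 (R ∪ R')
    have q3 := p1 (R ∪ R')
    have q4 := p2 (R ∪ R')
    simp only [co_zero] at q1 q2 q3 q4
    have lR : 0 < (lh c (va U)).co R := by
      refine lu2 R hR (fun a ha => a0_va_pos (hU ha)) ?_
      rcases hs with ⟨h, _⟩ | ⟨h, _⟩
      · exact Or.inl h
      · exact Or.inr h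
    have lR' : 0 < (lh c (va V)).co R' := by
      refine lv2 R' hR' (fun a ha => a0_va_pos (hV ha)) ?_
      rcases hs with ⟨_, h⟩ | ⟨_, h⟩
      · exact Or.inr h
      · exact Or.inl h
    simp only [co_add, hE]
    rcases hs with ⟨h, _⟩ | ⟨_, h⟩
    · have hc1 : 0 < ch c R := Finset.sum_pos h hR
      have := a0_pr_pos c lu1 lv1 hd lR lR' hc1 hc
      linarith
    · have hc1 : 0 < ch c R' := Finset.sum_pos h hR'
      have := a0_pr_pos c lv1 lu1 hd.symm lR' lR hc1 (by rw [add_comm]; exact hc)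
      rw [Finset.union_comm] at this
      linarith
  · intro a a' ha h2 hc
    refine key _ (by simp) ?_
    have hne : a ≠ a' := by rintro rfl; omega
    have e1 : ({a, a'} : Finset A) = {a} ∪ {a'} := by
      rw [Finset.insert_eq]
    rw [e1]
    have q1 := wv1 ({a} ∪ {a'})
    have q2 := wu1 ({a} ∪ {a'})
    have q3 := p1 ({a} ∪ {a'})
    have q4 := p2 ({a} ∪ {a'})
    simp only [co_zero] at q1 q2 q3 q4
    simp only [co_add, hE]
    have hd : Disjoint ({a} : Finset A) {a'} := by simpa using hne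
    have hca : 2 ≤ ch c {a} := by simpa [ch] using h2
    have hcc : ch c {a} + ch c {a'} = 0 := by simpa [ch] using hc
    have hcp : 0 < c a := by omega
    have hcn : c a' < 0 := by omega
    rcases ha with ⟨ha, ha'⟩ | ⟨ha, ha'⟩
    · have := a0_pq_pos c fu1 gu1 hd (fu3 a (a0_va_pos ha) hcp) (gu3 a' (a0_va_pos ha') hcn)
        hca hcc
      have h5 := wu4 ({a} ∪ {a'})
      linarith
    · have := a0_pq_pos c fv1 gv1 hd (fv3 a (a0_va_pos ha) hcp) (gv3 a' (a0_va_pos ha') hcn)
        hca hcc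
      have h5 := wv4 ({a} ∪ {a'})
      linarith

end Alg

section Comb

variable {I : Type} [DecidableEq I] [Fintype I]

omit [DecidableEq I] [Fintype I] in
/-- sum over the first copies -/
theorem a0_sum_lt (k q : ℕ) (hq : q ≤ k) (v : ℤ) :
    ∑ l : Fin k, (if (l : ℕ) < q then v else 0) = (q : ℤ) * v := by
  rw [Fin.sum_univ_eq_sum_range (fun l => if l < q then v else 0) k, ← Finset.sum_filter]
  have : (Finset.range k).filter (fun l => l < q) = Finset.range q := by
    ext l
    simp only [mem_filter, mem_range]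
    omega
  rw [this]
  simp

omit [DecidableEq I] in
/-- the charge of one side of a big block -/
theorem a0_charge (e : I → ℤ) (k : ℕ) (h0 : ∀ i, e i ≠ 0) (hd : ∀ i, (e i).natAbs ∣ k)
    (p : I → Prop) [DecidablePred p] (b : Bool) :
    ch (cc e k) (univ.filter (fun a : I × Bool × Fin k =>
      (a.2.2 : ℕ) < k / (e a.1).natAbs ∧ p a.1 ∧ decide (0 < cc e k a) = b)) =
    (if b = true then (k : ℤ) else - (k : ℤ)) * ((univ.filter (fun i => p i)).card : ℤ) := by
  unfold ch
  rw [Finset.sum_filter, Fintype.sum_prod_type, Finset.card_filter]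
  push_cast
  rw [Finset.mul_sum]
  refine Finset.sum_congr rfl fun i _ => ?_
  rw [Fintype.sum_prod_type, Fintype.sum_bool]
  by_cases hp : p i
  swap
  · simp [hp]
  have hq : k / (e i).natAbs ≤ k := Nat.div_le_self _ _
  have hkq : ((k / (e i).natAbs : ℕ) : ℤ) * |e i| = k := by
    have h1 : (k / (e i).natAbs) * (e i).natAbs = k := Nat.div_mul_cancel (hd i)
    have h2 : ((e i).natAbs : ℤ) = |e i| := Int.natCast_natAbs (e i)
    rw [← h2]
    exact_mod_cast h1
  simp only [cc, hp, true_and, if_true, Bool.false_eq_true, if_false]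
  have hsum : ∀ (s : Bool) (v : ℤ), (∑ l : Fin k,
      (if (l : ℕ) < k / (e i).natAbs ∧ s = b then v else 0)) =
      if s = b then ((k / (e i).natAbs : ℕ) : ℤ) * v else 0 := by
    intro s v
    by_cases hs : s = b
    · simp only [hs, and_true, if_true]
      exact a0_sum_lt _ _ hq v
    · simp [hs]
  rw [hsum (decide (0 < e i)) (e i), hsum (decide (0 < -e i)) (- e i)]
  clear hsum hq
  generalize k / (e i).natAbs = q at hkq ⊢
  rcases lt_or_gt_of_ne (h0 i) with hn | hn
  · have d1 : decide (0 < e i) = false := by simpa using hn.le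
    have d2 : decide (0 < - e i) = true := by simpa using hn
    rw [abs_of_neg hn] at hkq
    rw [d1, d2]
    cases b
    · simp; linarith
    · simp; linarith
  · have d1 : decide (0 < e i) = true := by simpa using hn
    have d2 : decide (0 < - e i) = false := by simpa using hn.le
    rw [abs_of_pos hn] at hkq
    rw [d1, d2]
    cases b
    · simp; linarith
    · simp; linarith

/-- block label -/
def a0_blk (kd : I → Fin 3) (e : I → ℤ) (k : ℕ) (a : I × Bool × Fin k) : Bool ⊕ (I × Fin k) :=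
  if (a.2.2 : ℕ) < k / (e a.1).natAbs then Sum.inl (decide (0 < cc e k a ↔ kd a.1 = 0))
  else Sum.inr (a.1, a.2.2)

end Comb

theorem a0 (hh : HatS) (hk : KjS) : A0S := by
  intro I _ _ kd e h2 h0 hcard
  have hkd : ∀ i, kd i = 0 ∨ kd i = 1 := by
    intro i
    have := h2 i
    generalize kd i = z at this ⊢
    fin_cases z <;> simp_all
  set k : ℕ := ∏ i, (e i).natAbs with hkdef
  have hk1 : 1 ≤ k := Finset.prod_pos fun i _ => Int.natAbs_pos.2 (h0 i)
  have hdvd : ∀ i, (e i).natAbs ∣ k := fun i => Finset.dvd_prod_of_mem _ (Finset.mem_univ i)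
  refine ⟨k, hk1, ?_⟩
  have hP : aP kd k = ∅ := by
    unfold aP
    rw [Finset.filter_eq_empty_iff]
    rintro a _ ⟨h, _⟩
    exact h2 _ h
  rw [hP]
  obtain ⟨X, hX, hX0, hXX, hbig, hpair⟩ := a0_XX hh hk (cc e k) (aU kd k) (aV kd k) (aQ kd k)
  rw [hXX]
  have hcc : ∀ a : I × Bool × Fin k, cc e k a ≠ 0 := by
    intro a
    unfold cc
    split_ifs
    · exact h0 _
    · exact neg_ne_zero.2 (h0 _)
  have hun : (univ : Finset (I × Bool × Fin k)) = (univ : Finset (Bool ⊕ (I × Fin k))).biUnion
      (fun x => univ.filter (fun a => a0_blk kd e k a = x)) := by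
    ext a
    simp
  rw [hun]
  refine a0_biUnion hX hX0 _ _ ?_ ?_
  · intro x y hxy
    rw [Finset.disjoint_left]
    intro a ha hb
    simp only [mem_filter, mem_univ, true_and] at ha hb
    exact hxy (ha.symm.trans hb)
  rintro (b | ⟨i, l⟩) _
  · -- big block
    set R := univ.filter (fun a : I × Bool × Fin k =>
      (a.2.2 : ℕ) < k / (e a.1).natAbs ∧ kd a.1 = 0 ∧ decide (0 < cc e k a) = b) with hR
    set R' := univ.filter (fun a : I × Bool × Fin k =>
      (a.2.2 : ℕ) < k / (e a.1).natAbs ∧ kd a.1 = 1 ∧ decide (0 < cc e k a) = !b) with hR'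
    have cR := a0_charge e k h0 hdvd (fun i => kd i = 0) b
    have cR' := a0_charge e k h0 hdvd (fun i => kd i = 1) (!b)
    rw [← hR] at cR
    rw [← hR'] at cR'
    have heq : univ.filter (fun a => a0_blk kd e k a = Sum.inl b) = R ∪ R' := by
      ext a
      simp only [hR, hR', mem_filter, mem_univ, true_and, mem_union]
      unfold a0_blk
      by_cases hl : (a.2.2 : ℕ) < k / (e a.1).natAbs
      · rw [if_pos hl]
        simp only [hl, true_and, Sum.inl.injEq]
        rcases hkd a.1 with hz | hz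
        · rw [hz]
          simp
        · rw [hz]
          cases b <;> simp
      · rw [if_neg hl]
        simp [hl]
    rw [heq]
    by_cases hn : (univ.filter (fun i => kd i = 0)).card = 0
    · have hn' : (univ.filter (fun i => kd i = 1)).card = 0 := by rw [← hcard, hn]
      rw [Finset.card_eq_zero, Finset.filter_eq_empty_iff] at hn hn'
      have hRe : R = ∅ := by
        rw [hR, Finset.filter_eq_empty_iff]
        rintro a _ ⟨_, h, _⟩
        exact hn (Finset.mem_univ _) h
      have hRe' : R' = ∅ := by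
        rw [hR', Finset.filter_eq_empty_iff]
        rintro a _ ⟨_, h, _⟩
        exact hn' (Finset.mem_univ _) h
      rw [hRe, hRe', Finset.union_empty, ex_co_empty hX0]
      norm_num
    · have hkz : (k : ℤ) ≠ 0 := by exact_mod_cast (Nat.one_le_iff_ne_zero.1 hk1)
      have hnz : (((univ.filter (fun i => kd i = 0)).card : ℕ) : ℤ) ≠ 0 := by exact_mod_cast hn
      have hRn : R.Nonempty := by
        rw [Finset.nonempty_iff_ne_empty]
        intro h
        rw [h] at cR
        have : ch (cc e k) ∅ = 0 := by simp [ch]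
        rw [this] at cR
        cases b
        · simp only [Bool.false_eq_true, if_false] at cR
          exact mul_ne_zero (neg_ne_zero.2 hkz) hnz cR.symm
        · simp only [if_true] at cR
          exact mul_ne_zero hkz hnz cR.symm
      have hRn' : R'.Nonempty := by
        rw [Finset.nonempty_iff_ne_empty]
        intro h
        rw [h] at cR'
        have : ch (cc e k) ∅ = 0 := by simp [ch]
        rw [this, ← hcard] at cR'
        cases b
        · simp only [Bool.not_false, if_true] at cR'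
          exact mul_ne_zero hkz hnz cR'.symm
        · simp only [Bool.not_true, Bool.false_eq_true, if_false] at cR'
          exact mul_ne_zero (neg_ne_zero.2 hkz) hnz cR'.symm
      refine hbig R R' hRn hRn' ?_ ?_ ?_ ?_ ?_
      · intro a ha
        simp only [hR, mem_filter, mem_univ, true_and] at ha
        simp only [aU, mem_filter, mem_univ, true_and]
        exact ha.2.1
      · intro a ha
        simp only [hR', mem_filter, mem_univ, true_and] at ha
        simp only [aV, mem_filter, mem_univ, true_and]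
        exact ha.2.1
      · rw [Finset.disjoint_left]
        intro a ha hb
        simp only [hR, mem_filter, mem_univ, true_and] at ha
        simp only [hR', mem_filter, mem_univ, true_and] at hb
        have := ha.2.1.symm.trans hb.2.1
        exact absurd this (by decide)
      · cases b
        · right
          constructor
          · intro a ha
            simp only [hR, mem_filter, mem_univ, true_and, decide_eq_false_iff_not, not_lt] at ha
            exact lt_of_le_of_ne ha.2.2 (hcc a)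
          · intro a ha
            simp only [hR', mem_filter, mem_univ, true_and, Bool.not_false,
              decide_eq_true_eq] at ha
            exact ha.2.2
        · left
          constructor
          · intro a ha
            simp only [hR, mem_filter, mem_univ, true_and, decide_eq_true_eq] at ha
            exact ha.2.2
          · intro a ha
            simp only [hR', mem_filter, mem_univ, true_and, Bool.not_true,
              decide_eq_false_iff_not, not_lt] at ha
            exact lt_of_le_of_ne ha.2.2 (hcc a)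
      · rw [cR, cR', ← hcard]
        cases b <;> simp
  · -- pair block
    by_cases hl : (l : ℕ) < k / (e i).natAbs
    · have heq : univ.filter (fun a => a0_blk kd e k a = Sum.inr (i, l)) = ∅ := by
        rw [Finset.filter_eq_empty_iff]
        rintro ⟨j, s, m⟩ _ h
        unfold a0_blk at h
        split_ifs at h with hm
        simp only [Sum.inr.injEq, Prod.mk.injEq] at h
        obtain ⟨rfl, rfl⟩ := h
        exact hm hl
      rw [heq, ex_co_empty hX0]
      norm_num
    · have habs : 2 ≤ |e i| := by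
        by_contra hc
        have h1 : 0 < |e i| := abs_pos.2 (h0 i)
        have h3 : |e i| = 1 := by omega
        have h4 : (e i).natAbs = 1 := by
          have := Int.natCast_natAbs (e i)
          rw [h3] at this
          exact_mod_cast this
        rw [h4, Nat.div_one] at hl
        exact hl l.2
      have heq : univ.filter (fun a => a0_blk kd e k a = Sum.inr (i, l)) =
          {(i, true, l), (i, false, l)} := by
        ext ⟨j, s, m⟩
        simp only [mem_filter, mem_univ, true_and, mem_insert, mem_singleton, Prod.mk.injEq]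
        unfold a0_blk
        constructor
        · intro h
          split_ifs at h with hm
          simp only [Sum.inr.injEq, Prod.mk.injEq] at h
          obtain ⟨rfl, rfl⟩ := h
          cases s <;> simp
        · rintro (⟨rfl, _, rfl⟩ | ⟨rfl, _, rfl⟩) <;> rw [if_neg hl]
      have hmem : ∀ s s' : Bool, (((i, s, l) ∈ aU kd k ∧ (i, s', l) ∈ aU kd k) ∨
          ((i, s, l) ∈ aV kd k ∧ (i, s', l) ∈ aV kd k)) := by
        intro s s'
        simp only [aU, aV, mem_filter, mem_univ, true_and, and_self]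
        exact hkd i
      rw [heq]
      rcases lt_or_gt_of_ne (h0 i) with hn | hn
      · rw [abs_of_neg hn] at habs
        rw [Finset.pair_comm]
        exact hpair _ _ (hmem _ _) (by simpa [cc] using habs) (by simp [cc])
      · rw [abs_of_pos hn] at habs
        exact hpair _ _ (hmem _ _) (by simpa [cc] using habs) (by simp [cc])

end Pool.MP_ef6aaf_al.EF
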