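import Pool.Agent.Lib.MP_ef6aaf_al.EF.QStm

/-!
MP_ef6aaf_al, positivity side of the F_2 theorem: assembly of the strict positivity (helper38).
-/

set_option autoImplicit false
set_option linter.unusedSectionVars false

namespace Pool.MP_ef6aaf_al.EF

open Finset Sq

section gen

variable {A : Type} [DecidableEq A]

theorem a1_ge {x y : Sq A} (hx : 0 ≤ x) (hy : 0 ≤ y) {S T : Finset A} (h : Disjoint S T) :
    x.co S * y.co T ≤ (x * y).co (S ∪ T) := by
  have h1 : (S ∪ T) \ S = T := Finset.union_sdiff_cancel_left h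
  calc x.co S * y.co T = x.co S * y.co ((S ∪ T) \ S) := by rw [h1]
    _ ≤ ∑ R ∈ (S ∪ T).powerset, x.co R * y.co ((S ∪ T) \ R) :=
        Finset.single_le_sum (f := fun R => x.co R * y.co ((S ∪ T) \ R))
          (fun R _ => mul_nonneg (hx R) (hy _)) (mem_powerset.2 subset_union_left)
    _ = (x * y).co (S ∪ T) := (co_mul _ _ _).symm

theorem a1_pos {x y : Sq A} (hx : 0 ≤ x) (hy : 0 ≤ y) {S T : Finset A} (h : Disjoint S T)
    (h1 : 0 < x.co S) (h2 : 0 < y.co T) : 0 < (x * y).co (S ∪ T) :=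
  lt_of_lt_of_le (mul_pos h1 h2) (a1_ge hx hy h)

theorem a1_va_empty (P : Finset A) : (va P).co ∅ = 0 := by
  have : ¬ ∃ a ∈ P, (∅ : Finset A) = {a} := by
    rintro ⟨a, _, h⟩
    exact (Finset.singleton_ne_empty a) h.symm
  simp only [va, if_neg this]

theorem a1_va_nn (P : Finset A) : 0 ≤ va P := fun S => by
  simp only [va, co_zero]; split_ifs <;> norm_num

theorem a1_va_one {P : Finset A} {a : A} (h : a ∈ P) : (va P).co {a} = 1 := by
  have : ∃ b ∈ P, ({a} : Finset A) = {b} := ⟨a, h, rfl⟩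
  simp only [va, if_pos this]

theorem a1_va_pow (P S : Finset A) : S ⊆ P → 0 < ((va P) ^ S.card).co S := by
  induction S using Finset.induction_on with
  | empty => intro _; simp
  | insert a S ha ih =>
    intro h
    have h1 := ih ((Finset.subset_insert a S).trans h)
    have h2 : 0 < (va P).co {a} := by
      rw [a1_va_one (h (Finset.mem_insert_self a S))]; norm_num
    rw [Finset.card_insert_of_notMem ha, pow_succ, Finset.insert_eq, Finset.union_comm]
    exact a1_pos (pow_nn (a1_va_nn P) _) (a1_va_nn P)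
      (Finset.disjoint_singleton_right.2 ha) h1 h2

theorem a1_iv_pos [Fintype A] {x : Sq A} {P S : Finset A} (hx : va P ≤ x) (hS : S ⊆ P) :
    0 < (iv (1 - x)).co S := by
  have h0 : (0 : Sq A) ≤ x := le_trans (a1_va_nn P) hx
  have h1 : 0 < (x ^ S.card).co S :=
    lt_of_lt_of_le (a1_va_pow P S hS) (pow_le (a1_va_nn P) hx S.card S)
  rw [iv, co_sum, sub_sub_cancel]
  refine lt_of_lt_of_le h1 ?_
  exact Finset.single_le_sum (f := fun k => (x ^ k).co S) (fun k _ => pow_nn h0 k S)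
    (mem_range.2 (Nat.lt_succ_of_le (Finset.card_le_univ S)))

theorem a1_ch_empty (c : A → ℤ) : ch c (∅ : Finset A) = 0 := by simp [ch]

theorem a1_pp_pp (c : A → ℤ) (x : Sq A) : pp c (pp c x) = pp c x := by
  ext S; simp only [pp]; split_ifs <;> rfl

theorem a1_nn_nn (c : A → ℤ) (x : Sq A) : nn c (nn c x) = nn c x := by
  ext S; simp only [nn]; split_ifs <;> rfl

theorem a1_pp_le (c : A → ℤ) {x y : Sq A} (h : x ≤ y) : pp c x ≤ pp c y := fun S => by
  simp only [pp]; split_ifs
  · exact h S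
  · exact le_refl _

theorem a1_nn_le (c : A → ℤ) {x y : Sq A} (h : x ≤ y) : nn c x ≤ nn c y := fun S => by
  simp only [nn]; split_ifs
  · exact h S
  · exact le_refl _

theorem a1_pp_empty (c : A → ℤ) (x : Sq A) : (pp c x).co ∅ = 0 := by
  simp [pp, a1_ch_empty]

theorem a1_nn_empty (c : A → ℤ) (x : Sq A) : (nn c x).co ∅ = 0 := by
  simp [nn, a1_ch_empty]

theorem a1_va_pp (c : A → ℤ) (V : Finset A) :
    va (V.filter (fun a => 0 < c a)) ≤ pp c (va V) := fun S => by
  simp only [va, pp]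
  split_ifs with h1 h2 h3 h3
  · exact le_refl _
  · obtain ⟨a, ha, hS⟩ := h1
    exact absurd ⟨a, (Finset.mem_filter.1 ha).1, hS⟩ h3
  · obtain ⟨a, ha, hS⟩ := h1
    exact absurd (by rw [hS]; simpa [ch] using (Finset.mem_filter.1 ha).2) h2
  all_goals first | exact le_refl _ | norm_num

theorem a1_va_nnn (c : A → ℤ) (V : Finset A) :
    va (V.filter (fun a => c a < 0)) ≤ nn c (va V) := fun S => by
  simp only [va, nn]
  split_ifs with h1 h2 h3 h3
  · exact le_refl _
  · obtain ⟨a, ha, hS⟩ := h1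
    exact absurd ⟨a, (Finset.mem_filter.1 ha).1, hS⟩ h3
  · obtain ⟨a, ha, hS⟩ := h1
    exact absurd (by rw [hS]; simpa [ch] using (Finset.mem_filter.1 ha).2) h2
  all_goals first | exact le_refl _ | norm_num

theorem a1_pr_nn (c : A → ℤ) {x y : Sq A} (hx : 0 ≤ x) (hy : 0 ≤ y) : 0 ≤ pr c x y := fun S => by
  simp only [pr, co_zero]
  split_ifs
  · refine Finset.sum_nonneg fun T _ => mul_nonneg (mul_nonneg ?_ (hx T)) (hy _)
    exact_mod_cast le_max_right _ _
  · exact le_refl _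

theorem a1_pr_empty (c : A → ℤ) (x y : Sq A) : (pr c x y).co ∅ = 0 := by
  simp [pr, a1_ch_empty]

theorem a1_dg_nn (Y : Finset A) {x : Sq A} (hx : 0 ≤ x) : 0 ≤ dg Y x := fun S => by
  simp only [dg, co_zero]
  exact mul_nonneg (by positivity) (hx S)

theorem a1_lg_nn [Fintype A] {f : Sq A} (hf : 0 ≤ f) (h0 : f.co ∅ = 0) :
    0 ≤ lg (iv (1 - f)) := by
  have hx : (1 - f).co ∅ = 1 := by simp [h0]
  have h1 : iv (iv (1 - f)) * dg univ (iv (1 - f)) = iv (1 - f) * dg univ f := by
    rw [iv_iv hx, dg_iv _ hx, dg_sub, dg_one]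
    have : (1 - f) * -(iv (1 - f) * iv (1 - f) * (0 - dg univ f))
        = ((1 - f) * iv (1 - f)) * (iv (1 - f) * dg univ f) := by ring
    rw [this, mul_iv hx, one_mul]
  intro S
  simp only [lg, co_zero, h1]
  exact mul_nonneg (by positivity) (mul_nn (iv_one_sub_nn hf) (a1_dg_nn _ hf) S)

/-- the hatted objects of a nonnegative element without constant term -/
theorem a1_hat (hh : HatS) [Fintype A] (c : A → ℤ) {T : Sq A} (h0 : T.co ∅ = 0) (hT : 0 ≤ T) :
    0 ≤ fh c T ∧ 0 ≤ gh c T ∧ fh c T = pp c (fh c T) ∧ gh c T = nn c (gh c T) ∧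
      (fh c T).co ∅ = 0 ∧ (gh c T).co ∅ = 0 ∧ pp c T ≤ fh c T ∧ nn c T ≤ gh c T := by
  obtain ⟨⟨e1, e2⟩, _, h3, _⟩ := hh A c T h0
  obtain ⟨h4, h5⟩ := h3 hT
  have h6 : T ≤ T + fh c T * gh c T := fun S => by
    have := mul_nn h4 h5 S
    simp only [co_add, co_zero] at this ⊢
    linarith
  refine ⟨h4, h5, ?_, ?_, ?_, ?_, ?_, ?_⟩
  · rw [e1, a1_pp_pp]
  · rw [e2, a1_nn_nn]
  · rw [e1, a1_pp_empty]
  · rw [e2, a1_nn_empty]
  · rw [e1]; exact a1_pp_le c h6
  · rw [e2]; exact a1_nn_le c h6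

theorem a1_Jh (hh : HatS) (hk : KjS) [Fintype A] (c : A → ℤ) {T : Sq A} (h0 : T.co ∅ = 0)
    (hT : 0 ≤ T) : ∃ W : Sq A, 0 ≤ W ∧ W.co ∅ = 0 ∧ Jh c T = ex W := by
  obtain ⟨h1, h2, h3, h4, _⟩ := a1_hat hh c h0 hT
  obtain ⟨W, hW, hW0, hE, _⟩ := hk A c (fh c T) (gh c T) h1 h2 h3 h4
  exact ⟨W, hW, hW0, hE⟩

theorem a1_lh_nn (hh : HatS) [Fintype A] (c : A → ℤ) {T : Sq A} (h0 : T.co ∅ = 0)
    (hT : 0 ≤ T) : 0 ≤ lh c T := by
  obtain ⟨h1, h2, _, _, h3, h4, _, _⟩ := a1_hat hh c h0 hT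
  exact add_nn (a1_lg_nn h1 h3) (a1_lg_nn h2 h4)

/-- `(F^ G^)_S > 0` for sets of loops with nonzero charges -/
theorem a1_FG (hh : HatS) [Fintype A] (c : A → ℤ) (V S : Finset A) (hS : S ⊆ V)
    (hc : ∀ a ∈ S, c a ≠ 0) : 0 < (Fh c (va V) * Gh c (va V)).co S := by
  obtain ⟨h1, h2, _, _, h3, h4, h5, h6⟩ := a1_hat hh c (a1_va_empty V) (a1_va_nn V)
  have e : S = S.filter (fun a => 0 < c a) ∪ S.filter (fun a => c a < 0) := by
    ext a
    simp only [mem_union, mem_filter]
    constructor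
    · intro ha
      rcases lt_trichotomy (c a) 0 with h | h | h
      · exact Or.inr ⟨ha, h⟩
      · exact absurd h (hc a ha)
      · exact Or.inl ⟨ha, h⟩
    · rintro (⟨ha, _⟩ | ⟨ha, _⟩) <;> exact ha
  have hd : Disjoint (S.filter (fun a => 0 < c a)) (S.filter (fun a => c a < 0)) := by
    rw [Finset.disjoint_left]
    intro a ha hb
    exact absurd (Finset.mem_filter.1 ha).2 (not_lt.2 (Finset.mem_filter.1 hb).2.le)
  rw [e]
  refine a1_pos (iv_one_sub_nn h1) (iv_one_sub_nn h2) hd ?_ ?_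
  · exact a1_iv_pos (le_trans (a1_va_pp c V) h5) (Finset.filter_subset_filter _ hS)
  · exact a1_iv_pos (le_trans (a1_va_nnn c V) h6) (Finset.filter_subset_filter _ hS)

theorem a1_FG_nn (hh : HatS) [Fintype A] (c : A → ℤ) (V : Finset A) :
    0 ≤ Fh c (va V) * Gh c (va V) := by
  obtain ⟨h1, h2, _⟩ := a1_hat hh c (a1_va_empty V) (a1_va_nn V)
  exact mul_nn (iv_one_sub_nn h1) (iv_one_sub_nn h2)

theorem a1_Tht_nn (hh : HatS) [Fintype A] (c : A → ℤ) (U V P Q : Finset A) :
    0 ≤ Tht c U V P Q :=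
  add_nn (a1_va_nn U) (mul_nn (mul_nn (a1_va_nn P) (a1_va_nn Q)) (a1_FG_nn hh c V))

theorem a1_Tht_empty [Fintype A] (c : A → ℤ) (U V P Q : Finset A) :
    (Tht c U V P Q).co ∅ = 0 := by
  rw [Tht, co_add, co_mul_empty, co_mul_empty, a1_va_empty, a1_va_empty]
  ring

theorem a1_Tht_loop (hh : HatS) [Fintype A] (c : A → ℤ) (U V P Q : Finset A) {a : A}
    (ha : a ∈ U) : 0 < (Tht c U V P Q).co {a} := by
  have h := mul_nn (mul_nn (a1_va_nn P) (a1_va_nn Q)) (a1_FG_nn hh c V) {a}
  rw [Tht, co_add, a1_va_one ha]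
  simp only [co_zero] at h
  linarith

theorem a1_Tht_pass (hh : HatS) [Fintype A] (c : A → ℤ) (U V P Q S : Finset A) {p q : A}
    (hp : p ∈ P) (hq : q ∈ Q) (hpq : p ≠ q) (hS : S ⊆ V) (hpS : p ∉ S) (hqS : q ∉ S)
    (hc : ∀ a ∈ S, c a ≠ 0) : 0 < (Tht c U V P Q).co (({p} ∪ {q}) ∪ S) := by
  have h1 : 0 < (va P * va Q).co ({p} ∪ {q}) := by
    refine a1_pos (a1_va_nn P) (a1_va_nn Q) (by simpa using hpq) ?_ ?_
    · rw [a1_va_one hp]; norm_num
    · rw [a1_va_one hq]; norm_num
  have h2 : 0 < (va P * va Q * (Fh c (va V) * Gh c (va V))).co (({p} ∪ {q}) ∪ S) := by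
    refine a1_pos (mul_nn (a1_va_nn P) (a1_va_nn Q)) (a1_FG_nn hh c V) ?_ h1
      (a1_FG hh c V S hS hc)
    rw [Finset.disjoint_left]
    intro a ha
    simp only [mem_union, mem_singleton] at ha
    rcases ha with rfl | rfl
    · exact hpS
    · exact hqS
  have h3 := a1_va_nn U (({p} ∪ {q}) ∪ S)
  rw [Tht, co_add]
  simp only [co_zero] at h3
  linarith

/-- reduction of `XX` to `Jh (Tht)` -/
theorem a1_XX (hh : HatS) (hk : KjS) [Fintype A] (c : A → ℤ) (U V P Q : Finset A)
    (h : 0 < (Jh c (Tht c U V P Q)).co univ) : 0 < (XX c U V P Q).co univ := by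
  obtain ⟨W, hW, hW0, eW⟩ := a1_Jh hh hk c (a1_va_empty V) (a1_va_nn V)
  obtain ⟨W', hW', hW0', eW'⟩ := a1_Jh hh hk c (a1_Tht_empty c U V P Q) (a1_Tht_nn hh c U V P Q)
  have l1 := a1_lh_nn hh c (a1_va_empty V) (a1_va_nn V)
  have l2 := a1_lh_nn hh c (a1_Tht_empty c U V P Q) (a1_Tht_nn hh c U V P Q)
  have e1 : 1 ≤ Jh c (va V) := by rw [eW]; exact one_le_ex hW hW0
  have e2 : 0 ≤ Jh c (Tht c U V P Q) := by rw [eW']; exact ex_nn hW'
  have e3 : 1 ≤ ex (pr c (lh c (va V)) (lh c (Tht c U V P Q)) +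
      pr c (lh c (Tht c U V P Q)) (lh c (va V))) :=
    one_le_ex (add_nn (a1_pr_nn c l1 l2) (a1_pr_nn c l2 l1))
      (by rw [co_add, a1_pr_empty, a1_pr_empty, add_zero])
  have e4 : 1 * Jh c (Tht c U V P Q) * 1 ≤ XX c U V P Q := by
    refine mul_le ?_ (mul_le one_nn e1 e2 (le_refl _)) one_nn e3
    rw [one_mul]; exact e2
  have e5 := e4 univ
  rw [one_mul, mul_one] at e5
  exact lt_of_lt_of_le h e5

end gen

section word

theorem a1_card_sub {B : Type} [Fintype B] (q p : B → Prop) [DecidablePred q]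
    [DecidablePred p] :
    (univ.filter (fun j : {i // q i} => p j.1)).card =
      (univ.filter (fun i => q i ∧ p i)).card := by
  rw [← Finset.card_map (Function.Embedding.subtype q)]
  congr 1
  ext i
  simp only [mem_map, mem_filter, mem_univ, true_and, Function.Embedding.subtype_apply]
  constructor
  · rintro ⟨j, h1, rfl⟩
    exact ⟨j.2, h1⟩
  · rintro ⟨h1, h2⟩
    exact ⟨⟨i, h1⟩, h2, rfl⟩

theorem a1_sum_sub {B M : Type} [Fintype B] [AddCommMonoid M] (q : B → Prop)
    [DecidablePred q] (f : B → M) :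
    ∑ v : {a // q a}, f v.1 = ∑ a, if q a then f a else 0 := by
  rw [← Finset.sum_filter]
  exact (Finset.sum_subtype (univ.filter q) (by simp) f).symm

theorem a1_two (k : Fin 3) (h0 : k ≠ 0) (h1 : k ≠ 1) : k = 2 := by
  fin_cases k <;> simp_all

theorem a1_arcs {I M : Type} [Fintype I] [AddCommMonoid M] (f : I × Bool × Fin 2 → M) :
    ∑ a, f a = ∑ i, ((f (i, true, 0) + f (i, true, 1)) + (f (i, false, 0) + f (i, false, 1))) := by
  rw [Fintype.sum_prod_type]
  refine Finset.sum_congr rfl fun i _ => ?_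
  rw [Fintype.sum_prod_type, Fintype.sum_bool, Fin.sum_univ_two, Fin.sum_univ_two]

variable {I : Type} [DecidableEq I] [Fintype I]

/-- cross indices -/
abbrev a1J (kd : I → Fin 3) : Type := {i : I // kd i = 2}
/-- the u-loops -/
abbrev a1U (kd : I → Fin 3) : Type := {a : I × Bool × Fin 2 // kd a.1 = 0}
/-- the v-loops -/
abbrev a1V (kd : I → Fin 3) : Type := {a : I × Bool × Fin 2 // kd a.1 = 1}

/-- the block of an arc -/
def a1blk (kd : I → Fin 3) (π : Equiv.Perm (a1J kd × Fin 2)) (ins : a1V kd → a1J kd × Fin 2)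
    (a : I × Bool × Fin 2) : a1U kd ⊕ (a1J kd × Fin 2) :=
  if h0 : kd a.1 = 0 then Sum.inl ⟨a, h0⟩
  else if h1 : kd a.1 = 1 then Sum.inr (ins ⟨a, h1⟩)
  else if a.2.1 = true then Sum.inr (⟨a.1, a1_two _ h0 h1⟩, a.2.2)
  else Sum.inr (π.symm (⟨a.1, a1_two _ h0 h1⟩, a.2.2))

/-- the blocks -/
def a1B (kd : I → Fin 3) (π : Equiv.Perm (a1J kd × Fin 2)) (ins : a1V kd → a1J kd × Fin 2)
    (i : a1U kd ⊕ (a1J kd × Fin 2)) : Finset (I × Bool × Fin 2) :=
  univ.filter (fun a => a1blk kd π ins a = i)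

theorem a1B_inl (kd : I → Fin 3) (π : Equiv.Perm (a1J kd × Fin 2))
    (ins : a1V kd → a1J kd × Fin 2) (u : a1U kd) : a1B kd π ins (Sum.inl u) = {u.1} := by
  ext a
  simp only [a1B, mem_filter, mem_univ, true_and, mem_singleton]
  constructor
  · intro h
    unfold a1blk at h
    split_ifs at h with h0 h1 h2
    have := Sum.inl.inj h
    rw [← this]
  · rintro rfl
    unfold a1blk
    rw [dif_pos u.2]

/-- the v-loops of a pass -/
def a1S (kd : I → Fin 3) (ins : a1V kd → a1J kd × Fin 2) (x : a1J kd × Fin 2) :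
    Finset (I × Bool × Fin 2) :=
  (univ.filter (fun v => ins v = x)).map (Function.Embedding.subtype _)

theorem a1S_kd (kd : I → Fin 3) (ins : a1V kd → a1J kd × Fin 2) (x : a1J kd × Fin 2)
    {a : I × Bool × Fin 2} (h : a ∈ a1S kd ins x) : kd a.1 = 1 := by
  simp only [a1S, mem_map, mem_filter, mem_univ, true_and, Function.Embedding.subtype_apply] at h
  obtain ⟨v, _, rfl⟩ := h
  exact v.2

theorem a1B_inr (kd : I → Fin 3) (π : Equiv.Perm (a1J kd × Fin 2))
    (ins : a1V kd → a1J kd × Fin 2) (x : a1J kd × Fin 2) :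
    a1B kd π ins (Sum.inr x) =
      (({(x.1.1, true, x.2)} : Finset (I × Bool × Fin 2)) ∪ {((π x).1.1, false, (π x).2)}) ∪
        a1S kd ins x := by
  ext a
  simp only [a1B, mem_filter, mem_univ, true_and, mem_singleton, mem_union, a1S, mem_map,
    Function.Embedding.subtype_apply]
  constructor
  · intro h
    unfold a1blk at h
    split_ifs at h with h0 h1 h2
    · exact Or.inr ⟨⟨a, h1⟩, Sum.inr.inj h, rfl⟩
    · have h3 := Sum.inr.inj h
      left; left
      rw [← h3]
      obtain ⟨i, b, s⟩ := a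
      simp only at h2
      rw [h2]
    · have h3 := Sum.inr.inj h
      left; right
      rw [← h3, Equiv.apply_symm_apply]
      obtain ⟨i, b, s⟩ := a
      simp only [Bool.not_eq_true] at h2
      rw [h2]
  · rintro ((rfl | rfl) | ⟨v, hv, rfl⟩)
    · unfold a1blk
      have h2 := x.1.2
      rw [dif_neg (by simp [h2]), dif_neg (by simp [h2]), if_pos rfl]
    · unfold a1blk
      have h2 := (π x).1.2
      rw [dif_neg (by simp [h2]), dif_neg (by simp [h2]), if_neg (by simp)]
      have h3 : (((⟨(π x).1.1, h2⟩ : a1J kd), (π x).2) : a1J kd × Fin 2) = π x := rfl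
      rw [h3, Equiv.symm_apply_apply]
    · unfold a1blk
      have h2 := v.2
      rw [dif_neg (by rw [h2]; decide), dif_pos h2]
      rw [hv]

theorem a1_ch_inl (kd : I → Fin 3) (π : Equiv.Perm (a1J kd × Fin 2))
    (ins : a1V kd → a1J kd × Fin 2) (e : I → ℤ) (u : a1U kd) :
    ch (cc e 2) (a1B kd π ins (Sum.inl u)) = cc e 2 u.1 := by
  rw [a1B_inl, ch, Finset.sum_singleton]

theorem a1_ch_inr (kd : I → Fin 3) (π : Equiv.Perm (a1J kd × Fin 2))
    (ins : a1V kd → a1J kd × Fin 2) (e : I → ℤ) (x : a1J kd × Fin 2) :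
    ch (cc e 2) (a1B kd π ins (Sum.inr x)) =
      (e x.1.1 - e (π x).1.1) + ∑ v ∈ univ.filter (fun v => ins v = x), cc e 2 v.1 := by
  rw [a1B_inr, ch, Finset.sum_union, Finset.sum_union, Finset.sum_singleton,
    Finset.sum_singleton, a1S, Finset.sum_map]
  · have ha : cc e 2 (x.1.1, true, x.2) = e x.1.1 := by simp [cc]
    have hb : cc e 2 ((π x).1.1, false, (π x).2) = - e (π x).1.1 := by simp [cc]
    exact congrArg₂ (fun u v : ℤ => u + v) (by rw [ha, hb, sub_eq_add_neg]) rfl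
  · simp
  · rw [Finset.disjoint_left]
    intro a ha hb
    have h1 := a1S_kd kd ins x hb
    simp only [mem_union, mem_singleton] at ha
    rcases ha with rfl | rfl
    · have h2 := x.1.2
      simp [h2] at h1
    · have h2 := (π x).1.2
      simp [h2] at h1

/-- PIECE `a1`. -/
theorem a1 (h1 : A1mS) (h2 : A1iS) (h3 : FpS) (hh : HatS) (hk : KjS) : A1S := by
  intro I _ _ kd e hne heq hpos hneg hz hsum hex
  -- counting
  have hcJ : Fintype.card (a1J kd) = (univ.filter (fun i => kd i = 2)).card :=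
    Fintype.card_subtype _
  have hcI : Fintype.card I = (univ.filter (fun i => kd i = 0)).card +
      (univ.filter (fun i => kd i = 1)).card + (univ.filter (fun i => kd i = 2)).card := by
    rw [Finset.card_filter, Finset.card_filter, Finset.card_filter, ← Finset.sum_add_distrib,
      ← Finset.sum_add_distrib, ← Finset.card_univ, Finset.card_eq_sum_ones]
    refine Finset.sum_congr rfl fun i _ => ?_
    generalize kd i = k
    fin_cases k <;> simp
  -- the permutation
  obtain ⟨π, hπ1, hπ2⟩ := h1 (a1J kd) (fun j => e j.1)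
    (by rw [a1_card_sub (fun i => kd i = 2) (fun i => 0 < e i), hcJ]; exact hpos)
    (by rw [a1_card_sub (fun i => kd i = 2) (fun i => e i < 0), hcJ]; exact hneg)
  rw [a1_card_sub (fun i => kd i = 2) (fun i => e i = 0), hcJ] at hπ2
  -- the loops
  have hb : ∀ v : a1V kd, cc e 2 v.1 ≠ 0 := by
    intro v
    have h4 := hne v.1.1 (by rw [v.2]; decide)
    simp only [cc]
    split_ifs
    · exact h4
    · exact neg_ne_zero.2 h4
  have hVp : (univ.filter (fun v : a1V kd => 0 < cc e 2 v.1)).card =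
      2 * (univ.filter (fun i => kd i = 1)).card := by
    rw [a1_card_sub (fun a : I × Bool × Fin 2 => kd a.1 = 1) (fun a => 0 < cc e 2 a),
      Finset.card_filter, a1_arcs, Finset.card_filter, Finset.mul_sum]
    refine Finset.sum_congr rfl fun i _ => ?_
    by_cases hi : kd i = 1
    · have h4 := hne i (by rw [hi]; decide)
      rcases lt_or_gt_of_ne h4 with h5 | h5
      · simp [cc, hi, h5, not_lt.2 h5.le]
      · simp [cc, hi, h5, not_lt.2 h5.le]
    · simp [hi]
  have hVn : (univ.filter (fun v : a1V kd => cc e 2 v.1 < 0)).card =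
      2 * (univ.filter (fun i => kd i = 1)).card := by
    rw [a1_card_sub (fun a : I × Bool × Fin 2 => kd a.1 = 1) (fun a => cc e 2 a < 0),
      Finset.card_filter, a1_arcs, Finset.card_filter, Finset.mul_sum]
    refine Finset.sum_congr rfl fun i _ => ?_
    by_cases hi : kd i = 1
    · have h4 := hne i (by rw [hi]; decide)
      rcases lt_or_gt_of_ne h4 with h5 | h5
      · simp [cc, hi, h5, not_lt.2 h5.le]
      · simp [cc, hi, h5, not_lt.2 h5.le]
    · simp [hi]
  have hJ : 0 < Fintype.card (a1J kd) := by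
    obtain ⟨i, hi⟩ := hex
    exact Fintype.card_pos_iff.2 ⟨⟨i, hi⟩⟩
  -- the insertion
  obtain ⟨ins, hi1, hi2⟩ := h2 (a1J kd × Fin 2) (a1V kd) (fun x => e x.1.1 - e (π x).1.1)
    (fun v => cc e 2 v.1) (2 * (univ.filter (fun i => kd i = 1)).card)
    (by rw [Fintype.card_prod, Fintype.card_fin]; omega)
    (by
      rw [Finset.sum_sub_distrib]
      rw [Equiv.sum_comp π (fun x : a1J kd × Fin 2 => e x.1.1), sub_self])
    hb hVp hVn
    (by
      have h4 : (univ.filter (fun x : a1J kd × Fin 2 => e x.1.1 - e (π x).1.1 = 0)) ⊆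
          (univ.filter (fun x : a1J kd × Fin 2 => e x.1.1 = 0 ∧ e (π x).1.1 = 0)) := by
        intro x hx
        simp only [mem_filter, mem_univ, true_and] at hx ⊢
        obtain ⟨h5, h6⟩ := hπ1 x
        constructor <;> · by_contra h7; omega
      have h5 := Finset.card_le_card h4
      have h6 : ((univ.filter (fun x : a1J kd × Fin 2 =>
          e x.1.1 = 0 ∧ e (π x).1.1 = 0)).card : ℤ) ≤
          2 * (2 * (univ.filter (fun i => kd i = 1)).card : ℕ) := by
        refine le_trans hπ2 (max_le (by positivity) ?_)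
        push_cast
        omega
      omega)
  -- the blocks
  refine a1_XX hh hk (cc e 2) _ _ _ _ ?_
  have hU : univ.biUnion (a1B kd π ins) = univ := by
    ext a
    simp [a1B]
  rw [← hU]
  have hne' : Nonempty (a1U kd ⊕ (a1J kd × Fin 2)) := by
    obtain ⟨i, hi⟩ := hex
    exact ⟨Sum.inr (⟨i, hi⟩, 0)⟩
  have htot : ∑ i, ch (cc e 2) (a1B kd π ins i) = 0 := by
    have h4 : ∑ i, ch (cc e 2) (a1B kd π ins i) = ∑ a, cc e 2 a := by
      simp only [ch, a1B]
      exact Finset.sum_fiberwise univ (a1blk kd π ins) (cc e 2)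
    rw [h4, a1_arcs]
    refine Finset.sum_eq_zero fun i _ => ?_
    simp [cc]
  refine h3 (I × Bool × Fin 2) (cc e 2) _ (a1_Tht_empty _ _ _ _ _) (a1_Tht_nn hh _ _ _ _ _)
    (a1U kd ⊕ (a1J kd × Fin 2)) (a1B kd π ins) ?_ ?_ ?_ htot ?_
  · intro i j hij
    rw [Finset.disjoint_left]
    intro a ha hb'
    simp only [a1B, mem_filter, mem_univ, true_and] at ha hb'
    exact hij (ha.symm.trans hb')
  · rintro (u | x)
    · rw [a1B_inl]
      exact a1_Tht_loop hh _ _ _ _ _ (by simp [aU, u.2])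
    · rw [a1B_inr]
      refine a1_Tht_pass hh _ _ _ _ _ _ ?_ ?_ ?_ ?_ ?_ ?_ ?_
      · simp [aP, x.1.2]
      · simp [aQ, (π x).1.2]
      · simp
      · intro a ha
        simp [aV, a1S_kd kd ins x ha]
      · intro ha
        have h4 := a1S_kd kd ins x ha
        have h5 := x.1.2
        simp [h5] at h4
      · intro ha
        have h4 := a1S_kd kd ins x ha
        have h5 := (π x).1.2
        simp [h5] at h4
      · intro a ha
        exact hb ⟨a, a1S_kd kd ins x ha⟩
  · rintro (u | x)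
    · rw [a1_ch_inl]
      have h4 := hne u.1.1 (by rw [u.2]; decide)
      simp only [cc]
      split_ifs
      · exact h4
      · exact neg_ne_zero.2 h4
    · rw [a1_ch_inr]
      exact hi1 x
  · have hcard : (Fintype.card (a1U kd ⊕ (a1J kd × Fin 2)) : ℤ) = 2 * Fintype.card I := by
      have h4 : Fintype.card (a1U kd) = 4 * (univ.filter (fun i => kd i = 0)).card := by
        rw [Fintype.card_subtype, Finset.card_filter, a1_arcs, Finset.card_filter,
          Finset.mul_sum]
        refine Finset.sum_congr rfl fun i _ => ?_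
        by_cases hi : kd i = 0 <;> simp [hi]
      rw [Fintype.card_sum, Fintype.card_prod, Fintype.card_fin, h4, hcJ, hcI]
      push_cast
      omega
    have habs : ∑ i, |ch (cc e 2) (a1B kd π ins i)| = 4 * ∑ i, |e i| := by
      rw [Fintype.sum_sum_type]
      simp only [a1_ch_inl, a1_ch_inr]
      rw [hi2]
      have h4 : ∑ x : a1J kd × Fin 2, |e x.1.1 - e (π x).1.1| =
          2 * ∑ x : a1J kd × Fin 2, |e x.1.1| := by
        have h5 : ∀ x : a1J kd × Fin 2, |e x.1.1 - e (π x).1.1| =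
            |e x.1.1| + |e (π x).1.1| := by
          intro x
          have h6 : ¬ (0 < e x.1.1 ∧ 0 < e (π x).1.1) := (hπ1 x).1
          have h7 : ¬ (e x.1.1 < 0 ∧ e (π x).1.1 < 0) := (hπ1 x).2
          simp only [abs_eq_max_neg]
          omega
        simp only [h5]
        rw [Finset.sum_add_distrib, Equiv.sum_comp π (fun x : a1J kd × Fin 2 => |e x.1.1|)]
        ring
      have h5 : ∑ x : a1J kd × Fin 2, |e x.1.1| = ∑ i, if kd i = 2 then 2 * |e i| else 0 := by
        rw [Fintype.sum_prod_type]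
        simp only [Fin.sum_univ_two, ← two_mul]
        exact a1_sum_sub (fun i => kd i = 2) (fun i => 2 * |e i|)
      have h6 : ∑ u : a1U kd, |cc e 2 u.1| = ∑ i, if kd i = 0 then 4 * |e i| else 0 := by
        rw [a1_sum_sub (fun a : I × Bool × Fin 2 => kd a.1 = 0) (fun a => |cc e 2 a|), a1_arcs]
        refine Finset.sum_congr rfl fun i _ => ?_
        by_cases hi : kd i = 0
        · simp only [hi, cc, if_true]; simp; ring
        · simp [hi]
      have h7 : ∑ u : a1V kd, |cc e 2 u.1| = ∑ i, if kd i = 1 then 4 * |e i| else 0 := by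
        rw [a1_sum_sub (fun a : I × Bool × Fin 2 => kd a.1 = 1) (fun a => |cc e 2 a|), a1_arcs]
        refine Finset.sum_congr rfl fun i _ => ?_
        by_cases hi : kd i = 1
        · simp only [hi, cc, if_true]; simp; ring
        · simp [hi]
      rw [h4, h5, h6, h7, Finset.mul_sum, Finset.mul_sum, ← Finset.sum_add_distrib,
        ← Finset.sum_add_distrib]
      refine Finset.sum_congr rfl fun i _ => ?_
      generalize kd i = k
      fin_cases k <;> first | (simp; done) | (simp; ring)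
    have hmax : 2 * ∑ i, max (ch (cc e 2) (a1B kd π ins i)) 0 =
        ∑ i, |ch (cc e 2) (a1B kd π ins i)| + ∑ i, ch (cc e 2) (a1B kd π ins i) := by
      rw [Finset.mul_sum, ← Finset.sum_add_distrib]
      refine Finset.sum_congr rfl fun i _ => ?_
      simp only [abs_eq_max_neg]
      omega
    rw [hcard]
    omega

end word

end Pool.MP_ef6aaf_al.EF
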