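import Pool.Agent.Lib.MP_ef6aaf_al.EF.QStm

/-!
MP_ef6aaf_al, piece `a1i` (helper92): distributing the loops over the passes.
-/

set_option autoImplicit false

namespace Pool.MP_ef6aaf_al.EF

open Finset

/-- A map of `S` into `P` which hits all elements of `Z`. -/
theorem a1i_map {X V : Type} [DecidableEq X] [DecidableEq V] (S : Finset V) (Z P : Finset X)
    (hZP : Z ⊆ P) (hP : P.Nonempty) (hc : Z.card ≤ S.card) :
    ∃ f : V → X, (∀ v ∈ S, f v ∈ P) ∧ ∀ z ∈ Z, ∃ v ∈ S, f v = z := by
  obtain ⟨S', hS', hcard⟩ := Finset.exists_subset_card_eq hc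
  let e : S' ≃ Z := Finset.equivOfCardEq hcard
  obtain ⟨p0, hp0⟩ := hP
  refine ⟨fun v => if h : v ∈ S' then ((e ⟨v, h⟩ : Z) : X) else p0, ?_, ?_⟩
  · intro v _
    by_cases h : v ∈ S'
    · simp only [h, dif_pos]
      exact hZP (e ⟨v, h⟩).2
    · simp only [h]
      exact hp0
  · intro z hz
    refine ⟨(e.symm ⟨z, hz⟩ : S'), hS' (e.symm ⟨z, hz⟩).2, ?_⟩
    have h : ((e.symm ⟨z, hz⟩ : S') : V) ∈ S' := (e.symm ⟨z, hz⟩).2
    simp only [h, dif_pos, Subtype.coe_eta, Equiv.apply_symm_apply]

/-- A finite integer family with sum zero and a nonzero member has members of both signs. -/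
theorem a1i_signs {X : Type} [Fintype X] (q : X → ℤ) (hq : ∑ x, q x = 0) (h : ∃ x, q x ≠ 0) :
    (∃ x, 0 < q x) ∧ ∃ x, q x < 0 := by
  obtain ⟨x0, hx0⟩ := h
  constructor
  · by_contra hn
    push Not at hn
    have : ∀ x ∈ (univ : Finset X), q x = 0 := by
      have h1 := (Finset.sum_eq_zero_iff_of_nonpos (s := univ) (f := q) (fun x _ => hn x)).1 hq
      exact h1
    exact hx0 (this x0 (mem_univ _))
  · by_contra hn
    push Not at hn
    have h1 := (Finset.sum_eq_zero_iff_of_nonneg (s := univ) (f := q) (fun x _ => hn x)).1 hq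
    exact hx0 (h1 x0 (mem_univ _))

theorem a1i : A1iS := by
  intro X V _ _ _ _ q b m hX hq hb hp hn hz
  classical
  -- split the zeros
  set Z0 : Finset X := univ.filter (fun x => q x = 0) with hZ0
  have hhalf : Z0.card / 2 ≤ Z0.card := Nat.div_le_self _ _
  obtain ⟨Zn, hZn, hZnc⟩ := Finset.exists_subset_card_eq hhalf
  set Zp : Finset X := Z0 \ Zn with hZp
  have hZpc : Zp.card = Z0.card - Z0.card / 2 := by
    rw [hZp, Finset.card_sdiff_of_subset hZn, hZnc]
  set Pp : Finset X := univ.filter (fun x => 0 < q x) ∪ Zp with hPp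
  set Pn : Finset X := univ.filter (fun x => q x < 0) ∪ Zn with hPn
  have hne : 2 ≤ Z0.card ∨ ∃ x, q x ≠ 0 := by
    by_cases h2 : 2 ≤ Z0.card
    · exact Or.inl h2
    · right
      by_contra hn'
      push Not at hn'
      have : Z0 = univ := by
        rw [hZ0]
        ext x
        simp [hn' x]
      rw [this, Finset.card_univ] at h2
      omega
  have hPpne : Pp.Nonempty := by
    rcases hne with h2 | h2
    · have : Zp.Nonempty := by
        rw [← Finset.card_pos, hZpc]; omega
      obtain ⟨x, hx⟩ := this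
      exact ⟨x, by rw [hPp, mem_union]; exact Or.inr hx⟩
    · obtain ⟨⟨x, hx⟩, -⟩ := a1i_signs q hq h2
      exact ⟨x, by rw [hPp, mem_union]; left; simp [hx]⟩
  have hPnne : Pn.Nonempty := by
    rcases hne with h2 | h2
    · have : Zn.Nonempty := by
        rw [← Finset.card_pos, hZnc]; omega
      obtain ⟨x, hx⟩ := this
      exact ⟨x, by rw [hPn, mem_union]; exact Or.inr hx⟩
    · obtain ⟨-, ⟨x, hx⟩⟩ := a1i_signs q hq h2
      exact ⟨x, by rw [hPn, mem_union]; left; simp [hx]⟩
  obtain ⟨f, hf1, hf2⟩ := a1i_map (univ.filter (fun v => 0 < b v)) Zp Pp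
    Finset.subset_union_right hPpne (by rw [hp, hZpc]; omega)
  obtain ⟨g, hg1, hg2⟩ := a1i_map (univ.filter (fun v => b v < 0)) Zn Pn
    Finset.subset_union_right hPnne (by rw [hn, hZnc]; omega)
  let ins : V → X := fun v => if 0 < b v then f v else g v
  have hinsp : ∀ v, 0 < b v → ins v = f v := fun v hv => by simp [ins, hv]
  have hinsn : ∀ v, b v < 0 → ins v = g v := fun v hv => by simp [ins, not_lt.2 hv.le]
  have hmemP : ∀ v, 0 < b v → ins v ∈ Pp := fun v hv => by
    rw [hinsp v hv]; exact hf1 v (by simp [hv])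
  have hmemN : ∀ v, b v < 0 → ins v ∈ Pn := fun v hv => by
    rw [hinsn v hv]; exact hg1 v (by simp [hv])
  have hdisj : ∀ x, x ∈ Pp → x ∈ Pn → False := by
    intro x h1 h2
    rw [hPp, mem_union] at h1
    rw [hPn, mem_union] at h2
    have hz0 : ∀ y, y ∈ Zp → q y = 0 := fun y hy => by
      have : y ∈ Z0 := (Finset.mem_sdiff.1 hy).1
      rw [hZ0] at this; exact (mem_filter.1 this).2
    have hz1 : ∀ y, y ∈ Zn → q y = 0 := fun y hy => by
      have : y ∈ Z0 := hZn hy
      rw [hZ0] at this; exact (mem_filter.1 this).2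
    rcases h1 with h1 | h1
    · have h1' := (mem_filter.1 h1).2
      rcases h2 with h2 | h2
      · have := (mem_filter.1 h2).2; omega
      · have := hz1 x h2; omega
    · rcases h2 with h2 | h2
      · have := (mem_filter.1 h2).2; have := hz0 x h1; omega
      · exact (Finset.mem_sdiff.1 h1).2 h2
  have hcover : ∀ x, x ∈ Pp ∨ x ∈ Pn := by
    intro x
    rw [hPp, hPn, mem_union, mem_union]
    rcases lt_trichotomy (q x) 0 with h | h | h
    · right; left; simp [h]
    · by_cases hx : x ∈ Zn
      · right; right; exact hx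
      · left; right
        rw [hZp, Finset.mem_sdiff]
        exact ⟨by rw [hZ0]; simp [h], hx⟩
    · left; left; simp [h]
  -- the key statement for each pass
  have key : ∀ x, q x + ∑ v ∈ univ.filter (fun v => ins v = x), b v ≠ 0 ∧
      |q x + ∑ v ∈ univ.filter (fun v => ins v = x), b v| =
        |q x| + ∑ v ∈ univ.filter (fun v => ins v = x), |b v| := by
    intro x
    rcases hcover x with hx | hx
    · -- positive pass
      have hpos : ∀ v ∈ univ.filter (fun v => ins v = x), 0 < b v := by
        intro v hv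
        rcases lt_or_gt_of_ne (hb v) with h | h
        · exfalso
          have h1 := hmemN v h
          rw [(mem_filter.1 hv).2] at h1
          exact hdisj x hx h1
        · exact h
      have hsum : 0 ≤ ∑ v ∈ univ.filter (fun v => ins v = x), b v :=
        Finset.sum_nonneg (fun v hv => (hpos v hv).le)
      have habs : ∑ v ∈ univ.filter (fun v => ins v = x), |b v| =
          ∑ v ∈ univ.filter (fun v => ins v = x), b v :=
        Finset.sum_congr rfl (fun v hv => abs_of_pos (hpos v hv))
      have hx' := hx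
      rw [hPp, mem_union] at hx'
      rcases hx' with hx' | hx'
      · have hqx : 0 < q x := (mem_filter.1 hx').2
        refine ⟨by omega, ?_⟩
        rw [habs, abs_of_pos hqx, abs_of_nonneg (by omega)]
      · have hqx : q x = 0 := by
          have h1 : x ∈ Z0 := (Finset.mem_sdiff.1 hx').1
          rw [hZ0] at h1; exact (mem_filter.1 h1).2
        obtain ⟨v, hv, hvx⟩ := hf2 x hx'
        have hbv : 0 < b v := (mem_filter.1 hv).2
        have hin : v ∈ univ.filter (fun v => ins v = x) := by
          rw [mem_filter]; exact ⟨mem_univ _, by rw [hinsp v hbv]; exact hvx⟩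
        have hsum' : 0 < ∑ v ∈ univ.filter (fun v => ins v = x), b v :=
          Finset.sum_pos' (fun v hv => (hpos v hv).le) ⟨v, hin, hbv⟩
        refine ⟨by omega, ?_⟩
        rw [habs, hqx, abs_zero, abs_of_nonneg (by omega)]
    · -- negative pass
      have hneg : ∀ v ∈ univ.filter (fun v => ins v = x), b v < 0 := by
        intro v hv
        rcases lt_or_gt_of_ne (hb v) with h | h
        · exact h
        · exfalso
          have h1 := hmemP v h
          rw [(mem_filter.1 hv).2] at h1
          exact hdisj x h1 hx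
      have hsum : ∑ v ∈ univ.filter (fun v => ins v = x), b v ≤ 0 :=
        Finset.sum_nonpos (fun v hv => (hneg v hv).le)
      have habs : ∑ v ∈ univ.filter (fun v => ins v = x), |b v| =
          - ∑ v ∈ univ.filter (fun v => ins v = x), b v := by
        rw [← Finset.sum_neg_distrib]
        exact Finset.sum_congr rfl (fun v hv => abs_of_neg (hneg v hv))
      have hx' := hx
      rw [hPn, mem_union] at hx'
      rcases hx' with hx' | hx'
      · have hqx : q x < 0 := (mem_filter.1 hx').2
        refine ⟨by omega, ?_⟩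
        rw [habs, abs_of_neg hqx, abs_of_nonpos (by omega)]
        ring
      · have hqx : q x = 0 := by
          have h1 : x ∈ Z0 := hZn hx'
          rw [hZ0] at h1; exact (mem_filter.1 h1).2
        obtain ⟨v, hv, hvx⟩ := hg2 x hx'
        have hbv : b v < 0 := (mem_filter.1 hv).2
        have hin : v ∈ univ.filter (fun v => ins v = x) := by
          rw [mem_filter]; exact ⟨mem_univ _, by rw [hinsn v hbv]; exact hvx⟩
        have hsum' : ∑ v ∈ univ.filter (fun v => ins v = x), b v < 0 :=
          Finset.sum_neg' (fun v hv => (hneg v hv).le) ⟨v, hin, hbv⟩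
        refine ⟨by omega, ?_⟩
        rw [habs, hqx, abs_zero, abs_of_nonpos (by omega)]
        ring
  refine ⟨ins, fun x => (key x).1, ?_⟩
  rw [Finset.sum_congr rfl (fun x _ => (key x).2), Finset.sum_add_distrib]
  congr 1
  exact Finset.sum_fiberwise univ ins (fun v => |b v|)

end Pool.MP_ef6aaf_al.EF
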