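import Pool.Agent.Lib.MP_ef6aaf_al.EF.QStm

/-!
MP_ef6aaf_al, positivity side: piece `a1m` (helper61).  A permutation of `J x Fin 2` from the
sorted list of the doubled values.
-/

set_option autoImplicit false

namespace Pool.MP_ef6aaf_al.EF

open Finset

/-- sorted enumeration of a finite type -/
theorem a1m_sort {X : Type} [Fintype X] [DecidableEq X] (N : ℕ) (hN : Fintype.card X = N)
    (f : X → ℤ) : ∃ σ : Fin N ≃ X, Monotone (fun i => f (σ i)) := by
  let g : Fin N ≃ X := (Fintype.equivFinOfCardEq hN).symm
  exact ⟨(Tuple.sort (f ∘ g)).trans g, Tuple.monotone_sort (f ∘ g)⟩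

/-- every value is doubled -/
theorem a1m_card {J : Type} [Fintype J] [DecidableEq J] (P : J → Prop) [DecidablePred P] :
    (univ.filter (fun x : J × Fin 2 => P x.1)).card = 2 * (univ.filter P).card := by
  have h : (univ.filter (fun x : J × Fin 2 => P x.1)) = (univ.filter P) ×ˢ (univ : Finset (Fin 2)) := by
    ext x
    simp
  rw [h, card_product, card_univ, Fintype.card_fin, mul_comm]

/-- counting through an equivalence -/
theorem a1m_count {X : Type} [Fintype X] {N : ℕ} (σ : Fin N ≃ X) (P : X → Prop)
    [DecidablePred P] :
    (univ.filter (fun i : Fin N => P (σ i))).card = (univ.filter P).card := by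
  refine Finset.card_bij (fun i _ => σ i) ?_ ?_ ?_
  · intro i hi
    simpa using hi
  · intro i _ j _ h
    exact σ.injective h
  · intro x hx
    refine ⟨σ.symm x, ?_, by simp⟩
    simpa using hx

/-- the number of indices at least `i` -/
theorem a1m_ge {N : ℕ} (i : Fin N) :
    (univ.filter (fun j : Fin N => i ≤ j)).card = N - i := by
  have : (univ.filter (fun j : Fin N => i ≤ j)) = Finset.Ici i := by
    ext j; simp
  rw [this, Fin.card_Ici]

/-- the number of indices larger than `i` -/
theorem a1m_gt {N : ℕ} (i : Fin N) :
    (univ.filter (fun j : Fin N => i < j)).card = N - 1 - i := by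
  have : (univ.filter (fun j : Fin N => i < j)) = Finset.Ioi i := by
    ext j; simp
  rw [this, Fin.card_Ioi]

/-- the number of indices at most `i` -/
theorem a1m_le {N : ℕ} (i : Fin N) :
    (univ.filter (fun j : Fin N => j ≤ i)).card = i + 1 := by
  have : (univ.filter (fun j : Fin N => j ≤ i)) = Finset.Iic i := by
    ext j; simp
  rw [this, Fin.card_Iic]

/-- the number of indices smaller than `i` -/
theorem a1m_lt {N : ℕ} (i : Fin N) :
    (univ.filter (fun j : Fin N => j < i)).card = i := by
  have : (univ.filter (fun j : Fin N => j < i)) = Finset.Iio i := by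
    ext j; simp
  rw [this, Fin.card_Iio]

/-- PIECE `a1m`. -/
theorem a1m : A1mS := by
  intro J _ _ e hpos hneg
  set n := Fintype.card J with hn
  have hN : Fintype.card (J × Fin 2) = n + n := by
    rw [Fintype.card_prod, Fintype.card_fin, ← hn]; ring
  obtain ⟨σ, hσ⟩ := a1m_sort (n + n) hN (fun x : J × Fin 2 => e x.1)
  set h : Fin (n + n) → ℤ := fun i => e (σ i).1 with hh
  have hmono : Monotone h := hσ
  have cp : (univ.filter (fun i : Fin (n + n) => 0 < h i)).card
      = 2 * (univ.filter (fun j => 0 < e j)).card := by
    rw [← a1m_card (fun j => 0 < e j)]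
    exact a1m_count σ (fun x : J × Fin 2 => 0 < e x.1)
  have cn : (univ.filter (fun i : Fin (n + n) => h i < 0)).card
      = 2 * (univ.filter (fun j => e j < 0)).card := by
    rw [← a1m_card (fun j => e j < 0)]
    exact a1m_count σ (fun x : J × Fin 2 => e x.1 < 0)
  set p := (univ.filter (fun j => e j < 0)).card with hp
  set q := (univ.filter (fun j => 0 < e j)).card with hq
  set z := (univ.filter (fun j => e j = 0)).card with hz
  -- total
  have htot : p + q + z = n := by
    have h1 : (univ : Finset J) = (univ.filter (fun j => e j < 0)) ∪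
        ((univ.filter (fun j => 0 < e j)) ∪ (univ.filter (fun j => e j = 0))) := by
      ext j
      simp only [mem_univ, mem_union, mem_filter, true_and, true_iff]
      omega
    have h2 : n = (univ : Finset J).card := by rw [card_univ]
    rw [h2, h1, card_union_of_disjoint, card_union_of_disjoint]
    · omega
    · rw [Finset.disjoint_left]
      intro a ha hb
      simp only [mem_filter, mem_univ, true_and] at ha hb
      omega
    · rw [Finset.disjoint_left]
      intro a ha hb
      simp only [mem_filter, mem_union, mem_univ, true_and] at ha hb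
      omega
  -- signs
  have hlo : ∀ a : Fin n, h (Fin.castAdd n a) ≤ 0 := by
    intro a
    by_contra hc
    push Not at hc
    have h1 : (univ.filter (fun j : Fin (n + n) => Fin.castAdd n a ≤ j)).card ≤
        (univ.filter (fun i : Fin (n + n) => 0 < h i)).card := by
      refine card_le_card fun j hj => ?_
      simp only [mem_filter, mem_univ, true_and] at hj ⊢
      exact lt_of_lt_of_le hc (hmono hj)
    rw [a1m_ge, cp] at h1
    have := a.isLt
    simp only [Fin.val_castAdd] at h1
    omega
  have hhi : ∀ a : Fin n, 0 ≤ h (Fin.natAdd n a) := by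
    intro a
    by_contra hc
    push Not at hc
    have h1 : (univ.filter (fun j : Fin (n + n) => j ≤ Fin.natAdd n a)).card ≤
        (univ.filter (fun i : Fin (n + n) => h i < 0)).card := by
      refine card_le_card fun j hj => ?_
      simp only [mem_filter, mem_univ, true_and] at hj ⊢
      exact lt_of_le_of_lt (hmono hj) hc
    rw [a1m_le, cn] at h1
    have := a.isLt
    simp only [Fin.val_natAdd] at h1
    omega
  -- zero pairs
  have hzz : ∀ a : Fin n, h (Fin.castAdd n a) = 0 → h (Fin.natAdd n a) = 0 →
      2 * p ≤ (a : ℕ) ∧ (a : ℕ) < n - 2 * q := by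
    intro a h1 h2
    constructor
    · have h3 : (univ.filter (fun i : Fin (n + n) => h i < 0)).card ≤
          (univ.filter (fun j : Fin (n + n) => j < Fin.castAdd n a)).card := by
        refine card_le_card fun j hj => ?_
        simp only [mem_filter, mem_univ, true_and] at hj ⊢
        by_contra hc
        have := hmono (not_lt.1 hc)
        omega
      rw [a1m_lt, cn] at h3
      simpa using h3
    · have h3 : (univ.filter (fun i : Fin (n + n) => 0 < h i)).card ≤
          (univ.filter (fun j : Fin (n + n) => Fin.natAdd n a < j)).card := by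
        refine card_le_card fun j hj => ?_
        simp only [mem_filter, mem_univ, true_and] at hj ⊢
        by_contra hc
        have := hmono (not_lt.1 hc)
        omega
      rw [a1m_gt, cp] at h3
      have := a.isLt
      simp only [Fin.val_natAdd] at h3
      omega
  -- the permutation
  let τ : Fin n ⊕ Fin n ≃ J × Fin 2 := finSumFinEquiv.trans σ
  let π : Equiv.Perm (J × Fin 2) := τ.symm.trans ((Equiv.sumComm (Fin n) (Fin n)).trans τ)
  have hτl : ∀ a : Fin n, e (τ (Sum.inl a)).1 = h (Fin.castAdd n a) := by
    intro a
    simp [τ, hh]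
  have hτr : ∀ a : Fin n, e (τ (Sum.inr a)).1 = h (Fin.natAdd n a) := by
    intro a
    simp [τ, hh]
  have hπ : ∀ y, π (τ y) = τ y.swap := by
    intro y
    simp [π]
  refine ⟨π, ?_, ?_⟩
  · intro x
    obtain ⟨y, rfl⟩ := τ.surjective x
    rw [hπ]
    rcases y with a | a
    · rw [Sum.swap_inl, hτl, hτr]
      have h1 := hlo a
      have h2 := hhi a
      omega
    · rw [Sum.swap_inr, hτl, hτr]
      have h1 := hlo a
      have h2 := hhi a
      omega
  · -- counting
    have h1 : (univ.filter (fun x : J × Fin 2 => e x.1 = 0 ∧ e (π x).1 = 0)).card ≤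
        (((univ.filter (fun a : Fin n => h (Fin.castAdd n a) = 0 ∧ h (Fin.natAdd n a) = 0)).disjSum
          (univ.filter (fun a : Fin n => h (Fin.castAdd n a) = 0 ∧ h (Fin.natAdd n a) = 0))).map
          τ.toEmbedding).card := by
      refine card_le_card fun x hx => ?_
      obtain ⟨y, rfl⟩ := τ.surjective x
      simp only [mem_filter, mem_univ, true_and, hπ] at hx
      rw [Finset.mem_map]
      refine ⟨y, ?_, rfl⟩
      rcases y with a | a
      · rw [Sum.swap_inl, hτl, hτr] at hx
        rw [Finset.inl_mem_disjSum]
        simpa using hx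
      · rw [Sum.swap_inr, hτl, hτr] at hx
        rw [Finset.inr_mem_disjSum]
        simpa using hx.symm
    rw [card_map, card_disjSum] at h1
    have h2 : (univ.filter (fun a : Fin n => h (Fin.castAdd n a) = 0 ∧
        h (Fin.natAdd n a) = 0)).card ≤ (Finset.Ico (2 * p) (n - 2 * q)).card := by
      refine Finset.card_le_card_of_injOn (fun a : Fin n => (a : ℕ)) ?_ ?_
      · intro a ha
        simp only [coe_filter, mem_univ, true_and, Set.mem_ofPred_eq] at ha
        have := hzz a ha.1 ha.2
        simp only [coe_Ico, Set.mem_Ico]
        exact this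
      · intro a _ b _ hab
        exact Fin.ext hab
    rw [Nat.card_Ico] at h2
    omega

end Pool.MP_ef6aaf_al.EF
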