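import Pool.Agent.Lib.MP_ef6aaf_al.EF.QStm

/-!
MP_ef6aaf_al, project EF, piece `cpn`: the companion matrix of `1 - f`.
-/

set_option autoImplicit false

namespace Pool.MP_ef6aaf_al.EF

open Finset Sq

namespace cpn

variable {A : Type} [DecidableEq A]

theorem ch_sdiff (c : A → ℤ) {S T : Finset A} (h : T ⊆ S) :
    ch c (S \ T) = ch c S - ch c T := by
  unfold ch
  have := Finset.sum_sdiff (f := c) h
  linarith

omit [DecidableEq A] in
theorem ch_empty (c : A → ℤ) : ch c ∅ = 0 := by simp [ch]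

omit [DecidableEq A] in
theorem co_cm (c : A → ℤ) (k : ℤ) (x : Sq A) (S : Finset A) :
    (cm c k x).co S = if ch c S = k then x.co S else 0 := rfl

omit [DecidableEq A] in
theorem of_pp (c : A → ℤ) (f : Sq A) (h : f = pp c f) (S : Finset A) (hS : ch c S ≤ 0) :
    f.co S = 0 := by
  rw [h]
  show (if 0 < ch c S then f.co S else 0) = 0
  rw [if_neg (not_lt.2 hS)]

/-- components of a product -/
theorem cm_mul (c : A → ℤ) (g x : Sq A) (hg : ∀ S, ch c S ≤ 0 → g.co S = 0)
    (hx : ∀ S, ch c S < 0 → x.co S = 0) (m : ℕ) :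
    cm c ((m : ℤ) + 1) (g * x) =
      ∑ k ∈ range (m + 1), cm c ((k : ℤ) + 1) g * cm c ((m - k : ℕ) : ℤ) x := by
  ext S
  rw [co_sum, co_cm]
  simp only [co_mul, co_cm]
  rw [Finset.sum_comm]
  by_cases hS : ch c S = m + 1
  · rw [if_pos hS]
    refine Finset.sum_congr rfl fun T hT => ?_
    have hT' := mem_powerset.1 hT
    have h1 := ch_sdiff c hT'
    by_cases h2 : ch c T ≤ 0
    · rw [hg T h2, zero_mul]
      symm
      refine Finset.sum_eq_zero fun k _ => ?_
      simp
    · by_cases h3 : ch c (S \ T) < 0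
      · rw [hx _ h3, mul_zero]
        symm
        refine Finset.sum_eq_zero fun k _ => ?_
        simp
      · obtain ⟨n, hn⟩ : ∃ n : ℕ, ch c T = n + 1 := ⟨(ch c T - 1).toNat, by omega⟩
        rw [Finset.sum_eq_single n]
        · rw [if_pos hn, if_pos]
          omega
        · intro k _ hk
          rw [if_neg, zero_mul]
          omega
        · intro hn'
          exfalso
          apply hn'
          rw [mem_range]
          omega
  · rw [if_neg hS]
    symm
    refine Finset.sum_eq_zero fun T hT => ?_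
    have hT' := mem_powerset.1 hT
    have h1 := ch_sdiff c hT'
    refine Finset.sum_eq_zero fun k hk => ?_
    have hk' := mem_range.1 hk
    by_cases h2 : ch c T = (k : ℤ) + 1
    · rw [if_neg (c := ch c (S \ T) = ((m - k : ℕ) : ℤ)), mul_zero]
      intro h3
      apply hS
      have : ((m - k : ℕ) : ℤ) = m - k := by omega
      omega
    · rw [if_neg h2, zero_mul]

/-! ### the resolvent -/

variable [Fintype A]

theorem F_eq (f : Sq A) (h0 : f.co ∅ = 0) : iv (1 - f) = 1 + f * iv (1 - f) := by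
  have h := mul_iv (x := 1 - f) (by simp [h0])
  rw [sub_mul, one_mul] at h
  exact sub_eq_iff_eq_add.1 h

theorem F_co (c : A → ℤ) (f : Sq A) (hf : ∀ S, ch c S ≤ 0 → f.co S = 0) (S : Finset A)
    (hS : ch c S ≤ 0) : (iv (1 - f)).co S = if S = ∅ then 1 else 0 := by
  have h0 : f.co ∅ = 0 := hf ∅ (by rw [ch_empty])
  induction S using Finset.strongInduction with
  | H S ih =>
    rw [F_eq f h0, co_add, co_one, co_mul]
    have : ∑ T ∈ S.powerset, f.co T * (iv (1 - f)).co (S \ T) = 0 := by
      refine Finset.sum_eq_zero fun T hT => ?_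
      have hT' := mem_powerset.1 hT
      have h1 := ch_sdiff c hT'
      by_cases h2 : ch c T ≤ 0
      · rw [hf T h2, zero_mul]
      · have hT0 : T ≠ ∅ := by
          rintro rfl
          exact h2 (by rw [ch_empty])
        have hss : S \ T ⊂ S := Finset.sdiff_ssubset hT' (Finset.nonempty_iff_ne_empty.2 hT0)
        rw [ih (S \ T) hss (by omega), if_neg, mul_zero]
        intro h3
        rw [h3, ch_empty] at h1
        omega
    rw [this, add_zero]

theorem F_neg (c : A → ℤ) (f : Sq A) (hf : ∀ S, ch c S ≤ 0 → f.co S = 0) (S : Finset A)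
    (hS : ch c S < 0) : (iv (1 - f)).co S = 0 := by
  rw [F_co c f hf S hS.le, if_neg]
  rintro rfl
  rw [ch_empty] at hS
  exact lt_irrefl _ hS

theorem F_zero (c : A → ℤ) (f : Sq A) (hf : ∀ S, ch c S ≤ 0 → f.co S = 0) :
    cm c 0 (iv (1 - f)) = 1 := by
  ext S
  rw [co_cm, co_one]
  split_ifs with h1 h2 h2
  · rw [F_co c f hf S h1.le, if_pos h2]
  · rw [F_co c f hf S h1.le, if_neg h2]
  · rw [h2, ch_empty] at h1
    exact absurd rfl h1
  · rfl

omit [Fintype A] in
theorem cm_one_succ (c : A → ℤ) (m : ℕ) : cm c ((m : ℤ) + 1) (1 : Sq A) = 0 := by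
  ext S
  rw [co_cm, co_one, co_zero]
  split_ifs with h1 h2
  · rw [h2, ch_empty] at h1
    omega
  · rfl
  · rfl

omit [DecidableEq A] [Fintype A] in
theorem cm_add (c : A → ℤ) (k : ℤ) (x y : Sq A) : cm c k (x + y) = cm c k x + cm c k y := by
  ext S
  simp only [co_cm, co_add]
  split_ifs <;> simp

/-- recursion for the components of `F` -/
theorem F_rec (c : A → ℤ) (f : Sq A) (hf : ∀ S, ch c S ≤ 0 → f.co S = 0) (m : ℕ) :
    cm c ((m : ℤ) + 1) (iv (1 - f)) =
      ∑ k ∈ range (m + 1), cm c ((k : ℤ) + 1) f * cm c ((m - k : ℕ) : ℤ) (iv (1 - f)) := by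
  have h0 : f.co ∅ = 0 := hf ∅ (by rw [ch_empty])
  conv_lhs => rw [F_eq f h0]
  rw [cm_add, cm_one_succ, zero_add, cm_mul c f _ hf (F_neg c f hf)]

/-! ### the charge derivation -/

/-- charge derivation -/
def kap (c : A → ℤ) (x : Sq A) : Sq A := ⟨fun S => (ch c S : ℚ) * x.co S⟩

theorem kap_eq (c : A → ℤ) (x : Sq A) : kap c x = ∑ a, (c a : ℚ) • dg {a} x := by
  ext S
  rw [co_sum]
  simp only [kap, dg, co_smul]
  have h : (ch c S : ℚ) = ∑ a, (c a : ℚ) * ((S ∩ {a}).card : ℚ) := by
    unfold ch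
    push_cast
    rw [← Finset.sum_subset (Finset.subset_univ S)]
    · refine Finset.sum_congr rfl fun a ha => ?_
      rw [Finset.inter_singleton_of_mem ha]
      simp
    · intro a _ ha
      rw [Finset.inter_singleton_of_notMem ha]
      simp
  rw [h, Finset.sum_mul]
  refine Finset.sum_congr rfl fun a _ => ?_
  ring

theorem kap_lg (c : A → ℤ) {x : Sq A} (hx : x.co ∅ = 1) : kap c (lg x) = iv x * kap c x := by
  rw [kap_eq, kap_eq, Finset.mul_sum]
  refine Finset.sum_congr rfl fun a _ => ?_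
  rw [dg_lg _ hx, mul_smul_comm]

omit [DecidableEq A] [Fintype A] in
theorem cm_kap (c : A → ℤ) (m : ℤ) (x : Sq A) : cm c m (kap c x) = (m : ℚ) • cm c m x := by
  ext S
  simp only [co_cm, kap, co_smul]
  split_ifs with h
  · rw [h]
  · rw [mul_zero]

theorem lg_neg (c : A → ℤ) (f : Sq A) (hf : ∀ S, ch c S ≤ 0 → f.co S = 0) (S : Finset A)
    (hS : ch c S ≤ 0) : (lg (iv (1 - f))).co S = 0 := by
  have h0 : f.co ∅ = 0 := hf ∅ (by rw [ch_empty])
  have h1 : (1 - f).co ∅ = 1 := by simp [h0]
  have hd : ∀ T : Finset A, ch c T ≤ 0 → (dg univ (iv (1 - f))).co T = 0 := by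
    intro T hT
    show ((T ∩ univ).card : ℚ) * (iv (1 - f)).co T = 0
    rw [F_co c f hf T hT]
    split_ifs with h
    · rw [h]; simp
    · rw [mul_zero]
  show (S.card : ℚ)⁻¹ * (iv (iv (1 - f)) * dg univ (iv (1 - f))).co S = 0
  rw [iv_iv h1, sub_mul, one_mul, co_sub, hd S hS, co_mul, Finset.sum_eq_zero, sub_zero, mul_zero]
  intro T hT
  have hT' := mem_powerset.1 hT
  have h2 := ch_sdiff c hT'
  by_cases h3 : ch c T ≤ 0
  · rw [hf T h3, zero_mul]
  · rw [hd _ (by omega), mul_zero]

/-- recursion for the components of `log F` -/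
theorem L_rec (c : A → ℤ) (f : Sq A) (hf : ∀ S, ch c S ≤ 0 → f.co S = 0) (m : ℕ) :
    (((m : ℚ) + 1)) • cm c ((m : ℤ) + 1) (iv (1 - f)) =
      ∑ k ∈ range (m + 1), (((k : ℚ) + 1) • cm c ((k : ℤ) + 1) (lg (iv (1 - f)))) *
        cm c ((m - k : ℕ) : ℤ) (iv (1 - f)) := by
  have h0 : f.co ∅ = 0 := hf ∅ (by rw [ch_empty])
  have h1 : (iv (1 - f)).co ∅ = 1 := iv_co_empty (by simp [h0])
  have h2 : kap c (lg (iv (1 - f))) * iv (1 - f) = kap c (iv (1 - f)) := by
    rw [kap_lg c h1, mul_assoc, mul_comm (kap c _), ← mul_assoc, iv_mul h1, one_mul]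
  have h3 := cm_mul c (kap c (lg (iv (1 - f)))) (iv (1 - f)) (fun S hS => by
    show (ch c S : ℚ) * (lg (iv (1 - f))).co S = 0
    rw [lg_neg c f hf S hS, mul_zero]) (F_neg c f hf) m
  rw [h2, cm_kap] at h3
  push_cast at h3 ⊢
  rw [h3]
  refine Finset.sum_congr rfl fun k _ => ?_
  rw [cm_kap]
  push_cast
  rfl

/-! ### the companion matrix -/

omit [Fintype A] in
theorem col0 (c : A → ℤ) (f : Sq A) (K : ℕ) (h0 : Fin K) (hh : (h0 : ℕ) = 0) (n : ℕ) :
    ∀ (m : ℕ) (j : Fin K), (j : ℕ) = n →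
      ((cmp c K f) ^ m) j h0 = if n ≤ m then ((cmp c K f) ^ (m - n)) h0 h0 else 0 := by
  induction n with
  | zero =>
    intro m j hj
    have : j = h0 := Fin.ext (by rw [hj, hh])
    rw [this, if_pos (Nat.zero_le _), Nat.sub_zero]
  | succ n ih =>
    intro m j hj
    cases m with
    | zero =>
      rw [pow_zero, Matrix.one_apply_ne, if_neg (by omega)]
      intro h
      rw [h, hh] at hj
      omega
    | succ m =>
      have hn : n < K := by have := j.2; omega
      rw [pow_succ', Matrix.mul_apply, Finset.sum_eq_single ⟨n, hn⟩]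
      · have h1 : cmp c K f j ⟨n, hn⟩ = 1 := by
          unfold cmp
          rw [if_neg (by omega), if_pos (by simp [hj])]
        rw [h1, one_mul, ih m ⟨n, hn⟩ rfl]
        by_cases h2 : n ≤ m
        · rw [if_pos h2, if_pos (by omega), Nat.add_sub_add_right]
        · rw [if_neg h2, if_neg (by omega)]
      · intro k _ hk
        have h1 : cmp c K f j k = 0 := by
          unfold cmp
          rw [if_neg (by omega), if_neg]
          intro h
          apply hk
          apply Fin.ext
          show (k : ℕ) = n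
          omega
        rw [h1, zero_mul]
      · intro h
        exact absurd (Finset.mem_univ _) h

theorem h_eq (c : A → ℤ) (f : Sq A) (K : ℕ) (hf : ∀ S, ch c S ≤ 0 → f.co S = 0)
    (hK : ∀ S : Finset A, ch c S < K) (h0 : Fin K) (hh : (h0 : ℕ) = 0) (m : ℕ) :
    ((cmp c K f) ^ m) h0 h0 = cm c m (iv (1 - f)) := by
  induction m using Nat.strong_induction_on with
  | _ m ih =>
    cases m with
    | zero =>
      rw [pow_zero, Matrix.one_apply_eq, Nat.cast_zero, F_zero c f hf]
    | succ m =>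
      push_cast
      rw [F_rec c f hf m, pow_succ', Matrix.mul_apply]
      have h1 : ∀ k : Fin K, cmp c K f h0 k * ((cmp c K f) ^ m) k h0 =
          (fun k : ℕ => if k ≤ m then cm c ((k : ℤ) + 1) f *
            cm c ((m - k : ℕ) : ℤ) (iv (1 - f)) else 0) k := by
        intro k
        rw [col0 c f K h0 hh k m k rfl]
        have h2 : cmp c K f h0 k = cm c ((k : ℤ) + 1) f := by
          unfold cmp
          rw [if_pos hh]
        rw [h2]
        show _ = if (k : ℕ) ≤ m then _ else _
        split_ifs with h3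
        · rw [ih (m - k) (by omega)]
        · rw [mul_zero]
      rw [Finset.sum_congr rfl fun k _ => h1 k,
        Fin.sum_univ_eq_sum_range (fun k : ℕ => if k ≤ m then cm c ((k : ℤ) + 1) f *
            cm c ((m - k : ℕ) : ℤ) (iv (1 - f)) else 0) K]
      have e1 : ∑ k ∈ range K, (if k ≤ m then cm c ((k : ℤ) + 1) f *
            cm c ((m - k : ℕ) : ℤ) (iv (1 - f)) else 0) =
          ∑ k ∈ range (K + (m + 1)), (if k ≤ m then cm c ((k : ℤ) + 1) f *
            cm c ((m - k : ℕ) : ℤ) (iv (1 - f)) else 0) := by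
        refine Finset.sum_subset (Finset.range_subset_range.2 (by omega)) ?_
        intro k _ hk
        have hk' : K ≤ k := by simpa using hk
        have : cm c ((k : ℤ) + 1) f = 0 := by
          ext S
          rw [co_cm, if_neg, co_zero]
          have := hK S
          omega
        rw [this, zero_mul, ite_self]
      have e2 : ∑ k ∈ range (m + 1), (if k ≤ m then cm c ((k : ℤ) + 1) f *
            cm c ((m - k : ℕ) : ℤ) (iv (1 - f)) else 0) =
          ∑ k ∈ range (K + (m + 1)), (if k ≤ m then cm c ((k : ℤ) + 1) f *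
            cm c ((m - k : ℕ) : ℤ) (iv (1 - f)) else 0) := by
        refine Finset.sum_subset (Finset.range_subset_range.2 (by omega)) ?_
        intro k _ hk
        have hk' : ¬ k < m + 1 := by simpa using hk
        rw [if_neg (by omega)]
      rw [e1, ← e2]
      refine Finset.sum_congr rfl fun k hk => ?_
      rw [if_pos]
      have := mem_range.1 hk
      omega

omit [Fintype A] in
theorem kill_low (c : A → ℤ) (f : Sq A) (K : ℕ) (h0 : Fin K) (hh : (h0 : ℕ) = 0) (m : ℕ) :
    ∀ i j : Fin K, (i : ℕ) ≠ j + m →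
      ((Pool.Agent.EF.kill (cmp c K f) h0) ^ m) i j = 0 := by
  induction m with
  | zero =>
    intro i j hij
    rw [pow_zero, Matrix.one_apply_ne]
    intro h
    exact hij (by rw [h, add_zero])
  | succ m ih =>
    intro i j hij
    rw [pow_succ', Matrix.mul_apply]
    refine Finset.sum_eq_zero fun k _ => ?_
    by_cases hk : (k : ℕ) = j + m
    · have : Pool.Agent.EF.kill (cmp c K f) h0 i k = 0 := by
        unfold Pool.Agent.EF.kill
        split_ifs with h
        · rfl
        · have hi : (i : ℕ) ≠ 0 := by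
            intro h'
            exact h (Or.inl (Fin.ext (by rw [h', hh])))
          unfold cmp
          rw [if_neg hi, if_neg (by omega)]
      rw [this, zero_mul]
    · rw [ih k j hk, mul_zero]

theorem tr_eq (c : A → ℤ) (f : Sq A) (K : ℕ) (hf : ∀ S, ch c S ≤ 0 → f.co S = 0)
    (hK : ∀ S : Finset A, ch c S < K) (h0 : Fin K) (hh : (h0 : ℕ) = 0) (m : ℕ) :
    ((cmp c K f) ^ (m + 1)).trace =
      ((m : ℚ) + 1) • cm c ((m : ℤ) + 1) (lg (iv (1 - f))) := by
  induction m using Nat.strong_induction_on with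
  | _ m ih =>
    have hb := Pool.Agent.EF.block (cmp c K f) h0 (m + 1)
    have hL := L_rec c f hf m
    have hz : ∀ j, ((Pool.Agent.EF.kill (cmp c K f) h0) ^ (j + 1)).trace = 0 := by
      intro j
      refine Finset.sum_eq_zero fun i _ => ?_
      exact kill_low c f K h0 hh (j + 1) i i (by omega)
    have hs : ((m + 1 : ℕ) : Sq A) * cm c ((m : ℤ) + 1) (iv (1 - f)) =
        ((m : ℚ) + 1) • cm c ((m : ℤ) + 1) (iv (1 - f)) := by
      rw [← nsmul_eq_mul, ← Nat.cast_smul_eq_nsmul ℚ]
      push_cast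
      rfl
    rw [h_eq c f K hf hK h0 hh (m + 1)] at hb
    push_cast at hb hs
    rw [hs, hL, Finset.sum_range_succ, Finset.sum_range_succ] at hb
    have hc : ∑ x ∈ range m, (((x : ℚ) + 1) • cm c ((x : ℤ) + 1) (lg (iv (1 - f)))) *
        cm c ((m - x : ℕ) : ℤ) (iv (1 - f)) =
        ∑ x ∈ range m, (((cmp c K f) ^ (x + 1)).trace -
          ((Pool.Agent.EF.kill (cmp c K f) h0) ^ (x + 1)).trace) *
            ((cmp c K f) ^ (m + 1 - 1 - x)) h0 h0 := by
      refine Finset.sum_congr rfl fun x hx => ?_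
      have hx' := mem_range.1 hx
      rw [hz x, sub_zero, ih x hx', h_eq c f K hf hK h0 hh]
      rfl
    rw [hc] at hb
    have hb' := add_left_cancel hb
    rw [Nat.sub_self, Nat.cast_zero, F_zero c f hf, mul_one, hz m, sub_zero, pow_zero,
      Matrix.one_apply_eq, mul_one] at hb'
    exact hb'.symm

end cpn

/-- PIECE `cpn`. -/
theorem cpn : CpnS := by
  intro A _ _ c f K hf hK _ h0 hh m
  have hf' : ∀ S, ch c S ≤ 0 → f.co S = 0 := cpn.of_pp c f hf
  refine ⟨cpn.h_eq c f K hf' hK h0 hh m, fun hm => ?_⟩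
  obtain ⟨n, rfl⟩ : ∃ n, m = n + 1 := ⟨m - 1, by omega⟩
  rw [cpn.tr_eq c f K hf' hK h0 hh n]
  push_cast
  rfl

end Pool.MP_ef6aaf_al.EF
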