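import Pool.Agent.Lib.MP_ef6aaf_al.EF.QStm

/-!
MP_ef6aaf_al, project EF, piece `exa`: the exponential formula `G = exp N` for compatible
permutations.
-/

set_option autoImplicit false
set_option linter.unusedSectionVars false

namespace Pool.MP_ef6aaf_al.EF

open Finset
open Sq

section

variable {A : Type} [DecidableEq A] [Fintype A]

theorem exa_mem_cps {t h : A → Bool} {S : Finset A} {θ : Equiv.Perm A} :
    θ ∈ cps t h S ↔ (∀ a, a ∉ S → θ a = a) ∧ ∀ a ∈ S, t (θ a) = h a := by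
  classical
  unfold cps
  simp

theorem exa_mem_cys {t h : A → Bool} {S : Finset A} {θ : Equiv.Perm A} :
    θ ∈ cys t h S ↔ θ ∈ cps t h S ∧ S.Nonempty ∧ ∀ a ∈ S, ∀ b ∈ S, θ.SameCycle a b := by
  classical
  unfold cys
  simp

/-- a permutation fixing all points outside `S` maps `S` to `S` -/
theorem exa_maps {S : Finset A} {θ : Equiv.Perm A} (h : ∀ a, a ∉ S → θ a = a) {a : A}
    (ha : a ∈ S) : θ a ∈ S := by
  by_contra hn
  have h1 := h _ hn
  have h2 := θ.injective h1
  rw [h2] at hn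
  exact hn ha

theorem exa_agree {T : Finset A} {σ θ : Equiv.Perm A} (h1 : ∀ b ∈ T, σ b = θ b)
    (h2 : ∀ b ∈ T, θ b ∈ T) (n : ℕ) : ∀ a ∈ T, (σ ^ n) a = (θ ^ n) a ∧ (θ ^ n) a ∈ T := by
  induction n with
  | zero => intro a ha; simp [ha]
  | succ n ih =>
    intro a ha
    obtain ⟨e1, e2⟩ := ih a ha
    rw [pow_succ', pow_succ', Equiv.Perm.mul_apply, Equiv.Perm.mul_apply, e1]
    exact ⟨h1 _ e2, h2 _ e2⟩

theorem exa_sc_pow {θ : Equiv.Perm A} {a b : A} :
    θ.SameCycle a b ↔ ∃ n : ℕ, (θ ^ n) a = b := by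
  constructor
  · intro h
    obtain ⟨n, _, _, hn⟩ := h.exists_pow_eq''
    exact ⟨n, hn⟩
  · rintro ⟨n, hn⟩
    exact ⟨n, by simpa using hn⟩

theorem exa_sc_agree {T : Finset A} {σ θ : Equiv.Perm A} (h1 : ∀ b ∈ T, σ b = θ b)
    (h2 : ∀ b ∈ T, θ b ∈ T) {a b : A} (ha : a ∈ T) : σ.SameCycle a b ↔ θ.SameCycle a b := by
  rw [exa_sc_pow, exa_sc_pow]
  constructor
  · rintro ⟨n, hn⟩
    exact ⟨n, by rw [← (exa_agree h1 h2 n a ha).1, hn]⟩
  · rintro ⟨n, hn⟩
    exact ⟨n, by rw [(exa_agree h1 h2 n a ha).1, hn]⟩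

theorem exa_sc_mem {T : Finset A} {θ : Equiv.Perm A} (h2 : ∀ b ∈ T, θ b ∈ T) {a b : A}
    (ha : a ∈ T) (h : θ.SameCycle a b) : b ∈ T := by
  obtain ⟨n, hn⟩ := exa_sc_pow.1 h
  rw [← hn]
  exact (exa_agree (σ := θ) (fun _ _ => rfl) h2 n a ha).2

/-- the orbit of `a` -/
noncomputable def exa_orb (θ : Equiv.Perm A) (a : A) : Finset A := by
  classical
  exact univ.filter (fun b => θ.SameCycle a b)

theorem exa_mem_orb {θ : Equiv.Perm A} {a b : A} : b ∈ exa_orb θ a ↔ θ.SameCycle a b := by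
  classical
  unfold exa_orb
  simp

theorem exa_fiber (t h : A → Bool) {S T : Finset A} (hT : T ⊆ S) {a : A} (ha : a ∈ T) :
    ((cps t h S).filter (fun θ => exa_orb θ a = T)).card =
      (cys t h T).card * (cps t h (S \ T)).card := by
  classical
  rw [← Finset.card_product]
  symm
  refine Finset.card_bij (fun p _ => p.1 * p.2) ?_ ?_ ?_
  · rintro ⟨σ, τ⟩ hp
    rw [Finset.mem_product] at hp
    obtain ⟨hσ, hτ⟩ := hp
    rw [exa_mem_cys, exa_mem_cps] at hσ
    obtain ⟨⟨s1, s2⟩, _, s3⟩ := hσ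
    rw [exa_mem_cps] at hτ
    obtain ⟨t1, t2⟩ := hτ
    have e1 : ∀ b ∈ T, (σ * τ) b = σ b := by
      intro b hb
      rw [Equiv.Perm.mul_apply, t1 b (by simp [hb])]
    have e2 : ∀ b, b ∉ T → (σ * τ) b = τ b := by
      intro b hb
      rw [Equiv.Perm.mul_apply]
      by_cases hbS : b ∈ S
      · have h1 : τ b ∈ S \ T := exa_maps t1 (by simp [hb, hbS])
        exact s1 _ (Finset.mem_sdiff.1 h1).2
      · rw [t1 b (by simp [hbS])]
        exact s1 b hb
    have e3 : ∀ b ∈ T, (σ * τ) b ∈ T := by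
      intro b hb
      rw [e1 b hb]
      exact exa_maps s1 hb
    rw [Finset.mem_filter, exa_mem_cps]
    refine ⟨⟨?_, ?_⟩, ?_⟩
    · intro b hb
      have hbT : b ∉ T := fun h' => hb (hT h')
      show (σ * τ) b = b
      rw [e2 b hbT]
      exact t1 b (by simp [hb])
    · intro b hb
      show t ((σ * τ) b) = h b
      by_cases hbT : b ∈ T
      · rw [e1 b hbT]; exact s2 b hbT
      · rw [e2 b hbT]; exact t2 b (by simp [hb, hbT])
    · ext b
      rw [exa_mem_orb]
      show (σ * τ).SameCycle a b ↔ b ∈ T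
      constructor
      · intro h'
        exact exa_sc_mem e3 ha h'
      · intro hb
        exact (exa_sc_agree (fun b hb => (e1 b hb).symm) e3 ha).1 (s3 a ha b hb)
  · rintro ⟨σ, τ⟩ hp ⟨σ', τ'⟩ hp' heq
    rw [Finset.mem_product] at hp hp'
    obtain ⟨hσ, hτ⟩ := hp
    obtain ⟨hσ', hτ'⟩ := hp'
    rw [exa_mem_cys, exa_mem_cps] at hσ hσ'
    rw [exa_mem_cps] at hτ hτ'
    have heq' : σ * τ = σ' * τ' := heq
    have h1 : σ = σ' := by
      ext b
      by_cases hb : b ∈ T
      · have h2 := congrArg (fun f : Equiv.Perm A => f b) heq'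
        simp only [Equiv.Perm.mul_apply] at h2
        rw [hτ.1 b (by simp [hb]), hτ'.1 b (by simp [hb])] at h2
        exact h2
      · rw [hσ.1.1 b hb, hσ'.1.1 b hb]
    subst h1
    have h2 : τ = τ' := mul_left_cancel heq'
    subst h2
    rfl
  · intro θ hθ
    rw [Finset.mem_filter, exa_mem_cps] at hθ
    obtain ⟨⟨g1, g2⟩, g3⟩ := hθ
    have hm : ∀ b, b ∈ T ↔ θ.SameCycle a b := by
      intro b
      rw [← g3, exa_mem_orb]
    have c1 : ∀ b ∈ T, (θ.cycleOf a) b = θ b := by
      intro b hb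
      rw [Equiv.Perm.cycleOf_apply, if_pos ((hm b).1 hb)]
    have c2 : ∀ b, b ∉ T → (θ.cycleOf a) b = b := by
      intro b hb
      rw [Equiv.Perm.cycleOf_apply, if_neg (fun h' => hb ((hm b).2 h'))]
    have c3 : ∀ b ∈ T, θ b ∈ T := by
      intro b hb
      rw [hm] at hb ⊢
      exact hb.trans (Equiv.Perm.sameCycle_apply_right.2 (Equiv.Perm.SameCycle.refl _ _))
    have c4 : ∀ b, b ∉ T → θ b ∉ T := by
      intro b hb hb'
      apply hb
      rw [hm] at hb' ⊢
      exact Equiv.Perm.sameCycle_apply_right.1 hb'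
    have d1 : ∀ b ∈ T, ((θ.cycleOf a)⁻¹ * θ) b = b := by
      intro b hb
      rw [Equiv.Perm.mul_apply, Equiv.Perm.inv_eq_iff_eq, c1 b hb]
    have d2 : ∀ b, b ∉ T → ((θ.cycleOf a)⁻¹ * θ) b = θ b := by
      intro b hb
      rw [Equiv.Perm.mul_apply, Equiv.Perm.inv_eq_iff_eq, c2 _ (c4 b hb)]
    refine ⟨(θ.cycleOf a, (θ.cycleOf a)⁻¹ * θ), ?_, ?_⟩
    · rw [Finset.mem_product]
      refine ⟨?_, ?_⟩
      · rw [exa_mem_cys, exa_mem_cps]
        refine ⟨⟨c2, ?_⟩, ⟨a, ha⟩, ?_⟩
        · intro b hb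
          show t ((θ.cycleOf a) b) = h b
          rw [c1 b hb]
          exact g2 b (hT hb)
        · intro b hb c hc
          refine (exa_sc_agree c1 c3 hb).2 ?_
          exact ((hm b).1 hb).symm.trans ((hm c).1 hc)
      · rw [exa_mem_cps]
        refine ⟨?_, ?_⟩
        · intro b hb
          show ((θ.cycleOf a)⁻¹ * θ) b = b
          by_cases hbT : b ∈ T
          · exact d1 b hbT
          · rw [d2 b hbT]
            refine g1 b fun hbS => hb ?_
            simp [hbS, hbT]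
        · intro b hb
          rw [Finset.mem_sdiff] at hb
          show t (((θ.cycleOf a)⁻¹ * θ) b) = h b
          rw [d2 b hb.2]
          exact g2 b hb.1
    · show θ.cycleOf a * ((θ.cycleOf a)⁻¹ * θ) = θ
      rw [mul_inv_cancel_left]

theorem exa_orb_sub {t h : A → Bool} {S : Finset A} {θ : Equiv.Perm A} (hθ : θ ∈ cps t h S)
    {a : A} (ha : a ∈ S) : exa_orb θ a ⊆ S := by
  intro b hb
  rw [exa_mem_orb] at hb
  rw [exa_mem_cps] at hθ
  exact exa_sc_mem (fun b hb => exa_maps hθ.1 hb) ha hb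

theorem exa_count (t h : A → Bool) (S : Finset A) :
    S.card * (cps t h S).card =
      ∑ T ∈ S.powerset, T.card * (cys t h T).card * (cps t h (S \ T)).card := by
  classical
  have h1 : ∀ a ∈ S, (cps t h S).card = ∑ T ∈ S.powerset,
      if a ∈ T then (cys t h T).card * (cps t h (S \ T)).card else 0 := by
    intro a ha
    rw [Finset.card_eq_sum_card_fiberwise (f := fun θ => exa_orb θ a) (t := S.powerset)]
    · refine Finset.sum_congr rfl fun T hT => ?_
      rw [Finset.mem_powerset] at hT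
      split_ifs with haT
      · exact exa_fiber t h hT haT
      · rw [Finset.card_eq_zero, Finset.filter_eq_empty_iff]
        intro θ _ he
        apply haT
        rw [← he, exa_mem_orb]
    · intro θ hθ
      have := exa_orb_sub (Finset.mem_coe.1 hθ) ha
      simpa using this
  calc S.card * (cps t h S).card = ∑ a ∈ S, (cps t h S).card := by
        rw [Finset.sum_const, smul_eq_mul]
    _ = ∑ a ∈ S, ∑ T ∈ S.powerset,
          if a ∈ T then (cys t h T).card * (cps t h (S \ T)).card else 0 :=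
        Finset.sum_congr rfl h1
    _ = ∑ T ∈ S.powerset, ∑ a ∈ S,
          if a ∈ T then (cys t h T).card * (cps t h (S \ T)).card else 0 := Finset.sum_comm
    _ = ∑ T ∈ S.powerset, T.card * (cys t h T).card * (cps t h (S \ T)).card := by
        refine Finset.sum_congr rfl fun T hT => ?_
        rw [Finset.mem_powerset] at hT
        rw [← Finset.sum_filter, Finset.sum_const, smul_eq_mul, Finset.filter_mem_eq_inter,
          Finset.inter_eq_right.2 hT, mul_assoc]

theorem exa_dg (t h : A → Bool) : dg univ (GG t h) = dg univ (NN t h) * GG t h := by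
  ext S
  rw [co_mul]
  have h1 := congrArg (fun n : ℕ => (n : ℚ)) (exa_count t h S)
  simp only [Nat.cast_mul, Nat.cast_sum] at h1
  simp only [dg, GG, NN, inter_univ]
  exact h1

theorem exa_G0 (t h : A → Bool) : (GG t h).co ∅ = 1 := by
  have h1 : cps t h (∅ : Finset A) = {1} := by
    ext θ
    rw [exa_mem_cps, Finset.mem_singleton]
    constructor
    · rintro ⟨h1, _⟩
      ext a
      simpa using h1 a (by simp)
    · rintro rfl
      simp
  show ((cps t h (∅ : Finset A)).card : ℚ) = 1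
  rw [h1]; simp

theorem exa_N0 (t h : A → Bool) : (NN t h).co ∅ = 0 := by
  have h1 : cys t h (∅ : Finset A) = ∅ := by
    ext θ
    rw [exa_mem_cys]
    simp
  show ((cys t h (∅ : Finset A)).card : ℚ) = 0
  rw [h1]; simp

end

/-- PIECE `exa` -/
theorem exa : ExaS := by
  intro A _ _ t h
  have hN : (NN t h).co ∅ = 0 := exa_N0 t h
  have h1 : GG t h * ex (-(NN t h)) = 1 := by
    apply eq_one_of_dg_eq_zero
    · rw [dg_mul, dg_ex _ (by simp [hN]), dg_neg, exa_dg]
      ring
    · rw [co_mul_empty, ex_co_empty (by simp [hN]), exa_G0, one_mul]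
  calc GG t h = GG t h * (ex (NN t h) * ex (-(NN t h))) := by
        rw [ex_mul_ex_neg hN, mul_one]
    _ = (GG t h * ex (-(NN t h))) * ex (NN t h) := by ring
    _ = ex (NN t h) := by rw [h1, one_mul]

end Pool.MP_ef6aaf_al.EF
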