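import Pool.Agent.Lib.MP_ef6aaf_al.EF.QStm

set_option autoImplicit false

/-!
# MP_ef6aaf_al, piece `exb`: the number of type-compatible permutations
-/

namespace Pool.MP_ef6aaf_al.EF

open Finset Sq

namespace exb

/-- Number of the permutations with prescribed types. -/
theorem card_perm {X : Type} [DecidableEq X] [Fintype X] (t h : X → Bool) :
    (univ.filter (fun σ : Equiv.Perm X => ∀ a, t (σ a) = h a)).card =
      if (univ.filter (fun a => t a = true)).card = (univ.filter (fun a => h a = true)).card then
        ((univ.filter (fun a => h a = true)).card).factorial *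
        ((univ.filter (fun a => h a = false)).card).factorial else 0 := by
  split_ifs with hc
  · have hsum : ∀ f : X → Bool, (univ.filter (fun a => f a = true)).card +
        (univ.filter (fun a => f a = false)).card = Fintype.card X := by
      intro f
      have h1 := Finset.card_filter_add_card_filter_not (s := (univ : Finset X))
        (fun a => f a = true)
      have h2 : (univ.filter (fun a => ¬ f a = true)) = univ.filter (fun a => f a = false) := by
        ext a; simp
      rw [h2] at h1
      exact h1
    have hfib : ∀ x : Bool, Nonempty ({a // h a = x} ≃ {a // t a = x}) := by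
      intro x
      refine Fintype.card_eq.1 ?_
      rw [Fintype.card_subtype, Fintype.card_subtype]
      have h1 := hsum t
      have h2 := hsum h
      cases x
      · omega
      · exact hc.symm
    have e : ∀ x : Bool, {a // h a = x} ≃ {a // t a = x} := fun x => (hfib x).some
    obtain ⟨σ0, hσ0⟩ : ∃ σ0 : Equiv.Perm X, ∀ a, t (σ0 a) = h a :=
      ⟨Equiv.ofFiberEquiv e, Equiv.ofFiberEquiv_map e⟩
    have hbij : (univ.filter (fun σ : Equiv.Perm X => ∀ a, t (σ a) = h a)).card =
        Fintype.card {g : Equiv.Perm X // h ∘ g = h} := by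
      rw [Fintype.card_subtype]
      refine Finset.card_bij' (fun σ _ => σ0⁻¹ * σ) (fun τ _ => σ0 * τ) ?_ ?_ ?_ ?_
      · intro σ hσ
        rw [mem_filter] at hσ ⊢
        refine ⟨mem_univ _, ?_⟩
        funext a
        have h1 := hσ0 ((σ0⁻¹ * σ) a)
        have h2 : σ0 ((σ0⁻¹ * σ) a) = σ a := by
          rw [← Equiv.Perm.mul_apply, mul_inv_cancel_left]
        rw [h2, hσ.2 a] at h1
        exact h1.symm
      · intro τ hτ
        rw [mem_filter] at hτ ⊢
        refine ⟨mem_univ _, fun a => ?_⟩
        rw [Equiv.Perm.mul_apply, hσ0]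
        exact congrFun hτ.2 a
      · intro σ _
        exact mul_inv_cancel_left σ0 σ
      · intro τ _
        exact inv_mul_cancel_left σ0 τ
    have hst := DomMulAct.stabilizer_card (α := X) h
    rw [Fintype.prod_bool, Fintype.card_subtype (fun a => h a = true),
      Fintype.card_subtype (fun a => h a = false)] at hst
    rw [hbij, ← hst]
  · rw [Finset.card_eq_zero, Finset.filter_eq_empty_iff]
    intro σ _ hσ
    apply hc
    refine (Finset.card_bij (fun a _ => σ a) ?_ ?_ ?_).symm
    · intro a ha
      rw [mem_filter] at ha ⊢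
      exact ⟨mem_univ _, (hσ a).trans ha.2⟩
    · intro a _ b _ hab
      exact σ.injective hab
    · intro b hb
      rw [mem_filter] at hb
      refine ⟨σ.symm b, ?_, by simp⟩
      rw [mem_filter]
      refine ⟨mem_univ _, ?_⟩
      rw [← hσ, Equiv.apply_symm_apply]
      exact hb.2

variable {A : Type} [DecidableEq A] [Fintype A]

theorem card_cps (t h : A → Bool) (S : Finset A) :
    (cps t h S).card =
      (univ.filter (fun σ : Equiv.Perm {a // a ∈ S} => ∀ a, t (σ a) = h a)).card := by
  classical
  symm
  refine Finset.card_bij (fun σ _ => Equiv.Perm.ofSubtype σ) ?_ ?_ ?_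
  · intro σ hσ
    rw [mem_filter] at hσ
    unfold cps
    rw [mem_filter]
    refine ⟨mem_univ _, fun a ha => Equiv.Perm.ofSubtype_apply_of_not_mem σ ha, fun a ha => ?_⟩
    have h1 := hσ.2 ⟨a, ha⟩
    rw [Equiv.Perm.ofSubtype_apply_of_mem σ ha]
    exact h1
  · intro σ _ τ _ hστ
    exact Equiv.Perm.ofSubtype_injective hστ
  · intro θ hθ
    unfold cps at hθ
    rw [mem_filter] at hθ
    obtain ⟨-, h1, h2⟩ := hθ
    have hS : ∀ x, θ x ∈ S ↔ x ∈ S := by
      intro x
      constructor
      · intro h3
        by_contra h4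
        rw [h1 x h4] at h3
        exact h4 h3
      · intro h3
        by_contra h4
        have h5 := θ.injective (h1 (θ x) h4)
        rw [h5] at h4
        exact h4 h3
    refine ⟨θ.subtypePerm hS, ?_, Equiv.Perm.ofSubtype_subtypePerm hS ?_⟩
    · rw [mem_filter]
      exact ⟨mem_univ _, fun a => h2 a.1 a.2⟩
    · intro x hx
      by_contra h3
      exact hx (h1 x h3)

theorem card_sub (S : Finset A) (p : A → Prop) [DecidablePred p] :
    (univ.filter (fun a : {a // a ∈ S} => p a)).card = (S.filter p).card := by
  refine Finset.card_bij (fun a _ => a.1) ?_ ?_ ?_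
  · intro a ha
    rw [mem_filter] at ha ⊢
    exact ⟨a.2, ha.2⟩
  · intro a _ b _ hab
    exact Subtype.ext hab
  · intro b hb
    rw [mem_filter] at hb
    exact ⟨⟨b, hb.1⟩, by rw [mem_filter]; exact ⟨mem_univ _, hb.2⟩, rfl⟩

theorem card_t (t h : A → Bool) (S : Finset A) (x : Bool) :
    (S.filter (fun a => t a = x)).card =
      (S ∩ ty t h x true).card + (S ∩ ty t h x false).card := by
  rw [← Finset.card_union_of_disjoint]
  · congr 1
    ext a
    simp only [ty, mem_filter, mem_union, mem_inter, mem_univ, true_and]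
    cases h a <;> simp
  · rw [Finset.disjoint_left]
    intro a h1 h2
    simp only [ty, mem_filter, mem_inter, mem_univ, true_and] at h1 h2
    rw [h1.2.2] at h2
    exact absurd h2.2.2 (by decide)

theorem card_h (t h : A → Bool) (S : Finset A) (x : Bool) :
    (S.filter (fun a => h a = x)).card =
      (S ∩ ty t h true x).card + (S ∩ ty t h false x).card := by
  rw [← Finset.card_union_of_disjoint]
  · congr 1
    ext a
    simp only [ty, mem_filter, mem_union, mem_inter, mem_univ, true_and]
    cases t a <;> simp
  · rw [Finset.disjoint_left]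
    intro a h1 h2
    simp only [ty, mem_filter, mem_inter, mem_univ, true_and] at h1 h2
    rw [h1.2.1] at h2
    exact absurd h2.2.1 (by decide)

/-- the formula for the number of compatible permutations -/
def gm (i j a b : ℕ) : ℚ :=
  if a = b then ((i + a).factorial : ℚ) * ((j + a).factorial : ℚ) else 0

/-- the formula as a function of the set -/
def gs (t h : A → Bool) (S : Finset A) : ℚ :=
  gm (S ∩ ty t h true true).card (S ∩ ty t h false false).card
    (S ∩ ty t h false true).card (S ∩ ty t h true false).card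

theorem co_GG (t h : A → Bool) (S : Finset A) : (GG t h).co S = gs t h S := by
  show ((cps t h S).card : ℚ) = gs t h S
  rw [card_cps, card_perm (fun a : {a // a ∈ S} => t a) (fun a : {a // a ∈ S} => h a)]
  rw [card_sub S (fun a => t a = true), card_sub S (fun a => h a = true),
    card_sub S (fun a => h a = false), card_t t h S true, card_h t h S true, card_h t h S false]
  unfold gs gm
  by_cases hc : (S ∩ ty t h false true).card = (S ∩ ty t h true false).card
  · rw [if_pos (by omega), if_pos hc, ← hc]
    push_cast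
    rw [add_comm (S ∩ ty t h false true).card (S ∩ ty t h false false).card]
  · rw [if_neg (by omega), if_neg hc]
    norm_num

/-- multiplication by a sum of variables -/
theorem co_mul_va (x : Sq A) (P S : Finset A) :
    (x * va P).co S = ∑ a ∈ S ∩ P, x.co (S.erase a) := by
  have hinj : ∀ a ∈ S ∩ P, ∀ b ∈ S ∩ P, S.erase a = S.erase b → a = b := by
    intro a ha b hb hab
    by_contra hne
    have h1 : a ∈ S.erase b := Finset.mem_erase.2 ⟨hne, (Finset.mem_inter.1 ha).1⟩
    rw [← hab] at h1
    exact (Finset.notMem_erase a S) h1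
  rw [co_mul, ← Finset.sum_image (f := fun T => x.co T) (g := fun a => S.erase a) hinj]
  symm
  rw [← Finset.sum_subset (s₁ := (S ∩ P).image (fun a => S.erase a)) (s₂ := S.powerset)]
  · refine Finset.sum_congr rfl fun T hT => ?_
    obtain ⟨a, ha, rfl⟩ := Finset.mem_image.1 hT
    have ha' := Finset.mem_inter.1 ha
    have h1 : (va P).co (S \ S.erase a) = 1 := by
      show (if ∃ b ∈ P, S \ S.erase a = {b} then (1 : ℚ) else 0) = 1
      refine if_pos ⟨a, ha'.2, ?_⟩
      ext b
      simp only [mem_sdiff, mem_erase, mem_singleton, not_and]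
      constructor
      · rintro ⟨h1, h2⟩
        by_contra h3
        exact h2 h3 h1
      · rintro rfl
        exact ⟨ha'.1, fun h => absurd rfl h⟩
    rw [h1, mul_one]
  · intro T hT
    obtain ⟨a, _, rfl⟩ := Finset.mem_image.1 hT
    exact Finset.mem_powerset.2 (Finset.erase_subset _ _)
  · intro T hT hT'
    have h1 : (va P).co (S \ T) = 0 := by
      show (if ∃ b ∈ P, S \ T = {b} then (1 : ℚ) else 0) = 0
      rw [if_neg]
      rintro ⟨b, hb, hST⟩
      apply hT'
      have hTS := Finset.mem_powerset.1 hT
      have hbS : b ∈ S \ T := by rw [hST]; exact Finset.mem_singleton_self b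
      refine Finset.mem_image.2 ⟨b, Finset.mem_inter.2 ⟨(Finset.mem_sdiff.1 hbS).1, hb⟩, ?_⟩
      ext c
      rw [Finset.mem_erase]
      constructor
      · rintro ⟨h1, h2⟩
        by_contra h3
        have h4 : c ∈ S \ T := Finset.mem_sdiff.2 ⟨h2, h3⟩
        rw [hST, Finset.mem_singleton] at h4
        exact h1 h4
      · intro h1
        refine ⟨?_, hTS h1⟩
        rintro rfl
        exact (Finset.mem_sdiff.1 hbS).2 h1
    rw [h1, mul_zero]

theorem card_same {S P : Finset A} {a : A} (ha : a ∈ S ∩ P) :
    (S.erase a ∩ P).card = (S ∩ P).card - 1 := by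
  have h1 : S.erase a ∩ P = (S ∩ P).erase a := by
    ext b
    simp only [mem_inter, mem_erase]
    tauto
  rw [h1, Finset.card_erase_of_mem ha]

theorem card_diff {S P Q : Finset A} (hPQ : Disjoint P Q) {a : A} (ha : a ∈ S ∩ P) :
    (S.erase a ∩ Q).card = (S ∩ Q).card := by
  have h1 : S.erase a ∩ Q = S ∩ Q := by
    ext b
    simp only [mem_inter, mem_erase]
    constructor
    · rintro ⟨⟨_, h2⟩, h3⟩
      exact ⟨h2, h3⟩
    · rintro ⟨h2, h3⟩
      refine ⟨⟨?_, h2⟩, h3⟩
      rintro rfl
      exact (Finset.disjoint_left.1 hPQ) (Finset.mem_inter.1 ha).2 h3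
  rw [h1]

theorem ty_disj (t h : A → Bool) (x y x' y' : Bool) (hne : x ≠ x' ∨ y ≠ y') :
    Disjoint (ty t h x y) (ty t h x' y') := by
  rw [Finset.disjoint_left]
  intro a h1 h2
  simp only [ty, mem_filter, mem_univ, true_and] at h1 h2
  rcases hne with h3 | h3
  · exact h3 (h1.1.symm.trans h2.1)
  · exact h3 (h1.2.symm.trans h2.2)

theorem num (i j a b : ℕ) :
    gm i j a b - i * gm (i - 1) j a b - j * gm i (j - 1) a b + j * (i * gm (i - 1) (j - 1) a b) -
      b * (a * gm i j (a - 1) (b - 1)) = if i + j + a + b = 0 then 1 else 0 := by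
  by_cases hab : a = b
  · subst hab
    unfold gm
    simp only [if_true]
    rcases i with _ | i <;> rcases j with _ | j <;> rcases a with _ | a
    · simp
    · simp [Nat.factorial_succ]
      ring
    · simp [Nat.factorial_succ]
    · have h1 : j + 1 + (a + 1) = (j + a + 1) + 1 := by ring
      have h2 : j + (a + 1) = j + a + 1 := by ring
      have h3 : j + 1 + a = j + a + 1 := by ring
      simp [h1, h2, h3, Nat.factorial_succ]
      ring
    · simp [Nat.factorial_succ]
    · have h1 : i + 1 + (a + 1) = (i + a + 1) + 1 := by ring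
      have h2 : i + (a + 1) = i + a + 1 := by ring
      have h3 : i + 1 + a = i + a + 1 := by ring
      simp [h1, h2, h3, Nat.factorial_succ]
      ring
    · simp [Nat.factorial_succ]
      ring
    · have h1 : i + 1 + (a + 1) = (i + a + 1) + 1 := by ring
      have h2 : i + (a + 1) = i + a + 1 := by ring
      have h3 : i + 1 + a = i + a + 1 := by ring
      have h1' : j + 1 + (a + 1) = (j + a + 1) + 1 := by ring
      have h2' : j + (a + 1) = j + a + 1 := by ring
      have h3' : j + 1 + a = j + a + 1 := by ring
      simp [h1, h2, h3, h1', h2', h3', Nat.factorial_succ]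
      ring
  · have h0 : i + j + a + b ≠ 0 := by omega
    have h1 : (b : ℚ) * (a * gm i j (a - 1) (b - 1)) = 0 := by
      rcases a with _ | a
      · simp
      rcases b with _ | b
      · simp
      have h2 : ¬ (a + 1 - 1 = b + 1 - 1) := by omega
      unfold gm
      rw [if_neg h2]
      simp
    rw [h1, if_neg h0]
    unfold gm
    rw [if_neg hab, if_neg hab, if_neg hab, if_neg hab]
    ring

end exb

open exb in
/-- **piece exb** -/
theorem exb : ExbS := by
  intro A _ _ t h
  have duv := ty_disj t h true true false false (Or.inl (by decide))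
  have dua := ty_disj t h true true false true (Or.inl (by decide))
  have dub := ty_disj t h true true true false (Or.inr (by decide))
  have dva := ty_disj t h false false false true (Or.inr (by decide))
  have dvb := ty_disj t h false false true false (Or.inl (by decide))
  have dab := ty_disj t h false true true false (Or.inl (by decide))
  obtain ⟨U, hU⟩ : ∃ U, U = ty t h true true := ⟨_, rfl⟩
  obtain ⟨V, hV⟩ : ∃ V, V = ty t h false false := ⟨_, rfl⟩
  obtain ⟨P, hP⟩ : ∃ P, P = ty t h false true := ⟨_, rfl⟩
  obtain ⟨Q, hQ⟩ : ∃ Q, Q = ty t h true false := ⟨_, rfl⟩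
  have hG : ∀ S, (GG t h).co S = gm (S ∩ U).card (S ∩ V).card (S ∩ P).card (S ∩ Q).card := by
    intro S
    rw [co_GG, hU, hV, hP, hQ]
    rfl
  rw [← hU, ← hV] at duv
  rw [← hU, ← hP] at dua
  rw [← hU, ← hQ] at dub
  rw [← hV, ← hP] at dva
  rw [← hV, ← hQ] at dvb
  rw [← hP, ← hQ] at dab
  rw [← hU, ← hV, ← hP, ← hQ]
  have hGU : ∀ S, (GG t h * va U).co S =
      ((S ∩ U).card : ℚ) * gm ((S ∩ U).card - 1) (S ∩ V).card (S ∩ P).card (S ∩ Q).card := by
    intro S
    rw [co_mul_va, Finset.sum_congr rfl (g := fun _ =>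
      gm ((S ∩ U).card - 1) (S ∩ V).card (S ∩ P).card (S ∩ Q).card), Finset.sum_const,
      nsmul_eq_mul]
    intro a ha
    rw [hG, card_same ha, card_diff duv ha, card_diff dua ha, card_diff dub ha]
  have hGV : ∀ S, (GG t h * va V).co S =
      ((S ∩ V).card : ℚ) * gm (S ∩ U).card ((S ∩ V).card - 1) (S ∩ P).card (S ∩ Q).card := by
    intro S
    rw [co_mul_va, Finset.sum_congr rfl (g := fun _ =>
      gm (S ∩ U).card ((S ∩ V).card - 1) (S ∩ P).card (S ∩ Q).card), Finset.sum_const,
      nsmul_eq_mul]
    intro a ha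
    rw [hG, card_same ha, card_diff duv.symm ha, card_diff dva ha, card_diff dvb ha]
  have hGUV : ∀ S, (GG t h * va U * va V).co S =
      ((S ∩ V).card : ℚ) * (((S ∩ U).card : ℚ) *
        gm ((S ∩ U).card - 1) ((S ∩ V).card - 1) (S ∩ P).card (S ∩ Q).card) := by
    intro S
    rw [co_mul_va, Finset.sum_congr rfl (g := fun _ => ((S ∩ U).card : ℚ) *
      gm ((S ∩ U).card - 1) ((S ∩ V).card - 1) (S ∩ P).card (S ∩ Q).card), Finset.sum_const,
      nsmul_eq_mul]
    intro a ha
    rw [hGU, card_same ha, card_diff duv.symm ha, card_diff dva ha, card_diff dvb ha]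
  have hGP : ∀ S, (GG t h * va P).co S =
      ((S ∩ P).card : ℚ) * gm (S ∩ U).card (S ∩ V).card ((S ∩ P).card - 1) (S ∩ Q).card := by
    intro S
    rw [co_mul_va, Finset.sum_congr rfl (g := fun _ =>
      gm (S ∩ U).card (S ∩ V).card ((S ∩ P).card - 1) (S ∩ Q).card), Finset.sum_const,
      nsmul_eq_mul]
    intro a ha
    rw [hG, card_same ha, card_diff dua.symm ha, card_diff dva.symm ha, card_diff dab ha]
  have hGPQ : ∀ S, (GG t h * va P * va Q).co S =
      ((S ∩ Q).card : ℚ) * (((S ∩ P).card : ℚ) *
        gm (S ∩ U).card (S ∩ V).card ((S ∩ P).card - 1) ((S ∩ Q).card - 1)) := by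
    intro S
    rw [co_mul_va, Finset.sum_congr rfl (g := fun _ => ((S ∩ P).card : ℚ) *
      gm (S ∩ U).card (S ∩ V).card ((S ∩ P).card - 1) ((S ∩ Q).card - 1)), Finset.sum_const,
      nsmul_eq_mul]
    intro a ha
    rw [hGP, card_same ha, card_diff dub.symm ha, card_diff dvb.symm ha, card_diff dab.symm ha]
  have hring : GG t h * ((1 - va U) * (1 - va V) - va P * va Q) =
      GG t h - GG t h * va U - GG t h * va V + GG t h * va U * va V - GG t h * va P * va Q := by
    ring
  rw [hring]
  ext S
  have hcard : (S ∩ U).card + (S ∩ V).card + (S ∩ P).card + (S ∩ Q).card = S.card := by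
    have h1 := card_t t h S true
    have h2 := card_t t h S false
    have h3 := Finset.card_filter_add_card_filter_not (s := S) (fun a => t a = true)
    have h4 : (S.filter (fun a => ¬ t a = true)) = S.filter (fun a => t a = false) := by
      ext a; simp
    rw [h4] at h3
    rw [← hU, ← hQ] at h1
    rw [← hV, ← hP] at h2
    omega
  simp only [co_sub, co_add, hG, hGU, hGV, hGUV, hGPQ]
  rw [num, hcard, co_one]
  simp only [Finset.card_eq_zero]

end Pool.MP_ef6aaf_al.EF
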