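import Pool.Agent.Lib.MP_ef6aaf_al.EF.QStm

/-!
# MP_ef6aaf_al, EF: the exponential formula with orbit sums and matchings
-/

set_option autoImplicit false

namespace Pool.MP_ef6aaf_al.EF

open Finset Sq

namespace exc

/-! ## label preserving bijections -/

/-- number of label preserving bijections -/
noncomputable def Mm {α β : Type*} (f : α → ℤ) (g : β → ℤ) : ℕ :=
  Nat.card {e : α ≃ β // ∀ x, g (e x) = f x}

theorem Mm_congr {α β α' β' : Type*} (f : α → ℤ) (g : β → ℤ) (f' : α' → ℤ) (g' : β' → ℤ)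
    (e₁ : α ≃ α') (e₂ : β ≃ β') (h₁ : ∀ x, f' (e₁ x) = f x) (h₂ : ∀ x, g' (e₂ x) = g x) :
    Mm f g = Mm f' g' := by
  refine Nat.card_congr ((Equiv.equivCongr e₁ e₂).subtypeEquiv ?_)
  intro e
  constructor
  · intro h x
    have h3 := h₁ (e₁.symm x)
    rw [e₁.apply_symm_apply] at h3
    have h4 : (Equiv.equivCongr e₁ e₂) e x = e₂ (e (e₁.symm x)) := rfl
    rw [h4, h₂, h, h3]
  · intro h x
    have h3 := h (e₁ x)
    have h4 : (Equiv.equivCongr e₁ e₂) e (e₁ x) = e₂ (e x) := by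
      show e₂ (e (e₁.symm (e₁ x))) = _
      rw [e₁.symm_apply_apply]
    rw [h4, h₂, h₁] at h3
    exact h3

theorem Mm_symm {α β : Type*} (f : α → ℤ) (g : β → ℤ) : Mm f g = Mm g f := by
  refine Nat.card_congr ((Equiv.symmEquiv α β).subtypeEquiv ?_)
  intro e
  constructor
  · intro h x
    have h3 := h (e.symm x)
    rw [e.apply_symm_apply] at h3
    exact h3.symm
  · intro h x
    have h3 := h (e x)
    have h4 : (Equiv.symmEquiv α β) e (e x) = x := e.symm_apply_apply x
    rw [h4] at h3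
    exact h3.symm

theorem Mm_option {α β : Type*} [Fintype α] [Fintype β] [DecidableEq β] (f : Option α → ℤ)
    (g : β → ℤ) :
    Mm f g = ∑ b : β, if g b = f none then
      Mm (fun x : α => f (some x)) (fun y : {y : β // y ≠ b} => g y) else 0 := by
  classical
  have h1 : Mm f g = Nat.card (Σ b : β, {e : Option α ≃ β // e none = b ∧ ∀ x, g (e x) = f x}) := by
    refine Nat.card_congr ⟨fun e => ⟨e.1 none, e.1, rfl, e.2⟩, fun p => ⟨p.2.1, p.2.2.2⟩, ?_, ?_⟩
    · intro e; rfl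
    · rintro ⟨b, e, rfl, h⟩; rfl
  rw [h1, Nat.card_sigma]
  refine Finset.sum_congr rfl fun b _ => ?_
  split_ifs with hb
  · refine Nat.card_congr ?_
    refine (Equiv.subtypeSubtypeEquivSubtypeInter (fun e : Option α ≃ β => e none = b)
      (fun e => ∀ x, g (e x) = f x)).symm.trans ?_
    refine (Equiv.optionSubtype b).subtypeEquiv ?_
    intro e
    constructor
    · intro h x
      have h3 := h (some x)
      show g (((Equiv.optionSubtype b) e x : {y : β // y ≠ b}) : β) = f (some x)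
      rw [Equiv.coe_optionSubtype_apply_apply]
      exact h3
    · intro h x
      cases x with
      | none => rw [e.2, hb]
      | some x =>
        have h3 : g (((Equiv.optionSubtype b) e x : {y : β // y ≠ b}) : β) = f (some x) := h x
        rw [Equiv.coe_optionSubtype_apply_apply] at h3
        exact h3
  · have : IsEmpty {e : Option α ≃ β // e none = b ∧ ∀ x, g (e x) = f x} := by
      refine ⟨?_⟩
      rintro ⟨e, rfl, h⟩
      exact hb (h none)
    exact Nat.card_of_isEmpty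

/-! ## the weight `ds` -/

/-- the weight of a value -/
noncomputable def wt (n : ℚ) (k : ℤ) : ℚ := if k = 0 then n else if 0 < k then (k : ℚ) else 1

theorem ds_eq {Γ : Type*} [Fintype Γ] (n : ℚ) (c : Γ → ℤ) :
    Pool.Agent.EF.ds n c = (∏ g, wt n (c g)) *
      (Mm (fun g : {g // 0 < c g} => - c g) (fun g : {g // c g < 0} => c g) : ℚ) := rfl

theorem ds_congr {Γ Δ : Type*} [Fintype Γ] [Fintype Δ] (n : ℚ) (c : Γ → ℤ) (d : Δ → ℤ) (e : Γ ≃ Δ)
    (h : ∀ g, d (e g) = c g) : Pool.Agent.EF.ds n c = Pool.Agent.EF.ds n d := by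
  rw [ds_eq, ds_eq]
  congr 1
  · refine Fintype.prod_equiv e _ _ fun g => ?_
    rw [h]
  · congr 1
    refine Mm_congr _ _ _ _ (e.subtypeEquiv fun g => by rw [h]) (e.subtypeEquiv fun g => by rw [h]) ?_ ?_
    · rintro ⟨g, hg⟩
      show - d (e g) = - c g
      rw [h]
    · rintro ⟨g, hg⟩
      show d (e g) = c g
      rw [h]

/-- number of matchings of a family of integers -/
noncomputable def MM {Γ : Type*} (c : Γ → ℤ) : ℕ :=
  Mm (fun g : {g // 0 < c g} => - c g) (fun g : {g // c g < 0} => c g)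

theorem MM_neg {Γ : Type*} (c : Γ → ℤ) : MM (fun g => - c g) = MM c := by
  unfold MM
  rw [Mm_symm]
  have h1 : ∀ g, (- c g < 0) ↔ (0 < c g) := fun g => by constructor <;> intro h <;> linarith
  have h2 : ∀ g, (0 < - c g) ↔ (c g < 0) := fun g => by constructor <;> intro h <;> linarith
  refine Mm_congr _ _ _ _ (Equiv.subtypeEquivRight h1) (Equiv.subtypeEquivRight h2) ?_ ?_
  · rintro ⟨g, hg⟩; rfl
  · rintro ⟨g, hg⟩
    show c g = - - c g
    rw [neg_neg]

/-- positive members of an option family whose `none` is positive -/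
def posOpt {Δ : Type*} (c : Option Δ → ℤ) (h0 : 0 < c none) :
    {g // 0 < c g} ≃ Option {d : Δ // 0 < c (some d)} where
  toFun g := match g with
    | ⟨none, _⟩ => none
    | ⟨some d, h⟩ => some ⟨d, h⟩
  invFun g := match g with
    | none => ⟨none, h0⟩
    | some d => ⟨some d.1, d.2⟩
  left_inv := by
    rintro ⟨g, h⟩
    cases g <;> rfl
  right_inv := by
    intro g
    cases g <;> rfl

/-- members of an option family with a property false at `none` -/
def negOpt {Δ : Type*} (p : Option Δ → Prop) (h0 : ¬ p none) :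
    {g // p g} ≃ {d : Δ // p (some d)} where
  toFun g := match g with
    | ⟨none, h⟩ => absurd h h0
    | ⟨some d, h⟩ => ⟨d, h⟩
  invFun g := ⟨some g.1, g.2⟩
  left_inv := by
    rintro ⟨g, h⟩
    cases g
    · exact absurd h h0
    · rfl
  right_inv := by
    rintro ⟨d, h⟩
    rfl

theorem negOpt_val {Δ : Type*} (p : Option Δ → Prop) (h0 : ¬ p none) (g : {g // p g}) :
    some (negOpt p h0 g).1 = g.1 := by
  obtain ⟨g, h⟩ := g
  cases g
  · exact absurd h h0
  · rfl

theorem MM_zero {Δ : Type*} (c : Option Δ → ℤ) (h0 : c none = 0) :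
    MM c = MM (fun d => c (some d)) := by
  unfold MM
  have h1 : ¬ (0 < c none) := by omega
  have h2 : ¬ (c none < 0) := by omega
  refine Mm_congr _ _ _ _ (negOpt (fun g => 0 < c g) h1) (negOpt (fun g => c g < 0) h2) ?_ ?_
  · intro g
    show - c (some (negOpt (fun g => 0 < c g) h1 g).1) = _
    rw [negOpt_val (fun g => 0 < c g) h1 g]
  · intro g
    show c (some (negOpt (fun g => c g < 0) h2 g).1) = _
    rw [negOpt_val (fun g => c g < 0) h2 g]

theorem MM_pos {Δ : Type*} [Fintype Δ] [DecidableEq Δ] (c : Option Δ → ℤ) (h0 : 0 < c none) :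
    MM c = ∑ d : Δ, if c (some d) = - c none then
      MM (fun x : {x : Δ // x ≠ d} => c (some x)) else 0 := by
  classical
  have h2 : ¬ (c none < 0) := by omega
  have e1 : MM c = Mm (fun g : Option {d : Δ // 0 < c (some d)} =>
      match g with | none => - c none | some d => - c (some d.1))
      (fun g : {d : Δ // c (some d) < 0} => c (some g.1)) := by
    unfold MM
    refine Mm_congr _ _ _ _ (posOpt c h0) (negOpt (fun g => c g < 0) h2) ?_ ?_
    · rintro ⟨g, hg⟩
      cases g <;> rfl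
    · intro g
      show c (some (negOpt (fun g => c g < 0) h2 g).1) = _
      rw [negOpt_val (fun g => c g < 0) h2 g]
  rw [e1, Mm_option]
  -- the sum over the negative members
  have e3 : ∀ b : {d : Δ // c (some d) < 0},
      Mm (fun x : {d : Δ // 0 < c (some d)} => - c (some x.1))
        (fun y : {y : {d : Δ // c (some d) < 0} // y ≠ b} => c (some y.1.1))
      = MM (fun x : {x : Δ // x ≠ b.1} => c (some x)) := by
    intro b
    unfold MM
    refine Mm_congr _ _ _ _
      ⟨fun x => ⟨⟨x.1, ?_⟩, x.2⟩, fun x => ⟨x.1.1, x.2⟩, ?_, ?_⟩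
      ⟨fun y => ⟨⟨y.1.1, ?_⟩, y.1.2⟩, fun y => ⟨⟨y.1.1, y.2⟩, ?_⟩, ?_, ?_⟩ ?_ ?_
    · rintro h
      have h3 := x.2
      have h4 := b.2
      rw [h] at h3
      omega
    · intro x; rfl
    · intro x; rfl
    · rintro h
      exact y.2 (Subtype.ext h)
    · rintro h
      exact y.1.2 (congrArg Subtype.val h)
    · intro x; rfl
    · intro x; rfl
    · intro x; rfl
    · intro x; rfl
  have e4 : ∀ b : {d : Δ // c (some d) < 0},
      (if c (some b.1) = - c none then
        Mm (fun x : {d : Δ // 0 < c (some d)} => - c (some x.1))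
        (fun y : {y : {d : Δ // c (some d) < 0} // y ≠ b} => c (some y.1.1)) else 0)
      = (if c (some b.1) = - c none then
        MM (fun x : {x : Δ // x ≠ b.1} => c (some x)) else 0) := by
    intro b
    rw [e3 b]
  rw [Finset.sum_congr rfl fun b _ => e4 b]
  have e5 : ∑ d ∈ univ.filter (fun d : Δ => c (some d) < 0),
      (if c (some d) = - c none then MM (fun x : {x : Δ // x ≠ d} => c (some x)) else 0)
      = ∑ b : {d : Δ // c (some d) < 0},
      (if c (some b.1) = - c none then MM (fun x : {x : Δ // x ≠ b.1} => c (some x)) else 0) :=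
    Finset.sum_subtype _ (by intro x; simp) _
  refine Eq.trans ?_ (e5.symm.trans ?_)
  · rfl
  · rw [Finset.sum_filter]
    refine Finset.sum_congr rfl fun d _ => ?_
    by_cases hd : c (some d) = - c none
    · rw [if_pos (by omega)]
    · rw [if_neg hd, ite_self]

theorem ds_zero {Δ : Type*} [Fintype Δ] (n : ℚ) (c : Option Δ → ℤ) (h0 : c none = 0) :
    Pool.Agent.EF.ds n c = n * Pool.Agent.EF.ds n (fun d => c (some d)) := by
  rw [ds_eq, ds_eq, Fintype.prod_option]
  have h1 : wt n (c none) = n := by rw [wt, if_pos h0]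
  have h2 := MM_zero c h0
  unfold MM at h2
  rw [h1, h2]
  ring

theorem ds_ne {Δ : Type*} [Fintype Δ] [DecidableEq Δ] (n : ℚ) (c : Option Δ → ℤ)
    (h0 : c none ≠ 0) :
    Pool.Agent.EF.ds n c = ∑ d : Δ, if c (some d) = - c none then
      ((|c none| : ℤ) : ℚ) * Pool.Agent.EF.ds n (fun x : {x : Δ // x ≠ d} => c (some x)) else 0 := by
  -- the matching number
  have h1 : MM c = ∑ d : Δ, if c (some d) = - c none then
      MM (fun x : {x : Δ // x ≠ d} => c (some x)) else 0 := by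
    rcases lt_or_gt_of_ne h0 with h | h
    · rw [← MM_neg c, MM_pos (fun g => - c g) (by simpa using h)]
      refine Finset.sum_congr rfl fun d _ => ?_
      have h3 : (- c (some d) = - - c none) ↔ (c (some d) = - c none) := by
        constructor <;> intro h4 <;> omega
      by_cases h5 : c (some d) = - c none
      · rw [if_pos h5, if_pos (h3.2 h5), MM_neg]
      · rw [if_neg h5, if_neg (fun h6 => h5 (h3.1 h6))]
    · exact MM_pos c h
  have h2 : Pool.Agent.EF.ds n c = (∏ g, wt n (c g)) * (MM c : ℚ) := rfl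
  rw [h2, h1]
  push_cast
  rw [Finset.mul_sum]
  refine Finset.sum_congr rfl fun d _ => ?_
  by_cases h5 : c (some d) = - c none
  · rw [if_pos h5, if_pos h5]
    have h6 : Pool.Agent.EF.ds n (fun x : {x : Δ // x ≠ d} => c (some x))
      = (∏ x : {x : Δ // x ≠ d}, wt n (c (some x))) *
        (MM (fun x : {x : Δ // x ≠ d} => c (some x)) : ℚ) := rfl
    rw [h6, Fintype.prod_option, Fintype.prod_eq_mul_prod_subtype_ne (fun x => wt n (c (some x))) d]
    have h7 : wt n (c none) * wt n (c (some d)) = ((|c none| : ℤ) : ℚ) := by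
      unfold wt
      rcases lt_or_gt_of_ne h0 with h | h
      · rw [if_neg h0, if_neg (by omega), if_neg (by omega), if_pos (by omega), h5, abs_of_neg h]
        ring
      · rw [if_neg h0, if_pos h, if_neg (by omega), if_neg (by omega), abs_of_pos h]
        ring
    rw [← Int.cast_abs, ← h7]
    ring
  · rw [if_neg h5, if_neg h5, mul_zero]

/-! ## the weight of a finite set of members -/

/-- `ds` of the members of a finset -/
noncomputable def dP {G : Type*} (n : ℚ) (c : G → ℤ) (P : Finset G) : ℚ :=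
  Pool.Agent.EF.ds n (fun g : {g // g ∈ P} => c g)

theorem dP_zero {G : Type*} [DecidableEq G] (n : ℚ) (c : G → ℤ) (P : Finset G) (g₀ : G) (hg : g₀ ∉ P)
    (h0 : c g₀ = 0) : dP n c (insert g₀ P) = n * dP n c P := by
  unfold dP
  rw [← ds_congr n (fun g : Option {g // g ∈ P} => c ((Finset.subtypeInsertEquivOption hg).symm g).1)
    (fun g : {g // g ∈ insert g₀ P} => c g) (Finset.subtypeInsertEquivOption hg).symm (fun g => rfl),
    ds_zero n _ h0]
  rfl

theorem dP_ne {G : Type*} [DecidableEq G] (n : ℚ) (c : G → ℤ) (P : Finset G) (g₀ : G) (hg : g₀ ∉ P)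
    (h0 : c g₀ ≠ 0) : dP n c (insert g₀ P) = ∑ g ∈ P, if c g = - c g₀ then
      ((|c g₀| : ℤ) : ℚ) * dP n c (P.erase g) else 0 := by
  unfold dP
  rw [← ds_congr n (fun g : Option {g // g ∈ P} => c ((Finset.subtypeInsertEquivOption hg).symm g).1)
    (fun g : {g // g ∈ insert g₀ P} => c g) (Finset.subtypeInsertEquivOption hg).symm (fun g => rfl),
    ds_ne n _ h0, ← Finset.sum_coe_sort P]
  refine Finset.sum_congr rfl fun d _ => ?_
  have h1 : Pool.Agent.EF.ds n (fun x : {x : {g // g ∈ P} // x ≠ d} =>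
      c ((Finset.subtypeInsertEquivOption hg).symm (some x.1)).1)
    = Pool.Agent.EF.ds n (fun g : {g // g ∈ P.erase d.1} => c g) := by
    refine ds_congr n _ _ ⟨fun x => ⟨x.1.1, ?_⟩, fun x => ⟨⟨x.1, ?_⟩, ?_⟩, ?_, ?_⟩ ?_
    · exact Finset.mem_erase.2 ⟨fun h => x.2 (Subtype.ext h), x.1.2⟩
    · exact (Finset.mem_erase.1 x.2).2
    · intro h
      exact (Finset.mem_erase.1 x.2).1 (congrArg Subtype.val h)
    · intro x; rfl
    · intro x; rfl
    · intro x; rfl
  rw [h1]
  rfl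

/-! ## orbits -/

open Equiv.Perm in
theorem sc_agree_aux {A : Type} [Fintype A] (f g : Equiv.Perm A) (T : Finset A)
    (hfg : ∀ x ∈ T, f x = g x) (hT : ∀ x ∈ T, f x ∈ T) (x y : A) (hx : x ∈ T)
    (h : f.SameCycle x y) : g.SameCycle x y ∧ y ∈ T := by
  obtain ⟨i, hi⟩ := h.exists_nat_pow_eq
  have h1 : ∀ j : ℕ, (f ^ j) x = (g ^ j) x ∧ (f ^ j) x ∈ T := by
    intro j
    induction j with
    | zero => exact ⟨rfl, hx⟩
    | succ j ih =>
      have h2 : (f ^ (j + 1)) x = f ((f ^ j) x) := by rw [pow_succ', Equiv.Perm.mul_apply]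
      have h3 : (g ^ (j + 1)) x = g ((g ^ j) x) := by rw [pow_succ', Equiv.Perm.mul_apply]
      refine ⟨?_, ?_⟩
      · rw [h2, h3, hfg _ ih.2, ih.1]
      · rw [h2]; exact hT _ ih.2
  refine ⟨⟨(i : ℤ), ?_⟩, ?_⟩
  · rw [zpow_natCast, ← (h1 i).1, hi]
  · rw [← hi]; exact (h1 i).2

theorem sc_agree {A : Type} [Fintype A] (f g : Equiv.Perm A) (T : Finset A)
    (hfg : ∀ x ∈ T, f x = g x) (hT : ∀ x ∈ T, f x ∈ T) (x y : A) (hx : x ∈ T) :
    f.SameCycle x y ↔ g.SameCycle x y := by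
  constructor
  · exact fun h => (sc_agree_aux f g T hfg hT x y hx h).1
  · exact fun h => (sc_agree_aux g f T (fun z hz => (hfg z hz).symm)
      (fun z hz => by rw [← hfg z hz]; exact hT z hz) x y hx h).1

theorem sc_mem {A : Type} [Fintype A] (f : Equiv.Perm A) (T : Finset A)
    (hT : ∀ x ∈ T, f x ∈ T) (x y : A) (hx : x ∈ T) (h : f.SameCycle x y) : y ∈ T :=
  (sc_agree_aux f f T (fun _ _ => rfl) hT x y hx h).2

/-- a permutation fixing the complement of `S` preserves `S` -/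
theorem map_mem {A : Type} (θ : Equiv.Perm A) (S : Finset A) (h : ∀ a, a ∉ S → θ a = a) (x : A) :
    θ x ∈ S ↔ x ∈ S := by
  constructor
  · intro h1
    by_contra h2
    rw [h x h2] at h1
    exact h2 h1
  · intro h1
    by_contra h2
    have h3 := h _ h2
    have h4 := θ.injective h3
    rw [h4] at h2
    exact h2 h1

variable {A : Type} [DecidableEq A] [Fintype A]

open Classical in
/-- the orbit of `x` in `S` -/
noncomputable def ob (θ : Equiv.Perm A) (S : Finset A) (x : A) : Finset A :=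
  S.filter (fun y => θ.SameCycle x y)

/-- the orbits in `S` -/
noncomputable def obs (θ : Equiv.Perm A) (S : Finset A) : Finset (Finset A) := S.image (ob θ S)

theorem mem_ob (θ : Equiv.Perm A) (S : Finset A) (x y : A) :
    y ∈ ob θ S x ↔ y ∈ S ∧ θ.SameCycle x y := by
  classical
  simp [ob]

theorem mem_obs (θ : Equiv.Perm A) (S T : Finset A) :
    T ∈ obs θ S ↔ ∃ x ∈ S, ob θ S x = T := by
  simp [obs]

theorem mem_cps (t h : A → Bool) (S : Finset A) (θ : Equiv.Perm A) :
    θ ∈ cps t h S ↔ (∀ a, a ∉ S → θ a = a) ∧ ∀ a ∈ S, t (θ a) = h a := by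
  classical
  simp [cps]

theorem mem_cys (t h : A → Bool) (S : Finset A) (θ : Equiv.Perm A) :
    θ ∈ cys t h S ↔ θ ∈ cps t h S ∧ S.Nonempty ∧ ∀ a ∈ S, ∀ b ∈ S, θ.SameCycle a b := by
  classical
  simp [cys]

theorem mul_in {T : Finset A} {S : Finset A} {σ θ : Equiv.Perm A}
    (hθ : ∀ a, a ∉ S \ T → θ a = a) {x : A} (hx : x ∈ T) :
    (σ * θ) x = σ x := by
  rw [Equiv.Perm.mul_apply, hθ x (by simp [hx])]

theorem mul_out {T : Finset A} {S : Finset A} {σ θ : Equiv.Perm A} (hσ : ∀ a, a ∉ T → σ a = a)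
    (hθ : ∀ a, a ∉ S \ T → θ a = a) {x : A} (hx : x ∉ T) :
    (σ * θ) x = θ x := by
  rw [Equiv.Perm.mul_apply]
  apply hσ
  intro h1
  have h2 : θ (θ x) = θ x := hθ _ (by simp [h1])
  have h3 := θ.injective h2
  rw [h3] at h1
  exact hx h1

/-- orbits of a product -/
theorem obs_mul (t h : A → Bool) {S T : Finset A} (hTS : T ⊆ S) {σ θ : Equiv.Perm A}
    (hσ : σ ∈ cys t h T) (hθ : θ ∈ cps t h (S \ T)) :
    obs (σ * θ) S = insert T (obs θ (S \ T)) ∧ T ∉ obs θ (S \ T) := by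
  rw [mem_cys, mem_cps] at hσ
  rw [mem_cps] at hθ
  obtain ⟨⟨hσ1, -⟩, hne, hσ3⟩ := hσ
  obtain ⟨hθ1, -⟩ := hθ
  have hin : ∀ x ∈ T, (σ * θ) x = σ x := fun x hx => mul_in hθ1 hx
  have hout : ∀ x ∈ S \ T, (σ * θ) x = θ x := fun x hx =>
    mul_out hσ1 hθ1 (Finset.mem_sdiff.1 hx).2
  have hTT : ∀ x ∈ T, (σ * θ) x ∈ T := fun x hx => by
    rw [hin x hx]; exact (map_mem σ T hσ1 x).2 hx
  have hSS : ∀ x ∈ S \ T, (σ * θ) x ∈ S \ T := fun x hx => by
    rw [hout x hx]; exact (map_mem θ (S \ T) hθ1 x).2 hx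
  have hobT : ∀ x ∈ T, ob (σ * θ) S x = T := by
    intro x hx
    ext y
    rw [mem_ob]
    constructor
    · rintro ⟨_, h2⟩
      exact sc_mem _ T hTT x y hx h2
    · intro hy
      exact ⟨hTS hy, (sc_agree _ σ T hin hTT x y hx).2 (hσ3 x hx y hy)⟩
  have hobS : ∀ x ∈ S \ T, ob (σ * θ) S x = ob θ (S \ T) x := by
    intro x hx
    ext y
    rw [mem_ob, mem_ob]
    constructor
    · rintro ⟨_, h2⟩
      exact ⟨sc_mem _ _ hSS x y hx h2, (sc_agree _ θ _ hout hSS x y hx).1 h2⟩
    · rintro ⟨h1, h2⟩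
      exact ⟨(Finset.mem_sdiff.1 h1).1, (sc_agree _ θ _ hout hSS x y hx).2 h2⟩
  refine ⟨?_, ?_⟩
  · ext R
    rw [Finset.mem_insert, mem_obs, mem_obs]
    constructor
    · rintro ⟨x, hx, rfl⟩
      by_cases hxT : x ∈ T
      · exact Or.inl (hobT x hxT)
      · have hx' : x ∈ S \ T := Finset.mem_sdiff.2 ⟨hx, hxT⟩
        exact Or.inr ⟨x, hx', (hobS x hx').symm⟩
    · rintro (rfl | ⟨x, hx, rfl⟩)
      · obtain ⟨x, hx⟩ := hne
        exact ⟨x, hTS hx, hobT x hx⟩
      · exact ⟨x, (Finset.mem_sdiff.1 hx).1, hobS x hx⟩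
  · rw [mem_obs]
    rintro ⟨x, hx, hxT⟩
    have h1 : x ∈ ob θ (S \ T) x := (mem_ob _ _ _ _).2 ⟨hx, Equiv.Perm.SameCycle.refl _ _⟩
    rw [hxT] at h1
    exact (Finset.mem_sdiff.1 hx).2 h1

/-- splitting off an orbit -/
theorem split (t h : A → Bool) {S T : Finset A} {θ : Equiv.Perm A} (hθ : θ ∈ cps t h S)
    (hT : T ∈ obs θ S) :
    ∃ σ ∈ cys t h T, ∃ θ' ∈ cps t h (S \ T), σ * θ' = θ := by
  rw [mem_obs] at hT
  obtain ⟨x, hx, rfl⟩ := hT
  rw [mem_cps] at hθ
  obtain ⟨h1, h2⟩ := hθ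
  have hS : ∀ y, θ y ∈ S ↔ y ∈ S := map_mem θ S h1
  have hT : ∀ y, θ y ∈ ob θ S x ↔ y ∈ ob θ S x := by
    intro y
    rw [mem_ob, mem_ob, hS, Equiv.Perm.sameCycle_apply_right]
  have hR : ∀ y, θ y ∈ S \ ob θ S x ↔ y ∈ S \ ob θ S x := by
    intro y
    rw [Finset.mem_sdiff, Finset.mem_sdiff, hS, hT]
  have hTS : ob θ S x ⊆ S := fun y hy => ((mem_ob _ _ _ _).1 hy).1
  set σ : Equiv.Perm A := Equiv.Perm.ofSubtype (θ.subtypePerm hT) with hσ
  set θ' : Equiv.Perm A := Equiv.Perm.ofSubtype (θ.subtypePerm hR) with hθ'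
  have s1 : ∀ y ∈ ob θ S x, σ y = θ y := fun y hy =>
    Equiv.Perm.ofSubtype_subtypePerm_of_mem hT hy
  have s2 : ∀ y, y ∉ ob θ S x → σ y = y := fun y hy =>
    Equiv.Perm.ofSubtype_subtypePerm_of_not_mem hT hy
  have s3 : ∀ y ∈ S \ ob θ S x, θ' y = θ y := fun y hy =>
    Equiv.Perm.ofSubtype_subtypePerm_of_mem hR hy
  have s4 : ∀ y, y ∉ S \ ob θ S x → θ' y = y := fun y hy =>
    Equiv.Perm.ofSubtype_subtypePerm_of_not_mem hR hy
  have hsT : ∀ y ∈ ob θ S x, σ y ∈ ob θ S x := fun y hy => by rw [s1 y hy]; exact (hT y).2 hy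
  refine ⟨σ, ?_, θ', ?_, ?_⟩
  · rw [mem_cys, mem_cps]
    refine ⟨⟨s2, fun a ha => ?_⟩, ⟨x, (mem_ob _ _ _ _).2 ⟨hx, Equiv.Perm.SameCycle.refl _ _⟩⟩, ?_⟩
    · rw [s1 a ha]; exact h2 a (hTS ha)
    · intro a ha b hb
      rw [sc_agree σ θ _ s1 hsT a b ha]
      exact ((mem_ob _ _ _ _).1 ha).2.symm.trans ((mem_ob _ _ _ _).1 hb).2
  · rw [mem_cps]
    refine ⟨s4, fun a ha => ?_⟩
    rw [s3 a ha]; exact h2 a (Finset.mem_sdiff.1 ha).1
  · ext y
    by_cases hy : y ∈ ob θ S x
    · rw [mul_in s4 hy, s1 y hy]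
    · rw [mul_out s2 s4 hy]
      by_cases hyS : y ∈ S
      · exact s3 y (Finset.mem_sdiff.2 ⟨hyS, hy⟩)
      · rw [s4 y (fun h3 => hyS (Finset.mem_sdiff.1 h3).1), h1 y hyS]

/-- the product of a cycle and the rest is compatible -/
theorem mul_mem_cps (t h : A → Bool) {S T : Finset A} (hTS : T ⊆ S) {σ θ : Equiv.Perm A}
    (hσ : σ ∈ cys t h T) (hθ : θ ∈ cps t h (S \ T)) : σ * θ ∈ cps t h S := by
  rw [mem_cys, mem_cps] at hσ
  rw [mem_cps] at hθ ⊢
  obtain ⟨⟨hσ1, hσ2⟩, hne, hσ3⟩ := hσ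
  obtain ⟨hθ1, hθ2⟩ := hθ
  refine ⟨fun a ha => ?_, fun a ha => ?_⟩
  · have h1 : a ∉ T := fun h1 => ha (hTS h1)
    rw [mul_out hσ1 hθ1 h1]
    exact hθ1 a (fun h2 => ha (Finset.mem_sdiff.1 h2).1)
  · by_cases haT : a ∈ T
    · rw [mul_in hθ1 haT]; exact hσ2 a haT
    · rw [mul_out hσ1 hθ1 haT]
      exact hθ2 a (Finset.mem_sdiff.2 ⟨ha, haT⟩)

/-- summation over a permutation and one of its orbits -/
theorem sum_orbit (t h : A → Bool) (S : Finset A) (G : Finset A → Finset (Finset A) → ℚ) :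
    ∑ θ ∈ cps t h S, ∑ T ∈ obs θ S, G T ((obs θ S).erase T) =
      ∑ T ∈ S.powerset, ((cys t h T).card : ℚ) * ∑ θ ∈ cps t h (S \ T), G T (obs θ (S \ T)) := by
  have h1 : ∀ T ∈ S.powerset, ((cys t h T).card : ℚ) * ∑ θ ∈ cps t h (S \ T), G T (obs θ (S \ T))
      = ∑ p ∈ cys t h T ×ˢ cps t h (S \ T), G T (obs p.2 (S \ T)) := by
    intro T _
    rw [Finset.sum_product]
    show _ = ∑ _x ∈ cys t h T, ∑ y ∈ cps t h (S \ T), G T (obs y (S \ T))
    rw [Finset.sum_const, nsmul_eq_mul]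
  rw [Finset.sum_congr rfl h1, Finset.sum_sigma', Finset.sum_sigma']
  symm
  refine Finset.sum_bij (fun q _ => (⟨q.2.1 * q.2.2, q.1⟩ : (_ : Equiv.Perm A) × Finset A))
    ?_ ?_ ?_ ?_
  · rintro ⟨T, σ, θ⟩ hq
    simp only [mem_sigma, mem_powerset, mem_product] at hq ⊢
    obtain ⟨hTS, hσ, hθ⟩ := hq
    refine ⟨mul_mem_cps t h hTS hσ hθ, ?_⟩
    rw [(obs_mul t h hTS hσ hθ).1]
    exact Finset.mem_insert_self _ _
  · rintro ⟨T, σ, θ⟩ hq ⟨T', σ', θ'⟩ hq' he
    simp only [mem_sigma, mem_powerset, mem_product] at hq hq'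
    simp only [Sigma.mk.injEq, heq_eq_eq] at he
    obtain ⟨he, rfl⟩ := he
    obtain ⟨hTS, hσ, hθ⟩ := hq
    obtain ⟨_, hσ', hθ'⟩ := hq'
    rw [mem_cys, mem_cps] at hσ hσ'
    rw [mem_cps] at hθ hθ'
    have e1 : σ = σ' := by
      ext y
      by_cases hy : y ∈ T
      · rw [← mul_in (σ := σ) hθ.1 hy, he, mul_in hθ'.1 hy]
      · rw [hσ.1.1 y hy, hσ'.1.1 y hy]
    subst e1
    have e2 : θ = θ' := mul_left_cancel he
    subst e2
    rfl
  · rintro ⟨θ, T⟩ hq
    simp only [mem_sigma] at hq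
    obtain ⟨hθ, hT⟩ := hq
    obtain ⟨σ, hσ, θ', hθ', he⟩ := split t h hθ hT
    refine ⟨⟨T, σ, θ'⟩, ?_, ?_⟩
    · simp only [mem_sigma, mem_powerset, mem_product]
      refine ⟨?_, hσ, hθ'⟩
      rw [mem_obs] at hT
      obtain ⟨x, hx, rfl⟩ := hT
      exact fun y hy => ((mem_ob _ _ _ _).1 hy).1
    · show (⟨σ * θ', T⟩ : (_ : Equiv.Perm A) × Finset A) = ⟨θ, T⟩
      rw [he]
  · rintro ⟨T, σ, θ⟩ hq
    simp only [mem_sigma, mem_powerset, mem_product] at hq
    obtain ⟨hTS, hσ, hθ⟩ := hq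
    show G T (obs θ (S \ T)) = G T ((obs (σ * θ) S).erase T)
    obtain ⟨e1, e2⟩ := obs_mul t h hTS hσ hθ
    rw [e1, Finset.erase_insert e2]

/-! ## the recursion -/

/-- the weighted number of compatible permutations of `S` -/
noncomputable def YY (t h : A → Bool) (c : A → ℤ) (n : ℚ) : Sq A :=
  ⟨fun S => ∑ θ ∈ cps t h S, dP n (ch c) (obs θ S)⟩

/-- exactly one orbit contains a given element -/
theorem sum_one {θ : Equiv.Perm A} {S : Finset A} {a : A} (ha : a ∈ S)
    (f : Finset (Finset A) → ℚ) :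
    f (obs θ S) = ∑ T ∈ obs θ S, if a ∈ T then f (insert T ((obs θ S).erase T)) else 0 := by
  have h1 : ob θ S a ∈ obs θ S := (mem_obs _ _ _).2 ⟨a, ha, rfl⟩
  have h2 : a ∈ ob θ S a := (mem_ob _ _ _ _).2 ⟨ha, Equiv.Perm.SameCycle.refl _ _⟩
  rw [Finset.sum_eq_single_of_mem _ h1, if_pos h2, Finset.insert_erase h1]
  intro T hT hne
  rw [if_neg]
  intro h3
  apply hne
  rw [mem_obs] at hT
  obtain ⟨x, hx, rfl⟩ := hT
  rw [mem_ob] at h3
  ext y
  rw [mem_ob, mem_ob]
  constructor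
  · rintro ⟨h4, h5⟩
    exact ⟨h4, h3.2.symm.trans h5⟩
  · rintro ⟨h4, h5⟩
    exact ⟨h4, h3.2.trans h5⟩

theorem not_mem_obs {θ : Equiv.Perm A} {S T : Finset A} {a : A} (ha : a ∈ T) (haS : a ∉ S) :
    T ∉ obs θ S := by
  rw [mem_obs]
  rintro ⟨x, hx, rfl⟩
  exact haS ((mem_ob _ _ _ _).1 ha).1

theorem YY_rec (t h : A → Bool) (c : A → ℤ) (n : ℚ) (S : Finset A) (a : A) (ha : a ∈ S) :
    (YY t h c n).co S = ∑ T ∈ S.powerset, if a ∈ T then
      ((if ch c T = 0 then n * (NN t h).co T * (YY t h c n).co (S \ T) else 0) +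
        ∑ T₂ ∈ (S \ T).powerset, if ch c T₂ = - ch c T then
          ((|ch c T| : ℤ) : ℚ) * (NN t h).co T * (NN t h).co T₂ *
            (YY t h c n).co ((S \ T) \ T₂) else 0) else 0 := by
  have e1 : (YY t h c n).co S = ∑ θ ∈ cps t h S, ∑ T ∈ obs θ S,
      if a ∈ T then dP n (ch c) (insert T ((obs θ S).erase T)) else 0 := by
    show ∑ θ ∈ cps t h S, dP n (ch c) (obs θ S) = _
    exact Finset.sum_congr rfl fun θ _ => sum_one ha (fun P => dP n (ch c) P)
  rw [e1, sum_orbit t h S (fun T P => if a ∈ T then dP n (ch c) (insert T P) else 0)]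
  refine Finset.sum_congr rfl fun T _ => ?_
  by_cases haT : a ∈ T
  · simp only [if_pos haT]
    have hn : ∀ θ, T ∉ obs θ (S \ T) := fun θ => not_mem_obs haT (by simp [haT])
    by_cases h0 : ch c T = 0
    · rw [if_pos h0]
      have e2 : ∀ θ ∈ cps t h (S \ T), dP n (ch c) (insert T (obs θ (S \ T)))
          = n * dP n (ch c) (obs θ (S \ T)) := fun θ _ => dP_zero n (ch c) _ T (hn θ) h0
      rw [Finset.sum_congr rfl e2, ← Finset.mul_sum]
      have e3 : ∑ T₂ ∈ (S \ T).powerset, (if ch c T₂ = - ch c T then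
          ((|ch c T| : ℤ) : ℚ) * (NN t h).co T * (NN t h).co T₂ *
            (YY t h c n).co ((S \ T) \ T₂) else 0) = 0 := by
        refine Finset.sum_eq_zero fun T₂ _ => ?_
        rw [h0]
        simp
      rw [e3, add_zero]
      show ((cys t h T).card : ℚ) * (n * ∑ θ ∈ cps t h (S \ T), dP n (ch c) (obs θ (S \ T)))
        = n * ((cys t h T).card : ℚ) * ∑ θ ∈ cps t h (S \ T), dP n (ch c) (obs θ (S \ T))
      ring
    · rw [if_neg h0, zero_add]
      have e2 : ∀ θ ∈ cps t h (S \ T), dP n (ch c) (insert T (obs θ (S \ T)))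
          = ∑ T₂ ∈ obs θ (S \ T), if ch c T₂ = - ch c T then
            ((|ch c T| : ℤ) : ℚ) * dP n (ch c) ((obs θ (S \ T)).erase T₂) else 0 :=
        fun θ _ => dP_ne n (ch c) _ T (hn θ) h0
      rw [Finset.sum_congr rfl e2, sum_orbit t h (S \ T) (fun T₂ P => if ch c T₂ = - ch c T then
            ((|ch c T| : ℤ) : ℚ) * dP n (ch c) P else 0), Finset.mul_sum]
      refine Finset.sum_congr rfl fun T₂ _ => ?_
      by_cases h2 : ch c T₂ = - ch c T
      · simp only [if_pos h2]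
        rw [← Finset.mul_sum]
        show ((cys t h T).card : ℚ) * (((cys t h T₂).card : ℚ) * (((|ch c T| : ℤ) : ℚ) *
          ∑ θ ∈ cps t h ((S \ T) \ T₂), dP n (ch c) (obs θ ((S \ T) \ T₂))))
          = ((|ch c T| : ℤ) : ℚ) * ((cys t h T).card : ℚ) * ((cys t h T₂).card : ℚ) *
            ∑ θ ∈ cps t h ((S \ T) \ T₂), dP n (ch c) (obs θ ((S \ T) \ T₂))
        ring
      · simp only [if_neg h2, Finset.sum_const_zero, mul_zero]
  · simp only [if_neg haT, Finset.sum_const_zero, mul_zero]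

/-- nested sums -/
theorem tri (S : Finset A) (f : Finset A → Finset A → ℚ) (g : Finset A → ℚ) :
    ∑ U ∈ S.powerset, (∑ T ∈ U.powerset, f T (U \ T)) * g (S \ U) =
      ∑ T ∈ S.powerset, ∑ T₂ ∈ (S \ T).powerset, f T T₂ * g ((S \ T) \ T₂) := by
  simp only [Finset.sum_mul]
  rw [Finset.sum_sigma', Finset.sum_sigma']
  refine Finset.sum_bij' (fun p _ => (⟨p.2, p.1 \ p.2⟩ : (_ : Finset A) × Finset A))
    (fun p _ => (⟨p.1 ∪ p.2, p.1⟩ : (_ : Finset A) × Finset A)) ?_ ?_ ?_ ?_ ?_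
  · rintro ⟨T, R⟩ h
    simp only [mem_sigma, mem_powerset] at h ⊢
    exact ⟨h.2.trans h.1, Finset.sdiff_subset_sdiff h.1 (le_refl _)⟩
  · rintro ⟨R, Q⟩ h
    simp only [mem_sigma, mem_powerset] at h ⊢
    exact ⟨Finset.union_subset h.1 (h.2.trans Finset.sdiff_subset), Finset.subset_union_left⟩
  · rintro ⟨T, R⟩ h
    simp only [mem_sigma, mem_powerset] at h ⊢
    rw [Finset.union_sdiff_of_subset h.2]
  · rintro ⟨R, Q⟩ h
    simp only [mem_sigma, mem_powerset] at h ⊢
    have hd : Disjoint R Q := by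
      rw [Finset.disjoint_left]; intro a ha hq
      exact (Finset.mem_sdiff.1 (h.2 hq)).2 ha
    rw [Finset.union_sdiff_cancel_left hd]
  · rintro ⟨T, R⟩ h
    simp only [mem_sigma, mem_powerset] at h ⊢
    have e : (S \ R) \ (T \ R) = S \ T := by
      ext a; simp only [mem_sdiff]
      constructor
      · rintro ⟨⟨h1, h2⟩, h3⟩; exact ⟨h1, fun h4 => h3 ⟨h4, h2⟩⟩
      · rintro ⟨h1, h2⟩; exact ⟨⟨h1, fun h3 => h2 (h.2 h3)⟩, fun h3 => h2 h3.1⟩
    rw [e]

theorem ch_split (c : A → ℤ) {T S : Finset A} (h : T ⊆ S) : ch c S = ch c T + ch c (S \ T) := by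
  unfold ch
  rw [add_comm, Finset.sum_sdiff h]

/-- the exponent -/
noncomputable def EE (t h : A → Bool) (c : A → ℤ) (n : ℚ) : Sq A :=
  n • zz c (NN t h) + pr c (NN t h) (NN t h)

/-- the part of the exponent with `a` -/
theorem EE_rec (t h : A → Bool) (c : A → ℤ) (n : ℚ) (U : Finset A) (a : A) (ha : a ∈ U) :
    (EE t h c n).co U = (if ch c U = 0 then n * (NN t h).co U else 0) +
      ∑ T ∈ U.powerset, if a ∈ T then (if ch c (U \ T) = - ch c T then
        ((|ch c T| : ℤ) : ℚ) * (NN t h).co T * (NN t h).co (U \ T) else 0) else 0 := by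
  have e0 : (EE t h c n).co U = n * (if ch c U = 0 then (NN t h).co U else 0) +
      (if ch c U = 0 then ∑ T ∈ U.powerset, ((max (ch c T) 0 : ℤ) : ℚ) * (NN t h).co T *
        (NN t h).co (U \ T) else 0) := rfl
  rw [e0]
  by_cases h0 : ch c U = 0
  · simp only [if_pos h0]
    congr 1
    have e1 : ∀ T ∈ U.powerset, (ch c (U \ T) = - ch c T) := by
      intro T hT
      have := ch_split c (mem_powerset.1 hT)
      omega
    have e2 : ∑ T ∈ U.powerset, (if a ∈ T then (if ch c (U \ T) = - ch c T then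
        ((|ch c T| : ℤ) : ℚ) * (NN t h).co T * (NN t h).co (U \ T) else 0) else 0)
        = ∑ T ∈ U.powerset, (if a ∈ T then ((max (ch c T) 0 : ℤ) : ℚ) * (NN t h).co T *
        (NN t h).co (U \ T) else 0) + ∑ T ∈ U.powerset, (if a ∈ T then
          ((max (- ch c T) 0 : ℤ) : ℚ) * (NN t h).co T * (NN t h).co (U \ T) else 0) := by
      rw [← Finset.sum_add_distrib]
      refine Finset.sum_congr rfl fun T hT => ?_
      by_cases haT : a ∈ T
      · simp only [if_pos haT]
        rw [if_pos (e1 T hT)]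
        have h3 : |ch c T| = max (ch c T) 0 + max (- ch c T) 0 := by
          rcases le_total 0 (ch c T) with h4 | h4
          · rw [abs_of_nonneg h4, max_eq_left h4, max_eq_right (by omega), add_zero]
          · rw [abs_of_nonpos h4, max_eq_right h4, max_eq_left (by omega), zero_add]
        rw [h3]
        push_cast
        ring
      · simp only [if_neg haT, add_zero]
    have e3 : ∑ T ∈ U.powerset, (if a ∈ T then
          ((max (- ch c T) 0 : ℤ) : ℚ) * (NN t h).co T * (NN t h).co (U \ T) else 0)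
        = ∑ T ∈ U.powerset, (if a ∉ T then ((max (ch c T) 0 : ℤ) : ℚ) * (NN t h).co T *
        (NN t h).co (U \ T) else 0) := by
      refine Finset.sum_bij' (fun T _ => U \ T) (fun T _ => U \ T) ?_ ?_ ?_ ?_ ?_
      · intro T _; simp
      · intro T _; simp
      · intro T hT; simpa using hT
      · intro T hT; simpa using hT
      · intro T hT
        have h4 : U \ (U \ T) = T := by simpa using hT
        have h5 : a ∉ U \ T ↔ a ∈ T := by
          rw [Finset.mem_sdiff]
          constructor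
          · intro h6
            by_contra h7
            exact h6 ⟨ha, h7⟩
          · rintro h6 ⟨_, h7⟩
            exact h7 h6
        rw [h4, e1 T hT]
        by_cases h6 : a ∈ T
        · rw [if_pos h6, if_pos (h5.2 h6)]
          ring
        · rw [if_neg h6, if_neg (fun h7 => h6 (h5.1 h7))]
    rw [e2, e3, ← Finset.sum_add_distrib]
    refine Finset.sum_congr rfl fun T _ => ?_
    by_cases haT : a ∈ T
    · rw [if_pos haT, if_neg (not_not.2 haT), add_zero]
    · rw [if_neg haT, if_pos haT, zero_add]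
  · simp only [if_neg h0, mul_zero, add_zero, zero_add]
    symm
    refine Finset.sum_eq_zero fun T hT => ?_
    have h1 := ch_split c (mem_powerset.1 hT)
    rw [if_neg (show ¬ (ch c (U \ T) = - ch c T) by omega), ite_self]

theorem dg_single (t h : A → Bool) (c : A → ℤ) (n : ℚ) (a : A) :
    dg {a} (YY t h c n) = dg {a} (EE t h c n) * YY t h c n := by
  have hc : ∀ (x : Sq A) (S : Finset A), (dg {a} x).co S = if a ∈ S then x.co S else 0 := by
    intro x S
    show (((S ∩ {a}).card : ℕ) : ℚ) * x.co S = _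
    by_cases haS : a ∈ S
    · have : S ∩ {a} = {a} := by
        rw [Finset.inter_singleton_of_mem haS]
      rw [this, if_pos haS]; simp
    · have : S ∩ {a} = ∅ := by
        rw [Finset.inter_singleton_of_notMem haS]
      rw [this, if_neg haS]; simp
  ext S
  rw [hc, co_mul]
  by_cases haS : a ∈ S
  · rw [if_pos haS, YY_rec t h c n S a haS]
    have e1 : ∀ T ∈ S.powerset, (dg {a} (EE t h c n)).co T * (YY t h c n).co (S \ T)
        = (if a ∈ T then (if ch c T = 0 then n * (NN t h).co T * (YY t h c n).co (S \ T) else 0)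
          else 0) + (∑ T₁ ∈ T.powerset, (if a ∈ T₁ then (if ch c (T \ T₁) = - ch c T₁ then
        ((|ch c T₁| : ℤ) : ℚ) * (NN t h).co T₁ * (NN t h).co (T \ T₁) else 0) else 0)) *
          (YY t h c n).co (S \ T) := by
      intro T _
      rw [hc]
      by_cases haT : a ∈ T
      · rw [if_pos haT, if_pos haT, EE_rec t h c n T a haT, add_mul, ite_mul, zero_mul]
      · rw [if_neg haT, if_neg haT]
        have : ∑ T₁ ∈ T.powerset, (if a ∈ T₁ then (if ch c (T \ T₁) = - ch c T₁ then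
          ((|ch c T₁| : ℤ) : ℚ) * (NN t h).co T₁ * (NN t h).co (T \ T₁) else 0) else 0) = 0 := by
          refine Finset.sum_eq_zero fun T₁ hT₁ => ?_
          rw [if_neg (fun h1 => haT (mem_powerset.1 hT₁ h1))]
        rw [this]; simp
    rw [Finset.sum_congr rfl e1, Finset.sum_add_distrib,
      tri S (fun T₁ T₂ => if a ∈ T₁ then (if ch c T₂ = - ch c T₁ then
        ((|ch c T₁| : ℤ) : ℚ) * (NN t h).co T₁ * (NN t h).co T₂ else 0) else 0)
        (fun T => (YY t h c n).co T), ← Finset.sum_add_distrib]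
    refine Finset.sum_congr rfl fun T _ => ?_
    by_cases haT : a ∈ T
    · simp only [if_pos haT]
      congr 1
      refine Finset.sum_congr rfl fun T₂ _ => ?_
      rw [ite_mul, zero_mul]
    · simp only [if_neg haT, zero_mul, Finset.sum_const_zero, add_zero]
  · rw [if_neg haS]
    symm
    refine Finset.sum_eq_zero fun T hT => ?_
    rw [hc, if_neg (fun h1 => haS (mem_powerset.1 hT h1)), zero_mul]

theorem dg_univ_eq (x : Sq A) : dg univ x = ∑ a, dg {a} x := by
  ext S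
  rw [co_sum]
  show (((S ∩ univ).card : ℕ) : ℚ) * x.co S = ∑ a, (((S ∩ {a}).card : ℕ) : ℚ) * x.co S
  rw [← Finset.sum_mul]
  congr 1
  rw [Finset.inter_univ, Finset.card_eq_sum_ones]
  push_cast
  have e1 : ∀ a : A, (((S ∩ {a}).card : ℕ) : ℚ) = if a ∈ S then 1 else 0 := by
    intro a
    by_cases haS : a ∈ S
    · rw [Finset.inter_singleton_of_mem haS, if_pos haS]; simp
    · rw [Finset.inter_singleton_of_notMem haS, if_neg haS]; simp
  rw [Finset.sum_congr rfl fun a _ => e1 a, ← Finset.sum_filter]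
  simp

theorem NN_empty (t h : A → Bool) : (NN t h).co ∅ = 0 := by
  have h1 : cys t h (∅ : Finset A) = ∅ := by
    classical
    unfold cys
    simp
  show ((cys t h (∅ : Finset A)).card : ℚ) = 0
  rw [h1]; simp

theorem EE_empty (t h : A → Bool) (c : A → ℤ) (n : ℚ) : (EE t h c n).co ∅ = 0 := by
  have e0 : (EE t h c n).co ∅ = n * (if ch c (∅ : Finset A) = 0 then (NN t h).co ∅ else 0) +
      (if ch c (∅ : Finset A) = 0 then ∑ T ∈ (∅ : Finset A).powerset,
        ((max (ch c T) 0 : ℤ) : ℚ) * (NN t h).co T * (NN t h).co (∅ \ T) else 0) := rfl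
  rw [e0]
  simp [NN_empty]

theorem YY_empty (t h : A → Bool) (c : A → ℤ) (n : ℚ) : (YY t h c n).co ∅ = 1 := by
  have e1 : cps t h (∅ : Finset A) = {1} := by
    ext θ
    rw [mem_cps, Finset.mem_singleton]
    constructor
    · rintro ⟨h1, _⟩
      ext x
      exact h1 x (by simp)
    · rintro rfl
      exact ⟨fun a _ => rfl, fun a ha => absurd ha (by simp)⟩
  show ∑ θ ∈ cps t h (∅ : Finset A), dP n (ch c) (obs θ ∅) = 1
  rw [e1, Finset.sum_singleton]
  have e2 : obs (1 : Equiv.Perm A) ∅ = ∅ := by simp [obs]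
  rw [e2]
  unfold dP
  rw [ds_eq]
  have e3 : Mm (fun g : {g : {g : Finset A // g ∈ (∅ : Finset (Finset A))} // 0 < ch c g.1} =>
      - ch c g.1.1) (fun g : {g : {g : Finset A // g ∈ (∅ : Finset (Finset A))} // ch c g.1 < 0} =>
      ch c g.1.1) = 1 := by
    unfold Mm
    rw [Nat.card_eq_one_iff_unique]
    have i1 : IsEmpty {g : {g : Finset A // g ∈ (∅ : Finset (Finset A))} // 0 < ch c g.1} :=
      ⟨fun g => (Finset.notMem_empty _ g.1.2).elim⟩
    have i2 : IsEmpty {g : {g : Finset A // g ∈ (∅ : Finset (Finset A))} // ch c g.1 < 0} :=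
      ⟨fun g => (Finset.notMem_empty _ g.1.2).elim⟩
    refine ⟨⟨fun e e' => ?_⟩, ⟨⟨Equiv.equivOfIsEmpty _ _, fun x => i1.elim x⟩⟩⟩
    apply Subtype.ext
    ext x
    exact i1.elim x
  rw [e3]
  simp

theorem YY_eq (t h : A → Bool) (c : A → ℤ) (n : ℚ) : YY t h c n = ex (EE t h c n) := by
  have h0 := EE_empty t h c n
  have h1 : dg univ (YY t h c n) = dg univ (EE t h c n) * YY t h c n := by
    rw [dg_univ_eq, dg_univ_eq, Finset.sum_mul]
    exact Finset.sum_congr rfl fun a _ => dg_single t h c n a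
  have h2 : ex (-(EE t h c n)) * YY t h c n = 1 := by
    apply eq_one_of_dg_eq_zero
    · rw [dg_mul, dg_ex _ (by simp [h0]), dg_neg, h1]
      ring
    · rw [co_mul_empty, ex_co_empty (by simp [h0]), YY_empty, one_mul]
  calc YY t h c n = (ex (EE t h c n) * ex (-(EE t h c n))) * YY t h c n := by
        rw [ex_mul_ex_neg h0, one_mul]
    _ = ex (EE t h c n) * (ex (-(EE t h c n)) * YY t h c n) := by ring
    _ = ex (EE t h c n) := by rw [h2, mul_one]

/-! ## the orbits of a permutation of `A` -/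

theorem ob_univ_eq_iff (θ : Equiv.Perm A) (x y : A) :
    ob θ univ x = ob θ univ y ↔ θ.SameCycle x y := by
  constructor
  · intro h1
    have h2 : y ∈ ob θ univ y := (mem_ob _ _ _ _).2 ⟨mem_univ _, Equiv.Perm.SameCycle.refl _ _⟩
    rw [← h1] at h2
    exact ((mem_ob _ _ _ _).1 h2).2
  · intro h1
    ext z
    rw [mem_ob, mem_ob]
    exact ⟨fun h2 => ⟨h2.1, h1.symm.trans h2.2⟩, fun h2 => ⟨h2.1, h1.trans h2.2⟩⟩

theorem ds_csum (θ : Equiv.Perm A) (c : A → ℤ) (n : ℚ) :
    Pool.Agent.EF.ds n (Pool.Agent.EF.csum θ c) = dP n (ch c) (obs θ univ) := by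
  unfold dP
  have hb : Function.Bijective (fun o : Pool.Agent.EF.Orb θ => Quotient.lift
      (s := Equiv.Perm.SameCycle.setoid θ)
      (fun x => (⟨ob θ univ x, (mem_obs _ _ _).2 ⟨x, mem_univ _, rfl⟩⟩ :
        {T // T ∈ obs θ univ})) (fun x y hxy => Subtype.ext ((ob_univ_eq_iff θ x y).2 hxy)) o) := by
    constructor
    · intro o o'
      induction o using Quotient.inductionOn with
      | _ x =>
        induction o' using Quotient.inductionOn with
        | _ y =>
          intro h1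
          exact Quotient.sound ((ob_univ_eq_iff θ x y).1 (congrArg Subtype.val h1))
    · rintro ⟨T, hT⟩
      obtain ⟨x, _, hx⟩ := (mem_obs _ _ _).1 hT
      exact ⟨Quotient.mk _ x, Subtype.ext hx⟩
  refine ds_congr n _ _ (Equiv.ofBijective _ hb) ?_
  intro o
  induction o using Quotient.inductionOn with
  | _ x =>
    show ch c (ob θ univ x) = Pool.Agent.EF.csum θ c (Quotient.mk _ x)
    classical
    unfold Pool.Agent.EF.csum ch
    rw [← Finset.sum_filter]
    refine Finset.sum_congr ?_ fun _ _ => rfl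
    ext y
    rw [mem_ob, Finset.mem_filter]
    constructor
    · rintro ⟨h1, h2⟩
      exact ⟨h1, Quotient.sound h2.symm⟩
    · rintro ⟨h1, h2⟩
      exact ⟨h1, (Quotient.exact h2 : θ.SameCycle y x).symm⟩

end exc

/-- PIECE `exc` -/
theorem exc : ExcS := by
  intro A _ _ t h c n
  have h1 : ex (n • zz c (NN t h) + pr c (NN t h) (NN t h)) = exc.YY t h c n :=
    (exc.YY_eq t h c n).symm
  rw [h1]
  show _ = ∑ θ ∈ cps t h univ, exc.dP n (ch c) (exc.obs θ univ)
  have h2 : cps t h univ = univ.filter (fun θ : Equiv.Perm A => ∀ a, t (θ a) = h a) := by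
    ext θ
    rw [exc.mem_cps, Finset.mem_filter]
    simp
  rw [h2, Finset.sum_filter]
  refine Finset.sum_congr rfl fun θ _ => ?_
  rw [exc.ds_csum]

end Pool.MP_ef6aaf_al.EF
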