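import Pool.Agent.Lib.MP_ef6aaf_al.EF.QStm

/-!
MP_ef6aaf_al, project EF, piece `fp`: strict positivity at one vertex.
-/

set_option autoImplicit false

namespace Pool.MP_ef6aaf_al.EF

open Finset Sq

/-! ### Combinatorics of the charges -/

theorem fp_num {ι : Type} [DecidableEq ι] (s : Finset ι) (m : ι → ℤ) (i : ι) (hi : i ∈ s) (μ : ℤ)
    (hμ : 1 ≤ μ) (hmi : m i = μ) (hmin : ∀ x ∈ s, μ ≤ |m x|) (hsum : ∑ x ∈ s, m x = 0)
    (hn : (s.card : ℤ) ≤ ∑ x ∈ s, max (m x) 0) :
    (∃ j ∈ s, m j = -μ ∧ 2 ≤ μ ∧ (s.card : ℤ) - 2 ≤ ∑ x ∈ s, max (m x) 0 - μ) ∨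
      (∃ j ∈ s, m j < -μ ∧ (s.card : ℤ) - 1 ≤ ∑ x ∈ s, max (m x) 0 - μ) := by
  set P : ℤ := ∑ x ∈ s, max (m x) 0 with hP
  have hneg : ∑ x ∈ s, max (-m x) 0 = P := by
    have h1 : ∑ x ∈ s, (max (m x) 0 - max (-m x) 0) = ∑ x ∈ s, m x := by
      apply Finset.sum_congr rfl
      intro x _
      rcases le_total (m x) 0 with h | h
      · rw [max_eq_right h, max_eq_left (by linarith)]; ring
      · rw [max_eq_left h, max_eq_right (by linarith)]; ring
    rw [Finset.sum_sub_distrib, hsum] at h1
    linarith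
  set Sp := s.filter (fun x => 0 < m x) with hSp
  set Sn := s.filter (fun x => ¬ 0 < m x) with hSn
  have hSnneg : ∀ x ∈ Sn, m x < 0 := by
    intro x hx
    rw [hSn, mem_filter] at hx
    have h1 := hmin x hx.1
    rcases lt_or_eq_of_le (not_lt.1 hx.2) with h | h
    · exact h
    · rw [h, abs_zero] at h1; omega
  have hcard : (s.card : ℤ) = Sp.card + Sn.card := by
    have := Finset.card_filter_add_card_filter_not (s := s) (fun x => 0 < m x)
    rw [← hSp, ← hSn] at this
    exact_mod_cast this.symm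
  have hPp : P = ∑ x ∈ Sp, m x := by
    rw [hP, ← Finset.sum_filter_add_sum_filter_not s (fun x => 0 < m x)]
    have h1 : ∑ x ∈ s.filter (fun x => ¬ 0 < m x), max (m x) 0 = 0 := by
      apply Finset.sum_eq_zero
      intro x hx
      exact max_eq_right (hSnneg x hx).le
    rw [h1, add_zero]
    apply Finset.sum_congr rfl
    intro x hx
    exact max_eq_left (mem_filter.1 hx).2.le
  have hPn : P = ∑ x ∈ Sn, (-m x) := by
    rw [← hneg, ← Finset.sum_filter_add_sum_filter_not s (fun x => 0 < m x)]
    have h1 : ∑ x ∈ s.filter (fun x => 0 < m x), max (-m x) 0 = 0 := by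
      apply Finset.sum_eq_zero
      intro x hx
      exact max_eq_right (by linarith [(mem_filter.1 hx).2])
    rw [h1, zero_add]
    apply Finset.sum_congr rfl
    intro x hx
    exact max_eq_left (by linarith [hSnneg x hx])
  have hSp1 : μ * Sp.card ≤ P := by
    rw [hPp]
    have h1 : ∑ _x ∈ Sp, μ ≤ ∑ x ∈ Sp, m x := by
      apply Finset.sum_le_sum
      intro x hx
      have h2 := hmin x (mem_filter.1 hx).1
      rwa [abs_of_pos (mem_filter.1 hx).2] at h2
    rwa [Finset.sum_const, nsmul_eq_mul, mul_comm] at h1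
  have hSn0 : ∀ k : ℤ, (∀ x ∈ Sn, k ≤ -m x) → k * Sn.card ≤ P := by
    intro k hk
    rw [hPn]
    have h1 : ∑ _x ∈ Sn, k ≤ ∑ x ∈ Sn, (-m x) := Finset.sum_le_sum hk
    rwa [Finset.sum_const, nsmul_eq_mul, mul_comm] at h1
  have hSnabs : ∀ x ∈ Sn, μ ≤ -m x := by
    intro x hx
    have h2 := hmin x (mem_filter.1 hx).1
    rwa [abs_of_neg (hSnneg x hx)] at h2
  have hSn1 := hSn0 μ hSnabs
  have hiSp : i ∈ Sp := by
    rw [hSp, mem_filter]; exact ⟨hi, by omega⟩
  have hp1 : (1 : ℤ) ≤ Sp.card := by
    have := Finset.card_pos.2 ⟨i, hiSp⟩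
    exact_mod_cast this
  have hPμ : μ ≤ P := by nlinarith
  have hne : Sn.Nonempty := by
    rw [Finset.nonempty_iff_ne_empty]
    intro h
    rw [h, Finset.sum_empty] at hPn
    omega
  have hq1 : (1 : ℤ) ≤ Sn.card := by
    have := Finset.card_pos.2 hne
    exact_mod_cast this
  have hSns : ∀ x ∈ Sn, x ∈ s := fun x hx => (mem_filter.1 hx).1
  by_cases h1 : ∃ j ∈ s, m j = -μ
  · by_cases h2 : 2 ≤ μ
    · left
      obtain ⟨j, hj, hj2⟩ := h1
      refine ⟨j, hj, hj2, h2, ?_⟩
      have h3 : μ * s.card ≤ 2 * P := by rw [hcard]; linarith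
      by_contra hcon
      have h4 : P - s.card ≤ μ - 3 := by omega
      have h5 : (μ - 2) * μ ≤ (μ - 2) * P := mul_le_mul_of_nonneg_left hPμ (by omega)
      have h6 : μ * (P - s.card) ≤ μ * (μ - 3) := mul_le_mul_of_nonneg_left h4 (by omega)
      nlinarith
    · right
      have hμ1 : μ = 1 := by omega
      by_contra hcon
      push Not at hcon
      have h3 : ∀ x ∈ Sn, -m x = 1 := by
        intro x hx
        have h4 := hSnabs x hx
        by_contra h5
        have h6 := hcon x (hSns x hx) (by omega)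
        omega
      rw [Finset.sum_congr rfl h3, Finset.sum_const, nsmul_eq_mul, mul_one] at hPn
      omega
  · right
    push Not at h1
    obtain ⟨j, hj⟩ := hne
    have h2 : ∀ x ∈ Sn, μ + 1 ≤ -m x := by
      intro x hx
      have h3 := hSnabs x hx
      have h4 := h1 x (hSns x hx)
      omega
    refine ⟨j, hSns j hj, by have := h2 j hj; omega, ?_⟩
    have h3 := hSn0 (μ + 1) h2
    rcases eq_or_lt_of_le hμ with h4 | h4
    · omega
    · by_contra hcon
      have h5 : P - s.card ≤ μ - 2 := by omega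
      have h6 : μ + 1 ≤ P := by nlinarith
      have h7 : μ * (μ + 1) * Sp.card ≤ (μ + 1) * P := by
        have := mul_le_mul_of_nonneg_left hSp1 (show 0 ≤ μ + 1 by omega)
        linarith
      have h8 : μ * (μ + 1) * Sn.card ≤ μ * P := by
        have := mul_le_mul_of_nonneg_left h3 (show 0 ≤ μ by omega)
        linarith
      have h9 : μ * (μ + 1) * (P - s.card) ≤ μ * (μ + 1) * (μ - 2) :=
        mul_le_mul_of_nonneg_left h5 (by positivity)
      have h10 : 0 ≤ μ ^ 2 - μ - 1 := by nlinarith
      have h11 : (μ + 1) * (μ ^ 2 - μ - 1) ≤ P * (μ ^ 2 - μ - 1) :=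
        mul_le_mul_of_nonneg_right h6 h10
      have h12 : P * (μ ^ 2 - μ - 1) ≤ μ * (μ + 1) * (P - s.card) := by
        rw [hcard]; nlinarith
      nlinarith

/-- both signs -/
theorem fp_num' {ι : Type} [DecidableEq ι] (s : Finset ι) (m : ι → ℤ) (i : ι) (hi : i ∈ s)
    (hmi : m i ≠ 0) (hmin : ∀ x ∈ s, |m i| ≤ |m x|) (hsum : ∑ x ∈ s, m x = 0)
    (hn : (s.card : ℤ) ≤ ∑ x ∈ s, max (m x) 0) :
    (∃ j ∈ s, m j = -m i ∧ 2 ≤ |m i| ∧ (s.card : ℤ) - 2 ≤ ∑ x ∈ s, max (m x) 0 - |m i|) ∨
      (∃ j ∈ s, ((0 < m i ∧ m j < -m i) ∨ (m i < 0 ∧ -m i < m j)) ∧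
        (s.card : ℤ) - 1 ≤ ∑ x ∈ s, max (m x) 0 - |m i|) := by
  rcases lt_or_gt_of_ne hmi with h | h
  · have hP : ∑ x ∈ s, max (-m x) 0 = ∑ x ∈ s, max (m x) 0 := by
      have h1 : ∑ x ∈ s, (max (m x) 0 - max (-m x) 0) = ∑ x ∈ s, m x := by
        apply Finset.sum_congr rfl
        intro x _
        rcases le_total (m x) 0 with h | h
        · rw [max_eq_right h, max_eq_left (by linarith)]; ring
        · rw [max_eq_left h, max_eq_right (by linarith)]; ring
      rw [Finset.sum_sub_distrib, hsum] at h1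
      linarith
    have hab : |m i| = -m i := abs_of_neg h
    rcases fp_num s (fun x => -m x) i hi (-m i) (by omega) rfl
      (by intro x hx; rw [abs_neg, ← hab]; exact hmin x hx)
      (by rw [Finset.sum_neg_distrib, hsum, neg_zero]) (by rw [hP]; exact hn) with
      ⟨j, hj, e1, e2, e3⟩ | ⟨j, hj, e1, e3⟩
    · left
      rw [hP] at e3
      exact ⟨j, hj, by linarith, by rw [hab]; exact e2, by rw [hab]; exact e3⟩
    · right
      rw [hP] at e3
      exact ⟨j, hj, Or.inr ⟨h, by linarith⟩, by rw [hab]; exact e3⟩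
  · have hab : |m i| = m i := abs_of_pos h
    rcases fp_num s m i hi (m i) (by omega) rfl
      (by intro x hx; rw [← hab]; exact hmin x hx) hsum hn with
      ⟨j, hj, e1, e2, e3⟩ | ⟨j, hj, e1, e3⟩
    · left
      exact ⟨j, hj, e1, by rw [hab]; exact e2, by rw [hab]; exact e3⟩
    · right
      exact ⟨j, hj, Or.inl ⟨h, e1⟩, by rw [hab]; exact e3⟩

theorem fp_ch_union {A : Type} [DecidableEq A] (c : A → ℤ) (S S' : Finset A) (h : Disjoint S S') :
    ch c (S ∪ S') = ch c S + ch c S' := Finset.sum_union h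

theorem fp_split {ι : Type} [DecidableEq ι] {A : Type} (s : Finset ι) (B : ι → Finset A)
    (F : Finset A → ℤ) (i j : ι) (hi : i ∈ s) (hj : j ∈ s) (hij : i ≠ j) :
    ∑ x ∈ s, F (B x) = F (B i) + F (B j) + ∑ x ∈ (s.erase i).erase j, F (B x) := by
  rw [← Finset.add_sum_erase s _ hi, ← Finset.add_sum_erase (s.erase i) _
    (Finset.mem_erase.2 ⟨hij.symm, hj⟩), add_assoc]

theorem fp_upd {ι : Type} [DecidableEq ι] {A : Type} (s : Finset ι) (B : ι → Finset A)
    (F : Finset A → ℤ) (Z : Finset A) (i j : ι) (hj : j ∈ s) (hij : i ≠ j) :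
    ∑ x ∈ s.erase i, F (Function.update B j Z x) = F Z + ∑ x ∈ (s.erase i).erase j, F (B x) := by
  rw [← Finset.add_sum_erase (s.erase i) _ (Finset.mem_erase.2 ⟨hij.symm, hj⟩),
    Function.update_self]
  congr 1
  apply Finset.sum_congr rfl
  intro x hx
  rw [Function.update_of_ne (Finset.mem_erase.1 hx).1]

theorem fp_comb {A : Type} [DecidableEq A] (c : A → ℤ) (gd P : Finset A → Prop)
    (hb : ∀ S S', Disjoint S S' → gd S → gd S' → 0 < ch c S → ch c S' < 0 →
      ch c S + ch c S' ≠ 0 → gd (S ∪ S'))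
    (hc : ∀ S S', Disjoint S S' → gd S → gd S' → 2 ≤ ch c S → ch c S' = -ch c S → P (S ∪ S'))
    (hd : ∀ S S', Disjoint S S' → P S → P S' → P (S ∪ S'))
    {ι : Type} [DecidableEq ι] :
    ∀ (n : ℕ) (s : Finset ι) (B : ι → Finset A), s.card = n → s.Nonempty →
      (∀ i ∈ s, ∀ j ∈ s, i ≠ j → Disjoint (B i) (B j)) → (∀ i ∈ s, gd (B i)) →
      (∀ i ∈ s, ch c (B i) ≠ 0) → ∑ i ∈ s, ch c (B i) = 0 →
      ((s.card : ℤ) ≤ ∑ i ∈ s, max (ch c (B i)) 0) → P (s.biUnion B) := by
  intro n
  induction n using Nat.strong_induction_on with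
  | _ n ih =>
    intro s B hcard hne hdis hgd hch hsum hn
    obtain ⟨i, hi, hmin⟩ := Finset.exists_min_image s (fun x => |ch c (B x)|) hne
    rcases fp_num' s (fun x => ch c (B x)) i hi (hch i hi) hmin hsum hn with
      ⟨j, hj, e1, e2, e3⟩ | ⟨j, hj, e1, e3⟩
    · -- a pair
      have hij : i ≠ j := by
        rintro rfl
        have := hch i hi
        omega
      have hDij := hdis i hi j hj hij
      have hPij : P (B i ∪ B j) := by
        rcases lt_or_gt_of_ne (hch i hi) with h | h
        · rw [Finset.union_comm]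
          refine hc _ _ hDij.symm (hgd j hj) (hgd i hi) ?_ ?_
          · rw [abs_of_neg h] at e2; omega
          · omega
        · refine hc _ _ hDij (hgd i hi) (hgd j hj) ?_ ?_
          · rw [abs_of_pos h] at e2; exact e2
          · exact e1
      have hun : s.biUnion B = (B i ∪ B j) ∪ ((s.erase i).erase j).biUnion B := by
        ext a
        simp only [mem_biUnion, mem_union, mem_erase]
        constructor
        · rintro ⟨x, hx, ha⟩
          by_cases h1 : x = i
          · subst h1; exact Or.inl (Or.inl ha)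
          · by_cases h2 : x = j
            · subst h2; exact Or.inl (Or.inr ha)
            · exact Or.inr ⟨x, ⟨h2, h1, hx⟩, ha⟩
        · rintro ((ha | ha) | ⟨x, hx, ha⟩)
          · exact ⟨i, hi, ha⟩
          · exact ⟨j, hj, ha⟩
          · exact ⟨x, hx.2.2, ha⟩
      rw [hun]
      have hjs : j ∈ s.erase i := Finset.mem_erase.2 ⟨hij.symm, hj⟩
      have hc2 : ((s.erase i).erase j).card = s.card - 2 := by
        rw [Finset.card_erase_of_mem hjs, Finset.card_erase_of_mem hi]; omega
      have hc3 : 2 ≤ s.card := by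
        have := Finset.card_le_card (show ({i, j} : Finset ι) ⊆ s by
          intro x hx
          rcases Finset.mem_insert.1 hx with rfl | hx
          · exact hi
          · rw [Finset.mem_singleton.1 hx]; exact hj)
        rwa [Finset.card_pair hij] at this
      rcases Finset.eq_empty_or_nonempty ((s.erase i).erase j) with he | hne2
      · rw [he, Finset.biUnion_empty, Finset.union_empty]
        exact hPij
      · have hsub : ∀ x ∈ (s.erase i).erase j, x ∈ s := fun x hx =>
          (Finset.mem_erase.1 (Finset.mem_erase.1 hx).2).2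
        refine hd _ _ ?_ hPij (ih _ (by rw [← hcard, hc2]; omega) _ B rfl hne2
          (fun x hx y hy hxy => hdis x (hsub x hx) y (hsub y hy) hxy)
          (fun x hx => hgd x (hsub x hx)) (fun x hx => hch x (hsub x hx)) ?_ ?_)
        · rw [Finset.disjoint_biUnion_right]
          intro x hx
          have hx1 := Finset.mem_erase.1 hx
          have hx2 := Finset.mem_erase.1 hx1.2
          rw [Finset.disjoint_union_left]
          exact ⟨hdis i hi x hx2.2 (Ne.symm hx2.1), hdis j hj x hx2.2 (Ne.symm hx1.1)⟩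
        · have := fp_split s B (fun S => ch c S) i j hi hj hij
          rw [hsum] at this
          omega
        · have := fp_split s B (fun S => max (ch c S) 0) i j hi hj hij
          rw [this] at e3
          rw [hc2]
          have h5 : max (ch c (B i)) 0 + max (ch c (B j)) 0 = |ch c (B i)| := by
            rcases lt_or_gt_of_ne (hch i hi) with h | h
            · rw [max_eq_right h.le, max_eq_left (by omega), abs_of_neg h]; omega
            · rw [max_eq_left h.le, max_eq_right (by omega), abs_of_pos h]; omega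
          push_cast [Nat.cast_sub hc3]
          omega
    · -- merge
      have hij : i ≠ j := by
        rintro rfl
        omega
      have hDij := hdis i hi j hj hij
      have hjs : j ∈ s.erase i := Finset.mem_erase.2 ⟨hij.symm, hj⟩
      set Z := B i ∪ B j with hZ
      have hchZ : ch c Z = ch c (B i) + ch c (B j) := fp_ch_union c _ _ hDij
      have hgZ : gd Z := by
        rcases e1 with ⟨h1, h2⟩ | ⟨h1, h2⟩
        · exact hb _ _ hDij (hgd i hi) (hgd j hj) h1 (by omega)
            (by omega)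
        · rw [hZ, Finset.union_comm]
          exact hb _ _ hDij.symm (hgd j hj) (hgd i hi) (by omega) h1
            (by omega)
      have hZ0 : ch c Z ≠ 0 := by
        rw [hchZ]; omega
      have hun : s.biUnion B = (s.erase i).biUnion (Function.update B j Z) := by
        ext a
        simp only [mem_biUnion, mem_erase]
        constructor
        · rintro ⟨x, hx, ha⟩
          by_cases h1 : x = i
          · subst h1
            refine ⟨j, ⟨hij.symm, hj⟩, ?_⟩
            rw [Function.update_self]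
            exact Finset.mem_union_left _ ha
          · by_cases h2 : x = j
            · subst h2
              refine ⟨x, ⟨h1, hx⟩, ?_⟩
              rw [Function.update_self]
              exact Finset.mem_union_right _ ha
            · refine ⟨x, ⟨h1, hx⟩, ?_⟩
              rw [Function.update_of_ne h2]
              exact ha
        · rintro ⟨x, ⟨h1, hx⟩, ha⟩
          by_cases h2 : x = j
          · subst h2
            rw [Function.update_self] at ha
            rcases Finset.mem_union.1 ha with ha | ha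
            · exact ⟨i, hi, ha⟩
            · exact ⟨x, hx, ha⟩
          · rw [Function.update_of_ne h2] at ha
            exact ⟨x, hx, ha⟩
      rw [hun]
      have hc2 : (s.erase i).card = s.card - 1 := Finset.card_erase_of_mem hi
      have hc3 : 1 ≤ s.card := Finset.card_pos.2 hne
      have hsub : ∀ x ∈ s.erase i, x ∈ s := fun x hx => (Finset.mem_erase.1 hx).2
      have hni : ∀ x ∈ s.erase i, x ≠ i := fun x hx => (Finset.mem_erase.1 hx).1
      refine ih _ (by rw [← hcard, hc2]; omega) _ _ rfl ⟨j, hjs⟩ ?_ ?_ ?_ ?_ ?_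
      · have key : ∀ x ∈ s.erase i, x ≠ j → Disjoint Z (B x) := by
          intro x hx hxj
          rw [hZ, Finset.disjoint_union_left]
          exact ⟨hdis i hi x (hsub x hx) (Ne.symm (hni x hx)), hdis j hj x (hsub x hx) (Ne.symm hxj)⟩
        intro x hx y hy hxy
        by_cases h1 : x = j
        · subst h1
          rw [Function.update_self, Function.update_of_ne (Ne.symm hxy)]
          exact key y hy (Ne.symm hxy)
        · rw [Function.update_of_ne h1]
          by_cases h2 : y = j
          · subst h2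
            rw [Function.update_self]
            exact (key x hx h1).symm
          · rw [Function.update_of_ne h2]
            exact hdis x (hsub x hx) y (hsub y hy) hxy
      · intro x hx
        by_cases h1 : x = j
        · subst h1; rw [Function.update_self]; exact hgZ
        · rw [Function.update_of_ne h1]; exact hgd x (hsub x hx)
      · intro x hx
        by_cases h1 : x = j
        · subst h1; rw [Function.update_self]; exact hZ0
        · rw [Function.update_of_ne h1]; exact hch x (hsub x hx)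
      · have h1 := fp_split s B (fun S => ch c S) i j hi hj hij
        have h2 := fp_upd s B (fun S => ch c S) Z i j hj hij
        rw [h2, hchZ, ← h1, hsum]
      · have h1 := fp_split s B (fun S => max (ch c S) 0) i j hi hj hij
        have h2 := fp_upd s B (fun S => max (ch c S) 0) Z i j hj hij
        rw [h2, hc2]
        rw [h1] at e3
        have h5 : max (ch c Z) 0 = max (ch c (B i)) 0 + max (ch c (B j)) 0 - |ch c (B i)| := by
          rw [hchZ]
          rcases e1 with ⟨h1, h2⟩ | ⟨h1, h2⟩
          · rw [max_eq_left h1.le, max_eq_right (by omega), max_eq_right (by omega),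
              abs_of_pos h1]; omega
          · rw [max_eq_right h1.le, max_eq_left (by omega), max_eq_left (by omega),
              abs_of_neg h1]; omega
        push_cast [Nat.cast_sub hc3]
        omega

/-! ### The algebra -/

theorem fp_mul_ge {A : Type} [DecidableEq A] {x y : Sq A} (hx : 0 ≤ x) (hy : 0 ≤ y)
    (S S' : Finset A) (h : Disjoint S S') : x.co S * y.co S' ≤ (x * y).co (S ∪ S') := by
  rw [co_mul]
  have h1 : (S ∪ S') \ S = S' := Finset.union_sdiff_cancel_left h
  have h2 : x.co S * y.co ((S ∪ S') \ S) ≤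
      ∑ T ∈ (S ∪ S').powerset, x.co T * y.co ((S ∪ S') \ T) :=
    Finset.single_le_sum (f := fun T => x.co T * y.co ((S ∪ S') \ T))
      (fun T _ => mul_nonneg (hx T) (hy _)) (Finset.mem_powerset.2 Finset.subset_union_left)
  rwa [h1] at h2

theorem fp_half {A : Type} [DecidableEq A] [Fintype A] {W : Sq A} (hW : 0 ≤ W) (S : Finset A)
    (h : 0 < (ex W).co S) : 0 < (ex ((1 / 2 : ℚ) • W)).co S := by
  rw [ex, co_sum] at h ⊢
  obtain ⟨k, hk, hk2⟩ : ∃ k ∈ range (Fintype.card A + 1),
      0 < (((k.factorial : ℚ)⁻¹) • W ^ k).co S := by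
    by_contra hcon
    push Not at hcon
    exact absurd h (not_lt.2 (Finset.sum_nonpos hcon))
  have hV : 0 ≤ (1 / 2 : ℚ) • W := smul_nn (by norm_num) hW
  have hnn : ∀ k ∈ range (Fintype.card A + 1),
      (0 : ℚ) ≤ ((k.factorial : ℚ)⁻¹) * (((1 / 2 : ℚ) • W) ^ k).co S := by
    intro k _
    have h1 := pow_nn hV k S
    rw [co_zero] at h1
    positivity
  have hle := Finset.single_le_sum hnn hk
  simp only [co_smul]
  refine lt_of_lt_of_le ?_ hle
  rw [smul_pow, co_smul]
  rw [co_smul] at hk2
  have h3 : 0 < (W ^ k).co S := by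
    have h4 := pow_nn hW k S
    rw [co_zero] at h4
    rcases lt_or_eq_of_le h4 with h5 | h5
    · exact h5
    · exfalso
      rw [← h5, mul_zero] at hk2
      exact lt_irrefl _ hk2
  positivity

theorem fp_ex_mul {A : Type} [DecidableEq A] [Fintype A] {W : Sq A} (hW : 0 ≤ W)
    (hW0 : W.co ∅ = 0) (S S' : Finset A) (hD : Disjoint S S') (h : 0 < (ex W).co S)
    (h' : 0 < (ex W).co S') : 0 < (ex W).co (S ∪ S') := by
  have h1 : ex W = ex ((1 / 2 : ℚ) • W) * ex ((1 / 2 : ℚ) • W) := by
    rw [← ex_add (by simp [hW0]) (by simp [hW0]), ← add_smul]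
    norm_num
  have hV : 0 ≤ (1 / 2 : ℚ) • W := smul_nn (by norm_num) hW
  have h2 := fp_half hW S h
  have h3 := fp_half hW S' h'
  rw [h1]
  exact lt_of_lt_of_le (mul_pos h2 h3) (fp_mul_ge (ex_nn hV) (ex_nn hV) S S' hD)

theorem fp (hh : HatS) (hk : KjS) : FpS := by
  intro A _ _ c T hT0 hT ι _ _ _ B hdis hpos hne hsum hn
  obtain ⟨⟨hf, hg⟩, -, hnn, -⟩ := hh A c T hT0
  obtain ⟨hf0, hg0⟩ := hnn hT
  set f := fh c T with hfdef
  set g := gh c T with hgdef
  have hfg : 0 ≤ f * g := mul_nn hf0 hg0
  have hfp : f = pp c f := by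
    ext S
    show f.co S = if 0 < ch c S then f.co S else 0
    split_ifs with h
    · rfl
    · rw [hf]
      show (if 0 < ch c S then (T + f * g).co S else 0) = 0
      rw [if_neg h]
  have hgn : g = nn c g := by
    ext S
    show g.co S = if ch c S < 0 then g.co S else 0
    split_ifs with h
    · rfl
    · rw [hg]
      show (if ch c S < 0 then (T + f * g).co S else 0) = 0
      rw [if_neg h]
  obtain ⟨W, hW, hW0, hWex, hWpq⟩ := hk A c f g hf0 hg0 hfp hgn
  have hJ : Jh c T = ex W := hWex
  rw [hJ]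
  have hfco : ∀ S, 0 < ch c S → f.co S = T.co S + (f * g).co S := by
    intro S hS
    conv_lhs => rw [hf]
    show (if 0 < ch c S then (T + f * g).co S else 0) = _
    rw [if_pos hS, co_add]
  have hgco : ∀ S, ch c S < 0 → g.co S = T.co S + (f * g).co S := by
    intro S hS
    conv_lhs => rw [hg]
    show (if ch c S < 0 then (T + f * g).co S else 0) = _
    rw [if_pos hS, co_add]
  let gd : Finset A → Prop := fun S => (0 < ch c S → 0 < f.co S) ∧ (ch c S < 0 → 0 < g.co S)
  have hTgd : ∀ S, 0 < T.co S → gd S := by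
    intro S hS
    refine ⟨fun h => ?_, fun h => ?_⟩
    · rw [hfco S h]; have := hfg S; simp only [co_zero] at this; linarith
    · rw [hgco S h]; have := hfg S; simp only [co_zero] at this; linarith
  refine fp_comb c gd (fun S => 0 < (ex W).co S) ?_ ?_ ?_ (Fintype.card ι) univ B rfl
    univ_nonempty (fun i _ j _ h => hdis i j h) (fun i _ => hTgd _ (hpos i)) (fun i _ => hne i)
    hsum (by rw [Finset.card_univ]; exact hn)
  · intro S S' hD hS hS' h1 h2 _
    have h3 : 0 < f.co S * g.co S' := mul_pos (hS.1 h1) (hS'.2 h2)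
    have h4 := fp_mul_ge hf0 hg0 S S' hD
    have h5 := hT (S ∪ S')
    simp only [co_zero] at h5
    refine ⟨fun h => ?_, fun h => ?_⟩
    · rw [hfco _ h]; linarith
    · rw [hgco _ h]; linarith
  · intro S S' hD hS hS' h1 h2
    have h3 : 0 < f.co S * g.co S' := mul_pos (hS.1 (by omega)) (hS'.2 (by omega))
    have h4 := one_add_le_ex hW hW0 (S ∪ S')
    have h5 := one_nn (A := A) (S ∪ S')
    have h6 := hWpq (S ∪ S')
    simp only [co_add, co_zero] at h4 h5
    have h7 : (pq c f g).co (S ∪ S') = ∑ T ∈ (S ∪ S').powerset,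
        ((max (ch c T - 1) 0 : ℤ) : ℚ) * f.co T * g.co ((S ∪ S') \ T) := by
      show (if ch c (S ∪ S') = 0 then _ else 0) = _
      rw [if_pos (by rw [fp_ch_union c S S' hD, h2]; ring)]
    have h8 : ((max (ch c S - 1) 0 : ℤ) : ℚ) * f.co S * g.co ((S ∪ S') \ S) ≤
        ∑ T ∈ (S ∪ S').powerset,
        ((max (ch c T - 1) 0 : ℤ) : ℚ) * f.co T * g.co ((S ∪ S') \ T) :=
      Finset.single_le_sum
        (f := fun T => ((max (ch c T - 1) 0 : ℤ) : ℚ) * f.co T * g.co ((S ∪ S') \ T))
        (fun T _ => mul_nonneg (mul_nonneg (by exact_mod_cast le_max_right _ _) (hf0 T)) (hg0 _))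
        (Finset.mem_powerset.2 Finset.subset_union_left)
    rw [Finset.union_sdiff_cancel_left hD, max_eq_left (by omega)] at h8
    have h9 : (1 : ℚ) ≤ ((ch c S - 1 : ℤ) : ℚ) := by exact_mod_cast (by omega : (1 : ℤ) ≤ ch c S - 1)
    have h10 : f.co S * g.co S' ≤ ((ch c S - 1 : ℤ) : ℚ) * f.co S * g.co S' := by
      rw [mul_assoc]
      exact le_mul_of_one_le_left h3.le h9
    show 0 < (ex W).co (S ∪ S')
    linarith
  · intro S S' hD h1 h2
    exact fp_ex_mul hW hW0 S S' hD h1 h2

end Pool.MP_ef6aaf_al.EF
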