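import Pool.Agent.Lib.MP_ef6aaf_al.EF.QStm
import Pool.Agent.Lib.MP_ef6aaf_al.EF.QCharge

/-!
# Piece `kj`: `J = E/S` is the exponential of a nonnegative element

The Kronecker product of two companion matrices with the state `(0, 0)` removed.
-/

set_option autoImplicit false
set_option linter.unusedSectionVars false
set_option linter.unusedVariables false

namespace Pool.MP_ef6aaf_al.EF

open Finset Sq Matrix

namespace kj

variable {A : Type} [DecidableEq A]

/-! ### a recursion and its exponential -/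

/-- multiply the coefficient number `m` by `m` -/
noncomputable def Dq (s : PowerSeries (Sq A)) : PowerSeries (Sq A) :=
  PowerSeries.mk fun m => (m : ℚ) • PowerSeries.coeff m s

/-- degree derivation coefficientwise -/
noncomputable def Dd [Fintype A] (s : PowerSeries (Sq A)) : PowerSeries (Sq A) :=
  PowerSeries.mk fun m => dg univ (PowerSeries.coeff m s)

theorem Dq_mul (s t : PowerSeries (Sq A)) : Dq (s * t) = Dq s * t + s * Dq t := by
  ext1 m
  simp only [Dq, PowerSeries.coeff_mk, map_add, PowerSeries.coeff_mul, Finset.smul_sum,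
    ← Finset.sum_add_distrib]
  refine Finset.sum_congr rfl fun p hp => ?_
  have hp' := HasAntidiagonal.mem_antidiagonal.1 hp
  rw [smul_mul_assoc, mul_smul_comm, ← add_smul, ← Nat.cast_add, hp']

theorem Dd_mul [Fintype A] (s t : PowerSeries (Sq A)) : Dd (s * t) = Dd s * t + s * Dd t := by
  ext1 m
  simp only [Dd, PowerSeries.coeff_mk, map_add, PowerSeries.coeff_mul, dg_sum, dg_mul,
    ← Finset.sum_add_distrib]

theorem Dq_Dd [Fintype A] (s : PowerSeries (Sq A)) : Dq (Dd s) = Dd (Dq s) := by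
  ext1 m
  simp only [Dq, Dd, PowerSeries.coeff_mk, dg_smul]

theorem Dq_sub (s t : PowerSeries (Sq A)) : Dq (s - t) = Dq s - Dq t := by
  ext1 m
  simp only [Dq, PowerSeries.coeff_mk, map_sub, smul_sub]

/-- `m a_m = sum_{j=1}^m y_j a_{m-j}`, `a_0 = 0` implies `a = 0` -/
theorem rec_zero (a y : PowerSeries (Sq A)) (hy : PowerSeries.coeff 0 y = 0)
    (ha : PowerSeries.coeff 0 a = 0) (h : Dq a = y * a) : a = 0 := by
  ext1 m
  rw [map_zero]
  induction m using Nat.strong_induction_on with
  | _ m ih =>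
    rcases Nat.eq_zero_or_pos m with h0 | h0
    · rw [h0, ha]
    · have h1 := congrArg (PowerSeries.coeff m) h
      rw [PowerSeries.coeff_mul, Dq, PowerSeries.coeff_mk, Finset.sum_eq_zero] at h1
      · have hm : (m : ℚ) ≠ 0 := by
          rw [Nat.cast_ne_zero]; omega
        have h2 : (m : ℚ)⁻¹ • ((m : ℚ) • PowerSeries.coeff m a) = (m : ℚ)⁻¹ • (0 : Sq A) := by
          rw [h1]
        rwa [smul_smul, inv_mul_cancel₀ hm, one_smul, smul_zero] at h2
      · intro p hp
        have hp' := HasAntidiagonal.mem_antidiagonal.1 hp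
        rcases Nat.eq_zero_or_pos p.1 with h2 | h2
        · rw [h2, hy, zero_mul]
        · rw [ih p.2 (by omega), mul_zero]

/-- finitely supported coefficients: evaluation at 1 is multiplicative -/
theorem sum_conv {R : Type*} [CommRing R] (N : ℕ) (u v w : ℕ → R) (hu : ∀ m, N ≤ m → u m = 0)
    (hv : ∀ m, N ≤ m → v m = 0) (hw : ∀ m, N ≤ m → w m = 0)
    (h : ∀ m, w m = ∑ p ∈ HasAntidiagonal.antidiagonal m, u p.1 * v p.2) :
    ∑ m ∈ range N, w m = (∑ m ∈ range N, u m) * (∑ m ∈ range N, v m) := by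
  classical
  have key : ∀ (a : ℕ → R), (∀ m, N ≤ m → a m = 0) →
      ∀ m, (∑ i ∈ range N, Polynomial.C (a i) * Polynomial.X ^ i).coeff m = a m := by
    intro a ha m
    rw [Polynomial.finsetSum_coeff]
    simp only [Polynomial.coeff_C_mul, Polynomial.coeff_X_pow]
    by_cases hm : m < N
    · rw [Finset.sum_eq_single m]
      · simp
      · intro b _ hb
        simp [Ne.symm hb]
      · intro h; exact absurd (Finset.mem_range.2 hm) h
    · rw [Finset.sum_eq_zero, ha m (by omega)]
      intro b hb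
      have : m ≠ b := by
        have := Finset.mem_range.1 hb; omega
      simp [this]
  have h1 : (∑ i ∈ range N, Polynomial.C (w i) * Polynomial.X ^ i)
      = (∑ i ∈ range N, Polynomial.C (u i) * Polynomial.X ^ i) *
        (∑ i ∈ range N, Polynomial.C (v i) * Polynomial.X ^ i) := by
    ext1 m
    rw [key w hw m, Polynomial.coeff_mul, h m]
    exact Finset.sum_congr rfl fun p _ => by rw [key u hu, key v hv]
  have h2 := congrArg (Polynomial.eval 1) h1
  simpa [Polynomial.eval_finsetSum] using h2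

/-- **general lemma**: `m h_m = sum_{j=1}^m y_j h_{m-j}` with finite supports gives
`sum h_m = exp (sum y_j / j)`. -/
theorem rec_exp [Fintype A] (N : ℕ) (h y : ℕ → Sq A) (h0 : h 0 = 1) (y0 : y 0 = 0)
    (hrec : ∀ m : ℕ, (m : ℚ) • h m = ∑ p ∈ HasAntidiagonal.antidiagonal m, y p.1 * h p.2)
    (hN : ∀ m, N ≤ m → h m = 0) (yN : ∀ m, N ≤ m → y m = 0) (N0 : 0 < N)
    (hc : ∀ m, 1 ≤ m → (h m).co ∅ = 0) :
    (∑ m ∈ range N, ((m : ℚ)⁻¹) • y m).co ∅ = 0 ∧
    ∑ m ∈ range N, h m = ex (∑ m ∈ range N, ((m : ℚ)⁻¹) • y m) := by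
  have yc : ∀ m, (y m).co ∅ = 0 := by
    intro m
    rcases Nat.eq_zero_or_pos m with hm | hm
    · rw [hm, y0]; rfl
    · have h1 := congrArg (fun z => co z ∅) (hrec m)
      simp only [co_smul, co_sum, co_mul_empty, hc m hm, mul_zero] at h1
      rw [Finset.sum_eq_single (m, 0)] at h1
      · simpa [h0] using h1.symm
      · intro p hp hne
        have hp' := HasAntidiagonal.mem_antidiagonal.1 hp
        have : 1 ≤ p.2 := by
          by_contra h2
          apply hne
          ext
          · show p.1 = m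
            omega
          · show p.2 = 0
            omega
        rw [hc _ this, mul_zero]
      · intro hne
        exact absurd (HasAntidiagonal.mem_antidiagonal.2 (by simp)) hne
  have Zc : (∑ m ∈ range N, ((m : ℚ)⁻¹) • y m).co ∅ = 0 := by
    simp [co_sum, yc]
  refine ⟨Zc, ?_⟩
  -- the power series
  set H : PowerSeries (Sq A) := PowerSeries.mk h with hH
  set Y : PowerSeries (Sq A) := PowerSeries.mk y with hY
  set Z : PowerSeries (Sq A) := PowerSeries.mk fun m => ((m : ℚ)⁻¹) • y m with hZ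
  have e1 : Dq H = Y * H := by
    ext1 m
    rw [Dq, PowerSeries.coeff_mk, PowerSeries.coeff_mul]
    simp only [hH, hY, PowerSeries.coeff_mk]
    exact hrec m
  have e2 : Dq Z = Y := by
    ext1 m
    simp only [Dq, hZ, hY, PowerSeries.coeff_mk, smul_smul]
    rcases Nat.eq_zero_or_pos m with hm | hm
    · rw [hm, y0, smul_zero]
    · rw [mul_inv_cancel₀ (by rw [Nat.cast_ne_zero]; omega), one_smul]
  have e3 : Dd H - Dd Z * H = 0 := by
    apply rec_zero _ Y
    · simp [hY, y0]
    · rw [map_sub, PowerSeries.coeff_mul]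
      simp [Dd, hH, hZ, h0]
    · rw [Dq_sub, Dq_mul, Dq_Dd, Dq_Dd, e1, e2, Dd_mul]
      ring
  have e4 : ∀ m, dg univ (h m) = ∑ p ∈ HasAntidiagonal.antidiagonal m,
      dg univ (((p.1 : ℚ)⁻¹) • y p.1) * h p.2 := by
    intro m
    have := congrArg (PowerSeries.coeff m) (sub_eq_zero.1 e3)
    rw [PowerSeries.coeff_mul] at this
    simpa [Dd, hH, hZ] using this
  have e5 := sum_conv N (fun m => dg univ (((m : ℚ)⁻¹) • y m)) h (fun m => dg univ (h m))
    (fun m hm => by simp [yN m hm]) hN (fun m hm => by simp [hN m hm]) e4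
  rw [← dg_sum, ← dg_sum] at e5
  set HH := ∑ m ∈ range N, h m with hHH
  set ZZ := ∑ m ∈ range N, ((m : ℚ)⁻¹) • y m with hZZ
  have Hc : HH.co ∅ = 1 := by
    rw [hHH, co_sum, Finset.sum_eq_single 0]
    · rw [h0]; simp
    · intro b _ hb
      exact hc b (by omega)
    · intro h; exact absurd (Finset.mem_range.2 N0) h
  have e6 : HH * ex (-ZZ) = 1 := by
    apply eq_one_of_dg_eq_zero
    · rw [dg_mul, dg_ex _ (by simp [Zc]), dg_neg, e5]
      ring
    · rw [co_mul_empty, Hc, ex_co_empty (by simp [Zc]), one_mul]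
  calc HH = HH * (ex (-ZZ) * ex ZZ) := by
        rw [mul_comm (ex (-ZZ)), ex_mul_ex_neg Zc, mul_one]
    _ = ex ZZ := by rw [← mul_assoc, e6, one_mul]

/-! ### components -/

theorem cm_co (c : A → ℤ) (j : ℤ) (x : Sq A) (S : Finset A) :
    (cm c j x).co S = if ch c S = j then x.co S else 0 := rfl

theorem cm_wt (c : A → ℤ) (j : ℤ) (w : ℤ → ℚ) (x : Sq A) : cm c j (wt w c x) = w j • cm c j x := by
  ext S
  rw [cm_co, co_smul, cm_co, wt_co]
  split_ifs with h
  · rw [h]
  · rw [mul_zero]

theorem cm_nn {c : A → ℤ} {x : Sq A} (hx : 0 ≤ x) (j : ℤ) : 0 ≤ cm c j x := fun S => by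
  rw [cm_co]
  split_ifs
  · exact hx S
  · exact le_rfl

theorem ch_neg (c : A → ℤ) (S : Finset A) : ch (fun a => - c a) S = - ch c S := by
  simp [ch]

theorem cm_neg (c : A → ℤ) (j : ℤ) (x : Sq A) : cm (fun a => - c a) j x = cm c (-j) x := by
  ext S
  rw [cm_co, cm_co, ch_neg]
  have : (- ch c S = j) ↔ (ch c S = -j) := by omega
  simp only [this]

/-- charge zero part of a product -/
theorem zz_mul_eq (c : A → ℤ) (K : ℕ) (x y : Sq A) (hx : Su (fun k => 0 ≤ k ∧ k < K) c x) :
    zz c (x * y) = ∑ j ∈ range K, cm c j x * cm c (-(j : ℤ)) y := by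
  ext S
  rw [co_sum]
  simp only [co_mul]
  rw [Finset.sum_comm]
  show (if ch c S = 0 then (x * y).co S else 0) = _
  have hT : ∀ T ∈ S.powerset, ch c T + ch c (S \ T) = ch c S :=
    fun T hT => ch_sdiff c (Finset.mem_powerset.1 hT)
  split_ifs with h
  · rw [co_mul]
    refine Finset.sum_congr rfl fun T hT' => ?_
    have h1 := hT T hT'
    by_cases h2 : x.co T = 0
    · rw [h2, zero_mul, Finset.sum_eq_zero]
      intro j _
      rw [cm_co, h2]
      simp
    · obtain ⟨h3, h4⟩ := hx T h2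
      rw [Finset.sum_eq_single (ch c T).toNat]
      · rw [cm_co, cm_co, if_pos (by omega), if_pos (by omega)]
      · intro j _ hj
        rw [cm_co, if_neg (by omega), zero_mul]
      · intro hj
        exact absurd (Finset.mem_range.2 (by omega)) hj
  · symm
    refine Finset.sum_eq_zero fun T hT' => Finset.sum_eq_zero fun j _ => ?_
    have h1 := hT T hT'
    rw [cm_co, cm_co]
    by_cases h2 : ch c T = j
    · rw [if_neg (show ¬ ch c (S \ T) = -(j : ℤ) by omega), mul_zero]
    · rw [if_neg h2, zero_mul]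

theorem pq_eq (c : A → ℤ) (x y : Sq A) :
    pq c x y = zz c (wt (fun k => ((max (k - 1) 0 : ℤ) : ℚ)) c x * y) := by
  ext S
  show (if ch c S = 0 then _ else 0) = (if ch c S = 0 then _ else 0)
  rw [co_mul]
  rfl

theorem Su_one (c : A → ℤ) : Su (fun k => 0 ≤ k) c (1 : Sq A) :=
  (Z0.one c).mono fun k hk => by omega

theorem Su_pow {c : A → ℤ} {x : Sq A} (hx : Su (fun k => 0 ≤ k) c x) (k : ℕ) :
    Su (fun k => 0 ≤ k) c (x ^ k) := by
  induction k with
  | zero => rw [pow_zero]; exact Su_one c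
  | succ k ih =>
    rw [pow_succ]
    exact Su.mul ih hx (by intro i j hi hj; omega)

theorem Su_iv [Fintype A] {c : A → ℤ} {x : Sq A} (hx : Pos c x) :
    Su (fun k => 0 ≤ k) c (iv (1 - x)) := by
  rw [iv]
  refine Su.sum _ _ fun k _ => ?_
  rw [sub_sub_cancel]
  exact Su_pow (hx.mono fun k hk => by omega) k

theorem Su_dg {φ : ℤ → Prop} {c : A → ℤ} {x : Sq A} (Y : Finset A) (hx : Su φ c x) :
    Su φ c (dg Y x) := fun S hS => hx S fun e => hS (by
  show ((S ∩ Y).card : ℚ) * x.co S = 0
  rw [e, mul_zero])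

theorem Pos_lg [Fintype A] {c : A → ℤ} {x : Sq A} (hx : Pos c x) : Pos c (lg (iv (1 - x))) := by
  intro S hS
  have h1 : Pos c (iv (1 - x) * dg univ x) :=
    Su.mul (Su_iv hx) (Su_dg univ hx) (by intro i j hi hj; omega)
  rw [← dg_lg_iv_one_sub hx.co_empty] at h1
  apply h1 S
  show ((S ∩ univ).card : ℚ) * (lg (iv (1 - x))).co S ≠ 0
  refine mul_ne_zero ?_ hS
  rw [inter_univ, Nat.cast_ne_zero]
  intro h2
  rw [Finset.card_eq_zero] at h2
  rw [h2, lg_co_empty] at hS
  exact hS rfl

theorem Neg_iff (c : A → ℤ) (x : Sq A) : Neg c x ↔ Pos (fun a => - c a) x := by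
  constructor
  · intro h S hS
    have := h S hS
    show 0 < ch _ S
    rw [ch_neg]; omega
  · intro h S hS
    have : 0 < ch _ S := h S hS
    rw [ch_neg] at this
    show ch c S < 0
    omega

/-! ### matrices -/

variable {n : Type} [Fintype n] [DecidableEq n]

theorem mpow_nn {M : Matrix n n (Sq A)} (hM : ∀ i j, 0 ≤ M i j) (m : ℕ) (i j : n) :
    0 ≤ (M ^ m) i j := by
  induction m generalizing i j with
  | zero =>
    rw [pow_zero, Matrix.one_apply]
    split_ifs
    · exact one_nn
    · exact le_refl _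
  | succ m ih =>
    rw [pow_succ, Matrix.mul_apply]
    exact sum_nn _ _ fun k _ => mul_nn (ih i k) (hM k j)

theorem prod_nn {ι : Type*} (s : Finset ι) (x : ι → Sq A) (hx : ∀ i ∈ s, 0 ≤ x i) :
    0 ≤ ∏ i ∈ s, x i := by
  classical
  induction s using Finset.induction_on with
  | empty => simpa using (one_nn : (0 : Sq A) ≤ 1)
  | insert a s ha ih =>
    rw [Finset.prod_insert ha]
    exact mul_nn (hx a (Finset.mem_insert_self a s))
      (ih fun i hi => hx i (Finset.mem_insert_of_mem hi))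

theorem path_le {M : Matrix n n (Sq A)} (hM : ∀ i j, 0 ≤ M i j) (v : ℕ → n) (m : ℕ) :
    ∏ s ∈ range m, M (v s) (v (s + 1)) ≤ (M ^ m) (v 0) (v m) := by
  induction m with
  | zero => simp
  | succ m ih =>
    rw [Finset.prod_range_succ, pow_succ, Matrix.mul_apply]
    refine le_trans (mul_le (prod_nn _ _ fun i _ => hM _ _) ih (hM _ _) (le_refl _)) ?_
    intro S
    rw [co_sum]
    exact Finset.single_le_sum (f := fun k => ((M ^ m) (v 0) k * M k (v (m + 1))).co S)
      (fun k _ => mul_nn (mpow_nn hM m (v 0) k) (hM k (v (m + 1))) S) (Finset.mem_univ (v m))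

theorem mpow_ord {M : Matrix n n (Sq A)} (hM : ∀ i j, (M i j).co ∅ = 0) (m : ℕ) (i j : n)
    (S : Finset A) (hS : S.card < m) : ((M ^ m) i j).co S = 0 := by
  induction m generalizing i j S with
  | zero => exact absurd hS (Nat.not_lt_zero _)
  | succ m ih =>
    rw [pow_succ, Matrix.mul_apply, co_sum]
    refine Finset.sum_eq_zero fun k _ => ?_
    rw [co_mul]
    refine Finset.sum_eq_zero fun T hT => ?_
    have hT' := Finset.mem_powerset.1 hT
    by_cases h1 : T.card < m
    · rw [ih i k T h1, zero_mul]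
    · have h2 : S \ T = ∅ := by
        rw [← Finset.card_eq_zero, Finset.card_sdiff_of_subset hT']
        have := Finset.card_le_card hT'
        omega
      rw [h2, hM, mul_zero]

theorem mpow_nil [Fintype A] {M : Matrix n n (Sq A)} (K : ℕ)
    (hM : ∀ i j, ((M ^ K) i j).co ∅ = 0) (m : ℕ) (hm : K * (Fintype.card A + 1) ≤ m) :
    M ^ m = 0 := by
  obtain ⟨r, rfl⟩ := Nat.exists_eq_add_of_le hm
  have : (M ^ K) ^ (Fintype.card A + 1) = 0 := by
    ext i j S
    rw [mpow_ord hM _ i j S (Nat.lt_succ_of_le (Finset.card_le_univ S))]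
    rfl
  rw [pow_add, pow_mul, this, zero_mul]

/-! ### the companion matrices -/

theorem cmp_nn {c : A → ℤ} {K : ℕ} {f : Sq A} (hf : 0 ≤ f) (i j : Fin K) :
    0 ≤ cmp c K f i j := by
  unfold cmp
  split_ifs
  · exact cm_nn hf _
  · exact one_nn
  · exact le_refl _

theorem cmp_co (c : A → ℤ) (K : ℕ) (f : Sq A) (i j : Fin K) (h : (j : ℕ) + 1 ≠ i) :
    (cmp c K f i j).co ∅ = 0 := by
  unfold cmp
  rw [if_neg h]
  split_ifs
  · rw [cm_co, if_neg]
    rw [ch_empty]
    omega
  · rfl

theorem kron_pow (M N : Matrix n n (Sq A)) (m : ℕ) :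
    (Matrix.kroneckerMap (· * ·) M N) ^ m = Matrix.kroneckerMap (· * ·) (M ^ m) (N ^ m) := by
  induction m with
  | zero =>
    rw [pow_zero, pow_zero, pow_zero]
    exact (Matrix.one_kronecker_one).symm
  | succ m ih =>
    rw [pow_succ, ih, pow_succ, pow_succ]
    exact (Matrix.mul_kronecker_mul _ _ _ _).symm

/-- constant terms of the powers of the Kronecker product with a state removed -/
theorem kill_ord (c c' : A → ℤ) (K : ℕ) (f g : Sq A) (o : Fin K × Fin K) (m : ℕ)
    (x y : Fin K × Fin K) (h : (y.1 : ℕ) + m ≠ x.1) :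
    (((Pool.Agent.EF.kill (Matrix.kroneckerMap (· * ·) (cmp c K f) (cmp c' K g)) o) ^ m) x y).co ∅
      = 0 := by
  induction m generalizing y with
  | zero =>
    rw [pow_zero, Matrix.one_apply_ne]
    · rfl
    · rintro rfl
      exact h rfl
  | succ m ih =>
    rw [pow_succ, Matrix.mul_apply, co_sum]
    refine Finset.sum_eq_zero fun z _ => ?_
    rw [co_mul_empty]
    by_cases h1 : (z.1 : ℕ) + m = x.1
    · have h2 : (y.1 : ℕ) + 1 ≠ z.1 := by omega
      have : (Pool.Agent.EF.kill (Matrix.kroneckerMap (· * ·) (cmp c K f) (cmp c' K g)) o z y).co ∅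
          = 0 := by
        unfold Pool.Agent.EF.kill
        split_ifs
        · rfl
        · rw [Matrix.kroneckerMap_apply, co_mul_empty, cmp_co c K f _ _ h2, zero_mul]
      rw [this, mul_zero]
    · rw [ih z h1, zero_mul]

/-- the closed path of length `j` through the states below `j`, starting at `a` -/
def pth (K j a : ℕ) (h : a < j) (hj : j ≤ K) (s : ℕ) : Fin K :=
  ⟨if s ≤ a then a - s else a + j - s, by split_ifs <;> omega⟩

theorem pth_prod (c : A → ℤ) (K : ℕ) (f : Sq A) (j a : ℕ) (h : a < j) (hj : j ≤ K) :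
    ∏ s ∈ range j, cmp c K f (pth K j a h hj s) (pth K j a h hj (s + 1)) = cm c j f := by
  rw [Finset.prod_eq_single a]
  · unfold cmp pth
    simp only [le_refl, if_true, Nat.sub_self]
    rw [if_neg (by omega)]
    congr 1
    omega
  · intro s hs hsa
    have hs' := Finset.mem_range.1 hs
    unfold cmp pth
    simp only
    rw [if_neg (by split_ifs <;> omega), if_pos (by split_ifs <;> omega)]
  · intro h1
    exact absurd (Finset.mem_range.2 h) h1

/-- the trace of the `j`-th power with the state `(0, 0)` removed -/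
theorem trace_ge (c c' : A → ℤ) (K : ℕ) {f g : Sq A} (hf : 0 ≤ f) (hg : 0 ≤ g) (h0 : Fin K)
    (h00 : (h0 : ℕ) = 0) (j : ℕ) (hj : j ≤ K) :
    ((j : ℚ) * j - j) • (cm c j f * cm c' j g) ≤
      ((Pool.Agent.EF.kill (Matrix.kroneckerMap (· * ·) (cmp c K f) (cmp c' K g)) (h0, h0)) ^ j).trace
      := by
  set M := Pool.Agent.EF.kill (Matrix.kroneckerMap (· * ·) (cmp c K f) (cmp c' K g)) (h0, h0)
    with hMdef
  have hM : ∀ x y, 0 ≤ M x y := by
    intro x y
    rw [hMdef]
    unfold Pool.Agent.EF.kill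
    split_ifs
    · exact le_refl _
    · exact mul_nn (cmp_nn hf _ _) (cmp_nn hg _ _)
  set L : Finset (Fin K) := univ.filter (fun i => (i : ℕ) < j) with hL
  have hLc : L.card = j := by
    have h1 : L.map Fin.valEmbedding = range j := by
      ext a
      simp only [hL, Finset.mem_map, Finset.mem_filter, Finset.mem_univ, true_and,
        Fin.valEmbedding_apply, Finset.mem_range]
      constructor
      · rintro ⟨b, hb, rfl⟩
        exact hb
      · intro ha
        exact ⟨⟨a, by omega⟩, ha, rfl⟩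
    rw [← Finset.card_map Fin.valEmbedding, h1, Finset.card_range]
  have key : ∀ x ∈ L.offDiag, cm c j f * cm c' j g ≤ (M ^ j) x x := by
    rintro ⟨x1, x2⟩ hx
    rw [Finset.mem_offDiag] at hx
    obtain ⟨hx1, hx2, hne⟩ := hx
    have hx1' : (x1 : ℕ) < j := (Finset.mem_filter.1 hx1).2
    have hx2' : (x2 : ℕ) < j := (Finset.mem_filter.1 hx2).2
    have hne' : (x1 : ℕ) ≠ x2 := fun e => hne (Fin.ext e)
    have h1 := path_le hM (fun s => (pth K j x1 hx1' hj s, pth K j x2 hx2' hj s)) j
    have h2 : ∏ s ∈ range j, M (pth K j x1 hx1' hj s, pth K j x2 hx2' hj s)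
        (pth K j x1 hx1' hj (s + 1), pth K j x2 hx2' hj (s + 1)) = cm c j f * cm c' j g := by
      rw [← pth_prod c K f j x1 hx1' hj, ← pth_prod c' K g j x2 hx2' hj, ← Finset.prod_mul_distrib]
      refine Finset.prod_congr rfl fun s hs => ?_
      have hs' := Finset.mem_range.1 hs
      rw [hMdef]
      unfold Pool.Agent.EF.kill
      rw [if_neg]
      · rfl
      · rintro (h | h)
        · have e1 := congrArg (fun z => (z.1 : ℕ)) h
          have e2 := congrArg (fun z => (z.2 : ℕ)) h
          simp only [pth, h00] at e1 e2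
          split_ifs at e1 e2 <;> omega
        · have e1 := congrArg (fun z => (z.1 : ℕ)) h
          have e2 := congrArg (fun z => (z.2 : ℕ)) h
          simp only [pth, h00] at e1 e2
          split_ifs at e1 e2 <;> omega
    have h3 : pth K j x1 hx1' hj 0 = x1 := Fin.ext (by simp [pth])
    have h4 : pth K j x2 hx2' hj 0 = x2 := Fin.ext (by simp [pth])
    have h5 : pth K j x1 hx1' hj j = x1 := Fin.ext (by
      simp only [pth]; split_ifs <;> omega)
    have h6 : pth K j x2 hx2' hj j = x2 := Fin.ext (by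
      simp only [pth]; split_ifs <;> omega)
    rw [h2] at h1
    simpa only [h3, h4, h5, h6] using h1
  intro S
  rw [Matrix.trace, co_sum]
  have h1 : ∑ x ∈ L.offDiag, (cm c j f * cm c' j g).co S ≤ ∑ x ∈ L.offDiag, ((M ^ j) x x).co S :=
    Finset.sum_le_sum fun x hx => key x hx S
  have h2 : ∑ x ∈ L.offDiag, ((M ^ j) x x).co S ≤ ∑ x, ((M ^ j) x x).co S :=
    Finset.sum_le_sum_of_subset_of_nonneg (Finset.subset_univ _)
      fun x _ _ => mpow_nn hM j x x S
  refine le_trans ?_ (le_trans h1 h2)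
  rw [Finset.sum_const, Finset.offDiag_card, hLc, nsmul_eq_mul, co_smul,
    Nat.cast_sub (Nat.le_mul_self j)]
  push_cast
  exact le_refl _

end kj

/-- **Piece kj.** -/
theorem kj (hc : CpnS) : KjS := by
  intro A _ _ c f g hf hg hfp hgn
  -- the bound K
  obtain ⟨K, hK0, hK, hK'⟩ : ∃ K : ℕ, 0 < K ∧ (∀ S : Finset A, ch c S < K) ∧
      ∀ S : Finset A, ch (fun a => - c a) S < K := by
    refine ⟨(∑ a, |c a|).toNat + 1, Nat.succ_pos _, ?_, ?_⟩
    · intro S
      have h1 : ch c S ≤ ∑ a, |c a| :=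
        (Finset.sum_le_sum fun a _ => le_abs_self (c a)).trans
          (Finset.sum_le_sum_of_subset_of_nonneg (Finset.subset_univ S)
            fun a _ _ => abs_nonneg (c a))
      omega
    · intro S
      have h1 : ch (fun a => - c a) S ≤ ∑ a, |c a| :=
        (Finset.sum_le_sum fun a _ => neg_le_abs (c a)).trans
          (Finset.sum_le_sum_of_subset_of_nonneg (Finset.subset_univ S)
            fun a _ _ => abs_nonneg (c a))
      omega
  have hfP : Pos c f := by rw [hfp]; exact pp_Pos c f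
  have hgN : Neg c g := by rw [hgn]; exact nn_Neg c g
  have hgP : Pos (fun a => - c a) g := (kj.Neg_iff c g).1 hgN
  have hgp : g = pp (fun a => - c a) g := hgP.pp.symm
  set F := iv (1 - f) with hF
  set G := iv (1 - g) with hG
  set h0 : Fin K := ⟨0, hK0⟩
  have cF := hc A c f K hfp hK hK0 h0 rfl
  have cG := hc A (fun a => - c a) g K hgp hK' hK0 h0 rfl
  set C := Matrix.kroneckerMap (· * ·) (cmp c K f) (cmp (fun a => - c a) K g) with hC
  set M := Pool.Agent.EF.kill C (h0, h0) with hM
  set N := K * (Fintype.card A + 1) with hN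
  have hKN : K ≤ N := Nat.le_mul_of_pos_right K (Nat.succ_pos _)
  have hMN : ∀ m, N ≤ m → M ^ m = 0 := by
    intro m hm
    refine kj.mpow_nil K (fun x y => ?_) m hm
    refine kj.kill_ord c _ K f g (h0, h0) K x y ?_
    have := x.1.2
    omega
  have hMnn : ∀ x y, 0 ≤ M x y := by
    intro x y
    rw [hM]
    unfold Pool.Agent.EF.kill
    split_ifs
    · exact le_refl _
    · exact mul_nn (kj.cmp_nn hf _ _) (kj.cmp_nn hg _ _)
  have hbig : ∀ (m : ℕ) (x : Sq A), K ≤ m → cm c m x = 0 := by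
    intro m x hm
    ext S
    rw [kj.cm_co, if_neg]
    · rfl
    · have := hK S
      omega
  have hCoo : ∀ m : ℕ, (C ^ m) (h0, h0) (h0, h0) = cm c m F * cm c (-(m : ℤ)) G := by
    intro m
    rw [hC, kj.kron_pow, Matrix.kroneckerMap_apply, (cF m).1, (cG m).1, kj.cm_neg]
  have hCt : ∀ m : ℕ, 1 ≤ m → (C ^ m).trace = ((m : ℚ) * m) • (cm c m (lg F) * cm c (-(m : ℤ)) (lg G))
      := by
    intro m hm
    rw [hC, kj.kron_pow]
    have := Matrix.trace_kronecker (cmp c K f ^ m) (cmp (fun a => - c a) K g ^ m)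
    rw [show (Matrix.kroneckerMap (· * ·) (cmp c K f ^ m) (cmp (fun a => - c a) K g ^ m)).trace
      = (cmp c K f ^ m).trace * (cmp (fun a => - c a) K g ^ m).trace from this,
      (cF m).2 hm, (cG m).2 hm, kj.cm_neg, smul_mul_smul_comm]
  -- the recursion
  have a1 : cm c ((0 : ℕ) : ℤ) F * cm c (-((0 : ℕ) : ℤ)) G = 1 := by
    have h1 := hCoo 0
    rw [pow_zero, Matrix.one_apply_eq] at h1
    exact h1.symm
  have a2 : (C ^ 0).trace - (M ^ 0).trace = 0 := by
    simp only [pow_zero, sub_self]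
  have a3 : ∀ m : ℕ, (m : ℚ) • (cm c m F * cm c (-(m : ℤ)) G)
      = ∑ p ∈ HasAntidiagonal.antidiagonal m, ((C ^ p.1).trace - (M ^ p.1).trace) *
        (cm c p.2 F * cm c (-(p.2 : ℤ)) G) := by
    intro m
    have h1 := Pool.Agent.EF.block_antidiagonal C (h0, h0) m
    simp only [hCoo] at h1
    rw [Nat.cast_smul_eq_nsmul, nsmul_eq_mul]
    exact h1
  have a4 : ∀ m : ℕ, N ≤ m → cm c m F * cm c (-(m : ℤ)) G = 0 := by
    intro m hm
    rw [hbig m F (by omega), zero_mul]
  have a5 : ∀ m : ℕ, N ≤ m → (C ^ m).trace - (M ^ m).trace = 0 := by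
    intro m hm
    rw [hMN m hm, hCt m (by omega), hbig m (lg F) (by omega)]
    simp
  have a6 : ∀ m : ℕ, 1 ≤ m → (cm c m F * cm c (-(m : ℤ)) G).co ∅ = 0 := by
    intro m hm
    rw [co_mul_empty, kj.cm_co, if_neg, zero_mul]
    rw [ch_empty]
    omega
  have main := kj.rec_exp N (fun m => cm c m F * cm c (-(m : ℤ)) G)
    (fun m => (C ^ m).trace - (M ^ m).trace) a1 a2 a3 a4 a5 (by omega) a6
  obtain ⟨m1, m2⟩ := main
  have hFsu : Su (fun k => 0 ≤ k ∧ k < (N : ℤ)) c F := by
    intro S hS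
    have h1 := kj.Su_iv hfP S hS
    have h2 := hK S
    have h3 : (K : ℤ) ≤ N := by exact_mod_cast hKN
    exact ⟨h1, by omega⟩
  rw [← kj.zz_mul_eq c N F G hFsu] at m2
  -- the pairing
  have hlF : Pos c (lg F) := kj.Pos_lg hfP
  have hlG : Neg c (lg G) := by
    rw [kj.Neg_iff]; exact kj.Pos_lg hgP
  have hpr : pr c (lg F + lg G) (lg F + lg G) = pr c (lg F) (lg G) := by
    rw [pr_add_left, pr_add_right, pr_add_right]
    have e1 : pr c (lg F) (lg F) = 0 := by
      conv_lhs => rw [← hlF.pp]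
      rw [pr_pp_right]
    have e2 : pr c (lg G) (lg F) = 0 := by
      rw [← hlF.pp, pr_pp_right]
    have e3 : pr c (lg G) (lg G) = 0 := by
      conv_lhs => rw [← hlG.nn]
      rw [pr_nn_left]
    rw [e1, e2, e3]
    simp
  have hlFsu : Su (fun k => 0 ≤ k ∧ k < (N : ℤ)) c (wt mxw c (lg F)) := by
    refine Su.wt ?_ _
    intro S hS
    have h1 := hlF S hS
    have h2 := hK S
    have h3 : (K : ℤ) ≤ N := by exact_mod_cast hKN
    exact ⟨by omega, by omega⟩
  have hprs : pr c (lg F) (lg G) = ∑ m ∈ range N, ((m : ℚ)⁻¹) • (C ^ m).trace := by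
    rw [pr_eq, kj.zz_mul_eq c N _ _ hlFsu]
    refine Finset.sum_congr rfl fun m _ => ?_
    rw [kj.cm_wt]
    rcases Nat.eq_zero_or_pos m with hm | hm
    · rw [hm]
      simp [mxw]
    · rw [hCt m hm, smul_smul, smul_mul_assoc]
      congr 1
      have : (m : ℚ) ≠ 0 := by rw [Nat.cast_ne_zero]; omega
      rw [← mul_assoc, inv_mul_cancel₀ this, one_mul, mxw, max_eq_left (by omega)]
      simp
  set W := ∑ m ∈ range N, ((m : ℚ)⁻¹) • (M ^ m).trace with hW
  have hsum : ∑ m ∈ range N, ((m : ℚ)⁻¹) • ((C ^ m).trace - (M ^ m).trace)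
      = pr c (lg F) (lg G) - W := by
    rw [hprs, hW, ← Finset.sum_sub_distrib]
    exact Finset.sum_congr rfl fun m _ => smul_sub _ _ _
  rw [hsum] at m1 m2
  have hWc : W.co ∅ = 0 := by
    rw [co_sub, pr_co_empty, zero_sub, neg_eq_zero] at m1
    exact m1
  have htr : ∀ m, 0 ≤ (M ^ m).trace := fun m =>
    sum_nn _ _ fun x _ => kj.mpow_nn hMnn m x x
  refine ⟨W, sum_nn _ _ fun m _ => smul_nn (by positivity) (htr m), hWc, ?_, ?_⟩
  · rw [hpr, m2, iv_ex (by simp [pr_co_empty, hWc]), ← ex_add (pr_co_empty _ _ _)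
      (by simp [pr_co_empty, hWc])]
    congr 1
    ring
  · rw [kj.pq_eq, kj.zz_mul_eq c N _ _]
    · intro S
      rw [hW, co_sum, co_sum]
      refine Finset.sum_le_sum fun m _ => ?_
      rw [kj.cm_wt, smul_mul_assoc, co_smul, co_smul]
      rcases Nat.eq_zero_or_pos m with hm | hm
      · rw [hm]
        simp
      · by_cases hmK : m < K
        · have h1 := kj.trace_ge c (fun a => - c a) K hf hg h0 rfl m hmK.le S
          rw [kj.cm_neg, co_smul] at h1
          have hm' : (0 : ℚ) < m := by exact_mod_cast hm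
          rw [max_eq_left (by omega), le_inv_mul_iff₀ hm']
          refine le_trans (le_of_eq ?_) h1
          push_cast
          ring
        · rw [hbig m f (by omega), zero_mul, co_zero, mul_zero]
          exact mul_nonneg (by positivity) (htr m S)
    · refine Su.wt ?_ _
      intro S hS
      have h1 := hfP S hS
      have h2 := hK S
      have h3 : (K : ℤ) ≤ N := by exact_mod_cast hKN
      exact ⟨by omega, by omega⟩


end Pool.MP_ef6aaf_al.EF
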