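import Pool.Agent.Lib.MP_ef6aaf_al.EF.QStm

/-!
# MP_ef6aaf_al, positivity side of the F_2 theorem: piece `hat` (helper7)

The recursion `f = (T + f g)_{>0}`, `g = (T + f g)_{<0}`.
-/

set_option autoImplicit false

namespace Pool.MP_ef6aaf_al.EF

open Finset Sq

namespace hat

variable {A : Type} [DecidableEq A]

/-- two pairs agree in all coefficients of degree `< k` -/
def Agr (k : ℕ) (p q : Sq A × Sq A) : Prop :=
  ∀ S : Finset A, S.card < k → p.1.co S = q.1.co S ∧ p.2.co S = q.2.co S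

/-- no constant terms -/
def Nc (p : Sq A × Sq A) : Prop := p.1.co ∅ = 0 ∧ p.2.co ∅ = 0

theorem nc_zero : Nc ((0, 0) : Sq A × Sq A) := ⟨rfl, rfl⟩

theorem nc_whs (c : A → ℤ) (T : Sq A) (p : Sq A × Sq A) : Nc (whs c T p) := by
  constructor <;> simp [whs, pp, nn, ch]

theorem mul_agr {k : ℕ} {p q : Sq A × Sq A} (hp : Nc p) (hq : Nc q) (h : Agr k p q)
    (S : Finset A) (hS : S.card < k + 1) : (p.1 * p.2).co S = (q.1 * q.2).co S := by
  rw [co_mul, co_mul]
  refine Finset.sum_congr rfl fun T hT => ?_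
  have hT' := mem_powerset.1 hT
  by_cases h1 : T = ∅
  · subst h1
    rw [hp.1, hq.1, zero_mul, zero_mul]
  · by_cases h2 : T = S
    · subst h2
      rw [Finset.sdiff_self, hp.2, hq.2, mul_zero, mul_zero]
    · have c1 : T.card < S.card := Finset.card_lt_card
        (Finset.ssubset_iff_subset_ne.2 ⟨hT', h2⟩)
      have c2 : 0 < T.card := Finset.card_pos.2 (Finset.nonempty_iff_ne_empty.2 h1)
      have c3 : (S \ T).card = S.card - T.card := Finset.card_sdiff_of_subset hT'
      rw [(h T (by omega)).1, (h (S \ T) (by omega)).2]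

theorem whs_agr {k : ℕ} (c : A → ℤ) (T : Sq A) {p q : Sq A × Sq A} (hp : Nc p) (hq : Nc q)
    (h : Agr k p q) : Agr (k + 1) (whs c T p) (whs c T q) := by
  intro S hS
  have := mul_agr hp hq h S hS
  constructor
  · simp only [whs, pp, co_add, this]
  · simp only [whs, nn, co_add, this]

theorem nc_iter (c : A → ℤ) (T : Sq A) (n : ℕ) : Nc ((whs c T)^[n] ((0, 0) : Sq A × Sq A)) := by
  cases n with
  | zero => exact nc_zero
  | succ n => rw [Function.iterate_succ_apply']; exact nc_whs c T _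

/-- a pair without constant terms which is close to a fixed point: the iteration reaches it -/
theorem iter_agr (c : A → ℤ) (T : Sq A) (q : ℕ → Sq A × Sq A) (hq : ∀ n, Nc (q n))
    (hs : ∀ n, q (n + 1) = whs c T (q n)) (n : ℕ) :
    Agr n ((whs c T)^[n] ((0, 0) : Sq A × Sq A)) (q n) := by
  induction n with
  | zero => intro S hS; exact absurd hS (Nat.not_lt_zero _)
  | succ n ih =>
    rw [Function.iterate_succ_apply', hs n]
    exact whs_agr c T (nc_iter c T n) (hq n) ih

omit [DecidableEq A] in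
theorem eq_of_agr [Fintype A] {p q : Sq A × Sq A} (h : Agr (Fintype.card A + 1) p q) : p = q := by
  refine Prod.ext ?_ ?_
  · ext S
    exact (h S (Nat.lt_succ_of_le (Finset.card_le_univ S))).1
  · ext S
    exact (h S (Nat.lt_succ_of_le (Finset.card_le_univ S))).2

/-- the fixed point equation -/
theorem wh_fix [Fintype A] (c : A → ℤ) (T : Sq A) : wh c T = whs c T (wh c T) := by
  have h := iter_agr c T (fun n => (whs c T)^[n + 1] ((0, 0) : Sq A × Sq A))
    (fun n => nc_iter c T (n + 1)) (fun n => Function.iterate_succ_apply' _ _ _)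
    (Fintype.card A + 1)
  have h2 := eq_of_agr h
  exact h2.trans (Function.iterate_succ_apply' _ _ _)

/-- uniqueness -/
theorem wh_unique [Fintype A] (c : A → ℤ) (T : Sq A) (q : Sq A × Sq A) (hq : q = whs c T q) :
    q = wh c T := by
  have hn : Nc q := by rw [hq]; exact nc_whs c T q
  exact (eq_of_agr (iter_agr c T (fun _ => q) (fun _ => hn) (fun _ => hq)
    (Fintype.card A + 1))).symm

omit [DecidableEq A] in
theorem pp_nn (c : A → ℤ) {x : Sq A} (hx : 0 ≤ x) : 0 ≤ pp c x := by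
  intro S
  simp only [pp, co_zero]
  split_ifs
  · exact hx S
  · exact le_refl _

omit [DecidableEq A] in
theorem nn_nn (c : A → ℤ) {x : Sq A} (hx : 0 ≤ x) : 0 ≤ nn c x := by
  intro S
  simp only [nn, co_zero]
  split_ifs
  · exact hx S
  · exact le_refl _

omit [DecidableEq A] in
theorem pp_le (c : A → ℤ) {x y : Sq A} (h : x ≤ y) : pp c x ≤ pp c y := by
  intro S
  simp only [pp]
  split_ifs
  · exact h S
  · exact le_refl _

omit [DecidableEq A] in
theorem nn_le (c : A → ℤ) {x y : Sq A} (h : x ≤ y) : nn c x ≤ nn c y := by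
  intro S
  simp only [nn]
  split_ifs
  · exact h S
  · exact le_refl _

theorem whs_nn (c : A → ℤ) {T : Sq A} (hT : 0 ≤ T) {p : Sq A × Sq A} (h1 : 0 ≤ p.1)
    (h2 : 0 ≤ p.2) : 0 ≤ (whs c T p).1 ∧ 0 ≤ (whs c T p).2 :=
  ⟨pp_nn c (add_nn hT (mul_nn h1 h2)), nn_nn c (add_nn hT (mul_nn h1 h2))⟩

theorem iter_nn (c : A → ℤ) {T : Sq A} (hT : 0 ≤ T) (n : ℕ) :
    0 ≤ ((whs c T)^[n] ((0, 0) : Sq A × Sq A)).1 ∧
      0 ≤ ((whs c T)^[n] ((0, 0) : Sq A × Sq A)).2 := by
  induction n with
  | zero => exact ⟨le_refl _, le_refl _⟩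
  | succ n ih =>
    rw [Function.iterate_succ_apply']
    exact whs_nn c hT ih.1 ih.2

theorem iter_le (c : A → ℤ) {T T' : Sq A} (hT : 0 ≤ T) (h : T ≤ T') (n : ℕ) :
    ((whs c T)^[n] ((0, 0) : Sq A × Sq A)).1 ≤ ((whs c T')^[n] ((0, 0) : Sq A × Sq A)).1 ∧
      ((whs c T)^[n] ((0, 0) : Sq A × Sq A)).2 ≤ ((whs c T')^[n] ((0, 0) : Sq A × Sq A)).2 := by
  induction n with
  | zero => exact ⟨le_refl _, le_refl _⟩
  | succ n ih =>
    rw [Function.iterate_succ_apply', Function.iterate_succ_apply']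
    have hn := iter_nn c hT n
    have hm := add_le h (mul_le hn.1 ih.1 hn.2 ih.2)
    exact ⟨pp_le c hm, nn_le c hm⟩

end hat

theorem hat : HatS := by
  intro A _ _ c T _
  refine ⟨?_, ?_, ?_, ?_⟩
  · have h := hat.wh_fix c T
    exact ⟨congrArg Prod.fst h, congrArg Prod.snd h⟩
  · intro f g hf hg
    have h := hat.wh_unique c T (f, g) (Prod.ext hf hg)
    exact ⟨congrArg Prod.fst h, congrArg Prod.snd h⟩
  · intro hT
    exact hat.iter_nn c hT _
  · intro T' _ hT hle
    exact hat.iter_le c hT hle _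

end Pool.MP_ef6aaf_al.EF
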